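import Mathlib

/-!
# Anisotropic integrands on `k`-planes: the atomic condition
-/

namespace V8H6.GK

open Matrix

attribute [local instance] Matrix.normedAddCommGroup Matrix.normedSpace

variable {n k : ℕ}

/-- The set of the `n × k` matrices whose columns are linearly independent (the frames). -/
def Frame (n k : ℕ) : Set (Matrix (Fin n) (Fin k) ℝ) := {V | (Vᵀ * V).det ≠ 0}

/-- The orthogonal projection onto the span of the columns of `V` (for frames). -/
noncomputable def proj (V : Matrix (Fin n) (Fin k) ℝ) : Matrix (Fin n) (Fin n) ℝ :=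
  V * (Vᵀ * V)⁻¹ * Vᵀ

/-- The `k`-dimensional volume of the parallelepiped spanned by the columns of `V`. -/
noncomputable def vol (V : Matrix (Fin n) (Fin k) ℝ) : ℝ := Real.sqrt (Vᵀ * V).det

/-- A `k`-integrand: a positive function of class `C¹` on the set of the orthogonal projections
of rank `k`.  Only the values `F (proj V)`, `V` a frame, matter. -/
structure IsIntegrand (k : ℕ) (F : Matrix (Fin n) (Fin n) ℝ → ℝ) : Prop where
  pos : ∀ V ∈ Frame n k, 0 < F (proj V)
  smooth : ContDiffOn ℝ 1 (fun V : Matrix (Fin n) (Fin k) ℝ => F (proj V)) (Frame n k)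

/-- `B` is the first variation matrix `B_F(T)` at `T = proj V`:
for every `L` the derivative at `0` of `F (π_t) J_t`, where `π_t` is the span of the columns of
`(I + t L) V` and `J_t = vol ((I + t L) V) / vol V`, is the inner product of `B` and `L`. -/
def IsFirstVar (F : Matrix (Fin n) (Fin n) ℝ → ℝ) (V : Matrix (Fin n) (Fin k) ℝ)
    (B : Matrix (Fin n) (Fin n) ℝ) : Prop :=
  ∀ L : Matrix (Fin n) (Fin n) ℝ,
    HasDerivAt (fun t : ℝ => F (proj ((1 + t • L) * V)) * (vol ((1 + t • L) * V) / vol V))
      ((Bᵀ * L).trace) 0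

/-- The Gauss image of `F`. -/
def GaussImage (k : ℕ) (F : Matrix (Fin n) (Fin n) ℝ → ℝ) : Set (Matrix (Fin n) (Fin n) ℝ) :=
  {A | ∃ V ∈ Frame n k, ∃ B, IsFirstVar F V B ∧ A = (F (proj V))⁻¹ • B}

/-- The atomic condition in its convex-geometric form. -/
def AC (k : ℕ) (F : Matrix (Fin n) (Fin n) ℝ → ℝ) : Prop :=
  convexHull ℝ (GaussImage k F) ∩ {A | A.rank ≤ k} = GaussImage k F ∧
    GaussImage k F = (convexHull ℝ (GaussImage k F)).extremePoints ℝ

end V8H6.GK
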