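import Mathlib
import Pool.Agent.V8H6.GK.Defs

namespace V8H6.GK

open Matrix

attribute [local instance] Matrix.normedAddCommGroup Matrix.normedSpace

variable {n k : ℕ} {F : Matrix (Fin n) (Fin n) ℝ → ℝ}

theorem gram_posSemidef (V : Matrix (Fin n) (Fin k) ℝ) : (Vᵀ * V).PosSemidef := by
  have := posSemidef_conjTranspose_mul_self V
  rwa [conjTranspose_eq_transpose_of_trivial] at this

theorem gram_det_nonneg (V : Matrix (Fin n) (Fin k) ℝ) : 0 ≤ (Vᵀ * V).det :=
  (gram_posSemidef V).det_nonneg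

theorem gram_det_pos {V : Matrix (Fin n) (Fin k) ℝ} (hV : V ∈ Frame n k) : 0 < (Vᵀ * V).det :=
  lt_of_le_of_ne (gram_det_nonneg V) (Ne.symm hV)

theorem vol_pos {V : Matrix (Fin n) (Fin k) ℝ} (hV : V ∈ Frame n k) : 0 < vol V :=
  Real.sqrt_pos.2 (gram_det_pos hV)

theorem gram_mul (V : Matrix (Fin n) (Fin k) ℝ) (g : Matrix (Fin k) (Fin k) ℝ) :
    (V * g)ᵀ * (V * g) = gᵀ * (Vᵀ * V) * g := by
  rw [transpose_mul]
  simp only [Matrix.mul_assoc]

theorem gram_det_mul (V : Matrix (Fin n) (Fin k) ℝ) (g : Matrix (Fin k) (Fin k) ℝ) :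
    ((V * g)ᵀ * (V * g)).det = g.det * g.det * (Vᵀ * V).det := by
  rw [gram_mul, det_mul, det_mul, det_transpose]
  ring

theorem frame_mul {V : Matrix (Fin n) (Fin k) ℝ} (hV : V ∈ Frame n k)
    {g : Matrix (Fin k) (Fin k) ℝ} (hg : g.det ≠ 0) : V * g ∈ Frame n k := by
  show ((V * g)ᵀ * (V * g)).det ≠ 0
  rw [gram_det_mul]
  exact mul_ne_zero (mul_ne_zero hg hg) hV

theorem vol_mul (V : Matrix (Fin n) (Fin k) ℝ) (g : Matrix (Fin k) (Fin k) ℝ) :
    vol (V * g) = |g.det| * vol V := by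
  unfold vol
  rw [gram_det_mul, Real.sqrt_mul (mul_self_nonneg _), Real.sqrt_mul_self_eq_abs]

theorem proj_mul (V : Matrix (Fin n) (Fin k) ℝ) {g : Matrix (Fin k) (Fin k) ℝ} (hg : g.det ≠ 0) :
    proj (V * g) = proj V := by
  unfold proj
  have hu : IsUnit g.det := isUnit_iff_ne_zero.2 hg
  have hut : IsUnit gᵀ.det := by rwa [det_transpose]
  rw [gram_mul, Matrix.mul_inv_rev, Matrix.mul_inv_rev, transpose_mul]
  have e : V * g * (g⁻¹ * ((Vᵀ * V)⁻¹ * gᵀ⁻¹)) * (gᵀ * Vᵀ) =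
      V * (g * g⁻¹) * (Vᵀ * V)⁻¹ * (gᵀ⁻¹ * gᵀ) * Vᵀ := by
    simp only [Matrix.mul_assoc]
  rw [e, mul_nonsing_inv g hu, nonsing_inv_mul gᵀ hut, Matrix.mul_one, Matrix.mul_one]

/-- The density on frames. -/
noncomputable def Phi (F : Matrix (Fin n) (Fin n) ℝ → ℝ) (V : Matrix (Fin n) (Fin k) ℝ) : ℝ :=
  vol V * F (proj V)

theorem Phi_mul (V : Matrix (Fin n) (Fin k) ℝ) {g : Matrix (Fin k) (Fin k) ℝ}
    (hg : g.det ≠ 0) : Phi F (V * g) = |g.det| * Phi F V := by
  unfold Phi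
  rw [vol_mul, proj_mul V hg, mul_assoc]

theorem Phi_pos (hF : IsIntegrand k F) {V : Matrix (Fin n) (Fin k) ℝ} (hV : V ∈ Frame n k) :
    0 < Phi F V := mul_pos (vol_pos hV) (hF.pos V hV)

theorem contDiff_gram_det : ContDiff ℝ 1 (fun V : Matrix (Fin n) (Fin k) ℝ => (Vᵀ * V).det) := by
  have hent : ∀ i j, ContDiff ℝ 1 (fun V : Matrix (Fin n) (Fin k) ℝ => V i j) := by
    intro i j
    have h1 : ContDiff ℝ 1 (fun V : Fin n → Fin k → ℝ => V i j) := by fun_prop
    exact h1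
  simp only [det_apply, Matrix.mul_apply, transpose_apply]
  refine ContDiff.sum fun σ _ => ?_
  refine ContDiff.const_smul _ ?_
  refine contDiff_prod fun i _ => ?_
  refine ContDiff.sum fun l _ => ?_
  exact (hent _ _).mul (hent _ _)

theorem isOpen_frame : IsOpen (Frame n k) := by
  have h1 : Continuous (fun V : Matrix (Fin n) (Fin k) ℝ => (Vᵀ * V).det) :=
    contDiff_gram_det.continuous
  exact isOpen_ne_fun h1 continuous_const

theorem Phi_contDiffOn (hF : IsIntegrand k F) :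
    ContDiffOn ℝ 1 (fun V : Matrix (Fin n) (Fin k) ℝ => Phi F V) (Frame n k) := by
  have h1 : ContDiffOn ℝ 1 (fun V : Matrix (Fin n) (Fin k) ℝ => vol V) (Frame n k) := by
    unfold vol
    refine ContDiffOn.sqrt contDiff_gram_det.contDiffOn ?_
    intro V hV
    exact hV
  exact h1.mul hF.smooth

theorem Phi_diffAt (hF : IsIntegrand k F) {V : Matrix (Fin n) (Fin k) ℝ} (hV : V ∈ Frame n k) :
    DifferentiableAt ℝ (fun V : Matrix (Fin n) (Fin k) ℝ => Phi F V) V :=
  ((Phi_contDiffOn hF).differentiableOn (by norm_num)).differentiableAt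
    (isOpen_frame.mem_nhds hV)

/-- Gradient of `Phi F`. -/
noncomputable def grad (F : Matrix (Fin n) (Fin n) ℝ → ℝ) (V : Matrix (Fin n) (Fin k) ℝ) :
    Matrix (Fin n) (Fin k) ℝ :=
  Matrix.of fun i j => fderiv ℝ (fun V : Matrix (Fin n) (Fin k) ℝ => Phi F V) V (single i j 1)

theorem fderiv_eq (V W : Matrix (Fin n) (Fin k) ℝ) :
    fderiv ℝ (fun V : Matrix (Fin n) (Fin k) ℝ => Phi F V) V W = ((grad F V)ᵀ * W).trace := by
  conv_lhs => rw [matrix_eq_sum_single W]
  rw [map_sum]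
  simp only [map_sum]
  simp only [trace, diag_apply, Matrix.mul_apply, transpose_apply, grad, of_apply]
  rw [Finset.sum_comm]
  refine Finset.sum_congr rfl fun j _ => Finset.sum_congr rfl fun i _ => ?_
  have e : (single i j (W i j) : Matrix (Fin n) (Fin k) ℝ) = W i j • single i j 1 := by
    rw [smul_single, smul_eq_mul, mul_one]
  rw [e, map_smul, smul_eq_mul, mul_comm]

theorem hasDerivAt_line (hF : IsIntegrand k F) {V : Matrix (Fin n) (Fin k) ℝ}
    (hV : V ∈ Frame n k) (W : Matrix (Fin n) (Fin k) ℝ) :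
    HasDerivAt (fun t : ℝ => Phi F (V + t • W)) ((grad F V)ᵀ * W).trace 0 := by
  have h1 : HasFDerivAt (fun V : Matrix (Fin n) (Fin k) ℝ => Phi F V)
      (fderiv ℝ (fun V : Matrix (Fin n) (Fin k) ℝ => Phi F V) V) (V + (0:ℝ) • W) := by
    simpa using (Phi_diffAt hF hV).hasFDerivAt
  have h2 : HasDerivAt (fun t : ℝ => V + t • W) W 0 :=
    (((hasDerivAt_id (0:ℝ)).smul_const W).const_add V).congr_deriv (one_smul ℝ W)
  exact (h1.comp_hasDerivAt (0:ℝ) h2).congr_deriv (fderiv_eq V W)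

/-- derivative of `det (1 + t M)` -/
theorem hasDerivAt_det_one (M : Matrix (Fin k) (Fin k) ℝ) :
    HasDerivAt (fun t : ℝ => (1 + t • M).det) M.trace 0 := by
  have e : (fun t : ℝ => (1 + t • M).det) = fun t : ℝ => 1 + M.trace * t +
      ((det (1 + (Polynomial.X : Polynomial ℝ) • M.map Polynomial.C)).divX.divX.eval t) * t ^ 2 := by
    funext t
    exact det_one_add_smul t M
  rw [e]
  have h1 : HasDerivAt (fun t : ℝ => 1 + M.trace * t) M.trace 0 := by
    simpa using ((hasDerivAt_id (0:ℝ)).const_mul M.trace).const_add 1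
  have h2 := ((det (1 + (Polynomial.X : Polynomial ℝ) •
    M.map Polynomial.C)).divX.divX.hasDerivAt (0:ℝ)).mul ((hasDerivAt_id (0:ℝ)).pow 2)
  refine (h1.add h2).congr_deriv ?_
  simp

theorem det_one_pos (M : Matrix (Fin k) (Fin k) ℝ) :
    ∀ᶠ t in nhds (0:ℝ), 0 < (1 + t • M).det := by
  have h := (hasDerivAt_det_one M).continuousAt
  have h0 : (0:ℝ) < (1 + (0:ℝ) • M).det := by simp
  exact h.eventually (lt_mem_nhds h0)

/-- Euler. -/
theorem euler (hF : IsIntegrand k F) {V : Matrix (Fin n) (Fin k) ℝ} (hV : V ∈ Frame n k) :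
    (grad F V)ᵀ * V = Phi F V • (1 : Matrix (Fin k) (Fin k) ℝ) := by
  have key : ∀ M : Matrix (Fin k) (Fin k) ℝ,
      ((grad F V)ᵀ * V * M).trace = ((Phi F V • (1 : Matrix (Fin k) (Fin k) ℝ)) * M).trace := by
    intro M
    have h1 := hasDerivAt_line hF hV (V * M)
    have h2 : HasDerivAt (fun t : ℝ => (1 + t • M).det * Phi F V) (M.trace * Phi F V) 0 :=
      (hasDerivAt_det_one M).mul_const _
    have h3 : (fun t : ℝ => Phi F (V + t • (V * M))) =ᶠ[nhds 0]
        fun t : ℝ => (1 + t • M).det * Phi F V := by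
      filter_upwards [det_one_pos M] with t ht
      have e : V + t • (V * M) = V * (1 + t • M) := by
        rw [Matrix.mul_add, Matrix.mul_one, Matrix.mul_smul]
      rw [e, Phi_mul V ht.ne', abs_of_pos ht]
    have h4 := (h1.congr_of_eventuallyEq h3.symm).unique h2
    rw [Matrix.mul_assoc, h4, smul_mul, Matrix.one_mul, trace_smul, smul_eq_mul, mul_comm]
  ext i j
  have h := key (single j i 1)
  rw [trace_mul_single, trace_mul_single] at h
  simpa using h

theorem euler' (hF : IsIntegrand k F) {V : Matrix (Fin n) (Fin k) ℝ} (hV : V ∈ Frame n k) :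
    Vᵀ * grad F V = Phi F V • (1 : Matrix (Fin k) (Fin k) ℝ) := by
  have := congrArg transpose (euler hF hV)
  rwa [transpose_mul, transpose_transpose, transpose_smul, transpose_one] at this

theorem trace_grad (G V : Matrix (Fin n) (Fin k) ℝ) (L : Matrix (Fin n) (Fin n) ℝ) :
    ((G * Vᵀ)ᵀ * L).trace = (Gᵀ * (L * V)).trace := by
  rw [transpose_mul, transpose_transpose, Matrix.mul_assoc, trace_mul_comm, Matrix.mul_assoc]

theorem isFirstVar_iff (hF : IsIntegrand k F) {V : Matrix (Fin n) (Fin k) ℝ}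
    (hV : V ∈ Frame n k) (B : Matrix (Fin n) (Fin n) ℝ) :
    IsFirstVar F V B ↔ B = (vol V)⁻¹ • (grad F V * Vᵀ) := by
  have hder : ∀ L : Matrix (Fin n) (Fin n) ℝ,
      HasDerivAt (fun t : ℝ => F (proj ((1 + t • L) * V)) * (vol ((1 + t • L) * V) / vol V))
      ((vol V)⁻¹ * ((grad F V)ᵀ * (L * V)).trace) 0 := by
    intro L
    have h1 := (hasDerivAt_line hF hV (L * V)).const_mul (vol V)⁻¹
    have e : (fun t : ℝ => F (proj ((1 + t • L) * V)) * (vol ((1 + t • L) * V) / vol V)) =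
        fun t : ℝ => (vol V)⁻¹ * Phi F (V + t • (L * V)) := by
      funext t
      have e1 : (1 + t • L) * V = V + t • (L * V) := by
        rw [Matrix.add_mul, Matrix.one_mul, Matrix.smul_mul]
      rw [e1]
      unfold Phi
      ring
    rw [e]
    exact h1
  constructor
  · intro h
    have h2 : ∀ L : Matrix (Fin n) (Fin n) ℝ,
        (Bᵀ * L).trace = (((vol V)⁻¹ • (grad F V * Vᵀ))ᵀ * L).trace := by
      intro L
      rw [(h L).unique (hder L), transpose_smul, smul_mul, trace_smul, trace_grad, smul_eq_mul]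
    ext i j
    have h3 := h2 (single i j 1)
    rw [trace_mul_single, trace_mul_single] at h3
    simpa using h3
  · intro h L
    rw [h, transpose_smul, smul_mul, trace_smul, trace_grad, smul_eq_mul]
    exact hder L

/-- The point of the Gauss image. -/
noncomputable def Av (F : Matrix (Fin n) (Fin n) ℝ → ℝ) (V : Matrix (Fin n) (Fin k) ℝ) :
    Matrix (Fin n) (Fin n) ℝ := (Phi F V)⁻¹ • (grad F V * Vᵀ)

theorem firstVar_Av (hF : IsIntegrand k F) {V : Matrix (Fin n) (Fin k) ℝ} (hV : V ∈ Frame n k)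
    {B : Matrix (Fin n) (Fin n) ℝ} (hB : IsFirstVar F V B) : (F (proj V))⁻¹ • B = Av F V := by
  rw [(isFirstVar_iff hF hV B).1 hB, smul_smul]
  unfold Av Phi
  rw [mul_inv, mul_comm]

theorem gaussImage_eq (hF : IsIntegrand k F) :
    GaussImage k F = {A | ∃ V ∈ Frame n k, A = Av F V} := by
  ext A
  constructor
  · rintro ⟨V, hV, B, hB, rfl⟩
    exact ⟨V, hV, firstVar_Av hF hV hB⟩
  · rintro ⟨V, hV, rfl⟩
    have h1 := (isFirstVar_iff hF hV _).2 rfl
    exact ⟨V, hV, _, h1, (firstVar_Av hF hV h1).symm⟩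

theorem Av_mem (hF : IsIntegrand k F) {V : Matrix (Fin n) (Fin k) ℝ} (hV : V ∈ Frame n k) :
    Av F V ∈ GaussImage k F := by
  rw [gaussImage_eq hF]
  exact ⟨V, hV, rfl⟩

theorem V_Av (hF : IsIntegrand k F) {V : Matrix (Fin n) (Fin k) ℝ} (hV : V ∈ Frame n k) :
    Vᵀ * Av F V = Vᵀ := by
  unfold Av
  rw [Matrix.mul_smul, ← Matrix.mul_assoc, euler' hF hV, smul_mul, Matrix.one_mul, smul_smul,
    inv_mul_cancel₀ (Phi_pos hF hV).ne', one_smul]

end V8H6.GK
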