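import Mathlib

namespace V8H6.GK

open Matrix

open scoped MatrixOrder ComplexOrder in
theorem exists_factor {k : ℕ} (A : Matrix (Fin k) (Fin k) ℝ) (hA : A.PosSemidef) :
    ∃ S : Matrix (Fin k) (Fin k) ℝ, A = Sᵀ * S := by
  obtain ⟨S, hS⟩ := CStarAlgebra.nonneg_iff_eq_star_mul_self.mp hA.nonneg
  refine ⟨S, ?_⟩
  rw [hS, star_eq_conjTranspose, conjTranspose_eq_transpose_of_trivial]

end V8H6.GK
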