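import Mathlib
import Pool.Agent.V8H6.GK.Basic
import Pool.Agent.V8H6.GK.Sqrt

namespace V8H6.GK

open Matrix

attribute [local instance] Matrix.normedAddCommGroup Matrix.normedSpace

variable {n k : ℕ} {F : Matrix (Fin n) (Fin n) ℝ → ℝ}

/-- The Stiefel set. -/
def St (n k : ℕ) : Set (Matrix (Fin n) (Fin k) ℝ) := {V | Vᵀ * V = 1}

theorem st_sub : St n k ⊆ Frame n k := by
  intro V hV
  have h : Vᵀ * V = 1 := hV
  show (Vᵀ * V).det ≠ 0
  rw [h, det_one]
  exact one_ne_zero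

theorem st_compact : IsCompact (St n k) := by
  have hcl : IsClosed (St n k) := by
    have h1 : Continuous (fun V : Matrix (Fin n) (Fin k) ℝ => Vᵀ * V) :=
      (continuous_id.matrix_transpose).matrix_mul continuous_id
    exact isClosed_eq h1 continuous_const
  have hbig : IsCompact {V : Matrix (Fin n) (Fin k) ℝ | ∀ i j, V i j ∈ Set.Icc (-1:ℝ) 1} := by
    have h1 : IsCompact (Set.pi Set.univ (fun _ : Fin n =>
        Set.pi Set.univ (fun _ : Fin k => Set.Icc (-1:ℝ) 1))) :=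
      isCompact_univ_pi fun _ => isCompact_univ_pi fun _ => isCompact_Icc
    have e : {V : Matrix (Fin n) (Fin k) ℝ | ∀ i j, V i j ∈ Set.Icc (-1:ℝ) 1} =
        (Set.pi Set.univ (fun _ : Fin n =>
        Set.pi Set.univ (fun _ : Fin k => Set.Icc (-1:ℝ) 1)) : Set (Fin n → Fin k → ℝ)) := by
      ext V
      exact ⟨fun h i _ j _ => h i j, fun h i j => h i (Set.mem_univ i) j (Set.mem_univ j)⟩
    rw [e]
    exact h1
  refine hbig.of_isClosed_subset hcl ?_
  intro V hV i j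
  have h : Vᵀ * V = 1 := hV
  have h1 : (Vᵀ * V) j j = 1 := by rw [h, one_apply_eq]
  rw [Matrix.mul_apply] at h1
  simp only [transpose_apply] at h1
  have h2 : V i j * V i j ≤ ∑ l, V l j * V l j :=
    Finset.single_le_sum (f := fun l => V l j * V l j) (fun l _ => mul_self_nonneg _)
      (Finset.mem_univ i)
  rw [h1] at h2
  constructor
  · nlinarith
  · nlinarith

theorem exists_normalize {V : Matrix (Fin n) (Fin k) ℝ} (hV : V ∈ Frame n k) :
    ∃ g : Matrix (Fin k) (Fin k) ℝ, g.det ≠ 0 ∧ V * g ∈ St n k := by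
  obtain ⟨S, hS'⟩ := exists_factor _ (gram_posSemidef V)
  have hd : S.det ≠ 0 := by
    intro h0
    have h1 : (Vᵀ * V).det ≠ 0 := hV
    rw [hS', det_mul, h0, mul_zero] at h1
    exact h1 rfl
  have hu : IsUnit S.det := isUnit_iff_ne_zero.2 hd
  have hut : IsUnit Sᵀ.det := by rwa [det_transpose]
  refine ⟨S⁻¹, ?_, ?_⟩
  · rw [det_nonsing_inv]
    exact hu.ringInverse.ne_zero
  · show (V * S⁻¹)ᵀ * (V * S⁻¹) = 1
    rw [gram_mul, hS', transpose_nonsing_inv]
    have e : Sᵀ⁻¹ * (Sᵀ * S) * S⁻¹ = (Sᵀ⁻¹ * Sᵀ) * (S * S⁻¹) := by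
      simp only [Matrix.mul_assoc]
    rw [e, nonsing_inv_mul _ hut, mul_nonsing_inv _ hu, Matrix.one_mul]

/-- the quotient is invariant -/
theorem quot_mul (a V : Matrix (Fin n) (Fin k) ℝ) {g : Matrix (Fin k) (Fin k) ℝ}
    (hg : g.det ≠ 0) :
    |(aᵀ * (V * g)).det| / Phi F (V * g) = |(aᵀ * V).det| / Phi F V := by
  rw [← Matrix.mul_assoc, det_mul, abs_mul, Phi_mul V hg, mul_comm |g.det|]
  have : |g.det| ≠ 0 := abs_ne_zero.2 hg
  rw [mul_comm |(aᵀ * V).det|, mul_comm (Phi F V)]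
  exact mul_div_mul_left _ _ this

theorem exists_max (hF : IsIntegrand k F) {a W : Matrix (Fin n) (Fin k) ℝ} (hW : W ∈ Frame n k)
    (haW : (aᵀ * W).det ≠ 0) :
    ∃ Y ∈ Frame n k, ∃ M : ℝ, 0 < M ∧ (∀ U ∈ Frame n k, |(aᵀ * U).det| ≤ M * Phi F U) ∧
      |(aᵀ * Y).det| = M * Phi F Y := by
  have hcont : ContinuousOn (fun U : Matrix (Fin n) (Fin k) ℝ => |(aᵀ * U).det| / Phi F U)
      (St n k) := by
    refine ContinuousOn.div ?_ ((Phi_contDiffOn hF).continuousOn.mono st_sub) ?_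
    · refine Continuous.continuousOn ?_
      have h1 : Continuous (fun U : Matrix (Fin n) (Fin k) ℝ => aᵀ * U) :=
        continuous_const.matrix_mul continuous_id
      exact h1.matrix_det.abs
    · intro U hU
      exact (Phi_pos hF (st_sub hU)).ne'
  obtain ⟨g0, hg0, hg0'⟩ := exists_normalize hW
  obtain ⟨Y, hY, hmax⟩ := st_compact.exists_isMaxOn ⟨_, hg0'⟩ hcont
  have hYF := st_sub hY
  have hbd : ∀ U ∈ Frame n k, |(aᵀ * U).det| / Phi F U ≤ |(aᵀ * Y).det| / Phi F Y := by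
    intro U hU
    obtain ⟨g, hg, hg'⟩ := exists_normalize hU
    have h1 : |(aᵀ * (U * g)).det| / Phi F (U * g) ≤ |(aᵀ * Y).det| / Phi F Y := hmax hg'
    rwa [quot_mul a U hg] at h1
  have hM : 0 < |(aᵀ * Y).det| / Phi F Y :=
    lt_of_lt_of_le (div_pos (abs_pos.2 haW) (Phi_pos hF hW)) (hbd W hW)
  refine ⟨Y, hYF, |(aᵀ * Y).det| / Phi F Y, hM, ?_, ?_⟩
  · intro U hU
    have h1 := hbd U hU
    rwa [div_le_iff₀ (Phi_pos hF hU)] at h1
  · rw [div_mul_cancel₀ _ (Phi_pos hF hYF).ne']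

/-- First-order condition. -/
theorem first_order (hF : IsIntegrand k F) {a : Matrix (Fin n) (Fin k) ℝ} {M : ℝ} (hM : 0 < M)
    (h : ∀ U ∈ Frame n k, |(aᵀ * U).det| ≤ M * Phi F U) {Y : Matrix (Fin n) (Fin k) ℝ}
    (hY : Y ∈ Frame n k) (hY' : |(aᵀ * Y).det| = M * Phi F Y) :
    ∃ c : Matrix (Fin k) (Fin k) ℝ, grad F Y = a * c := by
  set C := aᵀ * Y with hC
  have hCd : C.det ≠ 0 := by
    intro h0
    rw [h0, abs_zero] at hY'
    exact (mul_pos hM (Phi_pos hF hY)).ne hY'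
  have hu : IsUnit C.det := isUnit_iff_ne_zero.2 hCd
  have key : ∀ W : Matrix (Fin n) (Fin k) ℝ,
      M * ((grad F Y)ᵀ * W).trace = |C.det| * (C⁻¹ * aᵀ * W).trace := by
    intro W
    have h1 := (hasDerivAt_line hF hY W).const_mul M
    have h2 := (hasDerivAt_det_one (C⁻¹ * aᵀ * W)).const_mul |C.det|
    have h3 := h1.sub h2
    have hdet : ∀ t : ℝ, (aᵀ * (Y + t • W)).det = C.det * (1 + t • (C⁻¹ * aᵀ * W)).det := by
      intro t
      rw [← det_mul]
      congr 1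
      rw [Matrix.mul_add, Matrix.mul_add, Matrix.mul_one, Matrix.mul_smul, Matrix.mul_smul, ← hC]
      congr 2
      rw [← Matrix.mul_assoc, ← Matrix.mul_assoc, mul_nonsing_inv _ hu, Matrix.one_mul]
    have hev : ∀ᶠ t in nhds (0:ℝ), Y + t • W ∈ Frame n k := by
      have hc : Continuous (fun t : ℝ => Y + t • W) :=
        continuous_const.add (continuous_id.smul continuous_const)
      have h0 : (fun t : ℝ => Y + t • W) 0 ∈ Frame n k := by
        simpa using hY
      exact hc.continuousAt.eventually (isOpen_frame.mem_nhds h0)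
    have h4 : IsLocalMin (fun t : ℝ => M * Phi F (Y + t • W) -
        |C.det| * (1 + t • (C⁻¹ * aᵀ * W)).det) 0 := by
      have h5 := det_one_pos (C⁻¹ * aᵀ * W)
      filter_upwards [hev, h5] with t ht1 ht2
      have h6 := h _ ht1
      rw [hdet, abs_mul, abs_of_pos ht2] at h6
      have e0 : Y + (0:ℝ) • W = Y := by simp
      have e1 : (1 : Matrix (Fin k) (Fin k) ℝ) + (0:ℝ) • (C⁻¹ * aᵀ * W) = 1 := by simp
      show M * Phi F (Y + (0:ℝ) • W) - |C.det| * (1 + (0:ℝ) • (C⁻¹ * aᵀ * W)).det ≤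
        M * Phi F (Y + t • W) - |C.det| * (1 + t • (C⁻¹ * aᵀ * W)).det
      rw [e0, e1, det_one, mul_one]
      linarith
    have h7 := h4.hasDerivAt_eq_zero h3
    linarith
  have hG : (grad F Y)ᵀ = (M⁻¹ * |C.det|) • (C⁻¹ * aᵀ) := by
    ext i j
    have h1 : M * (grad F Y)ᵀ i j = |C.det| * (C⁻¹ * aᵀ) i j := by
      have h0 := key (single j i 1)
      rw [trace_mul_single, trace_mul_single] at h0
      simpa using h0
    rw [Matrix.smul_apply, smul_eq_mul, mul_assoc, ← h1, ← mul_assoc, inv_mul_cancel₀ hM.ne', one_mul]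
  refine ⟨(M⁻¹ * |C.det|) • (C⁻¹)ᵀ, ?_⟩
  have h2 := congrArg transpose hG
  rw [transpose_transpose, transpose_smul, transpose_mul, transpose_transpose] at h2
  rw [h2, Matrix.mul_smul]

/-- Injectivity of the image map. -/
theorem AC_inj (hF : IsIntegrand k F) (h : AC k F) {V U : Matrix (Fin n) (Fin k) ℝ}
    (hV : V ∈ Frame n k) (hU : U ∈ Frame n k) {c : Matrix (Fin k) (Fin k) ℝ}
    (hg : grad F V = grad F U * c) :
    ∃ g : Matrix (Fin k) (Fin k) ℝ, g.det ≠ 0 ∧ V = U * g := by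
  have hAV : Av F V = grad F U * ((Phi F V)⁻¹ • (c * Vᵀ)) := by
    rw [Av, hg, Matrix.mul_smul, Matrix.mul_assoc]
  have hAU : Av F U = grad F U * ((Phi F U)⁻¹ • Uᵀ) := by
    rw [Av, Matrix.mul_smul]
  set y := (1/2 : ℝ) • Av F V + (1/2 : ℝ) • Av F U with hy
  have hyr : y.rank ≤ k := by
    have e : y = grad F U * ((1/2 : ℝ) • ((Phi F V)⁻¹ • (c * Vᵀ)) +
        (1/2 : ℝ) • ((Phi F U)⁻¹ • Uᵀ)) := by
      rw [hy, hAV, hAU]
      simp only [Matrix.mul_add, Matrix.mul_smul]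
    rw [e]
    exact (rank_mul_le_left _ _).trans (rank_le_width _)
  have hAvm := subset_convexHull ℝ _ (Av_mem hF hV)
  have hAwm := subset_convexHull ℝ _ (Av_mem hF hU)
  have hyh : y ∈ convexHull ℝ (GaussImage k F) :=
    convex_convexHull ℝ _ hAvm hAwm (by norm_num) (by norm_num) (by norm_num)
  have hyG : y ∈ GaussImage k F := by
    rw [← h.1]
    exact ⟨hyh, hyr⟩
  rw [h.2] at hyG
  have hseg : y ∈ openSegment ℝ (Av F V) (Av F U) :=
    ⟨1/2, 1/2, by norm_num, by norm_num, by norm_num, rfl⟩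
  have hext := (mem_extremePoints.1 hyG).2 _ hAvm _ hAwm hseg
  have heq : Av F V = Av F U := hext.1.trans hext.2.symm
  have h1 : Vᵀ = ((Phi F U)⁻¹ • (Vᵀ * grad F U)) * Uᵀ := by
    have h2 := V_Av hF hV
    rw [heq, Av, Matrix.mul_smul, ← Matrix.mul_assoc] at h2
    rw [smul_mul]
    exact h2.symm
  have h3 : V = U * ((Phi F U)⁻¹ • (Vᵀ * grad F U))ᵀ := by
    have := congrArg transpose h1
    rwa [transpose_transpose, transpose_mul, transpose_transpose] at this
  refine ⟨_, ?_, h3⟩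
  intro h0
  have h4 : (Vᵀ * V).det ≠ 0 := hV
  rw [h3, gram_det_mul, h0] at h4
  simp at h4

/-- the main inequality on frames -/
theorem main_frame (hF : IsIntegrand k F) (h : AC k F) {V U : Matrix (Fin n) (Fin k) ℝ}
    (hV : V ∈ Frame n k) (hU : U ∈ Frame n k) (hne : proj V ≠ proj U) :
    |((grad F V)ᵀ * U).det| * Phi F V < Phi F V ^ k * Phi F U := by
  have hPV := Phi_pos hF hV
  have hself : ((grad F V)ᵀ * V).det = Phi F V ^ k := by
    rw [euler hF hV, det_smul, det_one, Fintype.card_fin, mul_one]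
  obtain ⟨Y, hY, M, hM, hmax, hval⟩ := exists_max hF (a := grad F V) hV
    (by rw [hself]; exact (pow_pos hPV k).ne')
  obtain ⟨c, hc⟩ := first_order hF hM hmax hY hval
  obtain ⟨g, hg, rfl⟩ := AC_inj hF h hY hV hc
  have hMv : M * Phi F V = Phi F V ^ k := by
    have h1 : |((grad F V)ᵀ * (V * g)).det| / Phi F (V * g) = M := by
      rw [hval, mul_div_assoc, div_self (Phi_pos hF hY).ne', mul_one]
    rw [quot_mul (grad F V) V hg, hself, abs_of_pos (pow_pos hPV k)] at h1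
    rw [← h1, div_mul_cancel₀ _ hPV.ne']
  have hle := hmax U hU
  have hlt : |((grad F V)ᵀ * U).det| < M * Phi F U := by
    refine lt_of_le_of_ne hle fun heq => hne ?_
    obtain ⟨c', hc'⟩ := first_order hF hM hmax hU heq
    obtain ⟨g', hg', hUV⟩ := AC_inj hF h hU hV hc'
    rw [hUV, proj_mul V hg']
  calc |((grad F V)ᵀ * U).det| * Phi F V < M * Phi F U * Phi F V :=
        mul_lt_mul_of_pos_right hlt hPV
    _ = (M * Phi F V) * Phi F U := by ring
    _ = Phi F V ^ k * Phi F U := by rw [hMv]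

/-- **Main theorem.** -/
theorem main (hF : IsIntegrand k F) (h : AC k F) {V U : Matrix (Fin n) (Fin k) ℝ}
    (hV : V ∈ Frame n k) (hU : U ∈ Frame n k) {B : Matrix (Fin n) (Fin n) ℝ}
    (hB : IsFirstVar F V B) :
    (((F (proj V))⁻¹ • B)ᵀ * V = V ∧ proj V * ((F (proj V))⁻¹ • B)ᵀ = ((F (proj V))⁻¹ • B)ᵀ) ∧
    (proj V ≠ proj U →
      F (proj V) * vol (((F (proj V))⁻¹ • B)ᵀ * U) < F (proj U) * vol U) := by
  have hPV := Phi_pos hF hV
  rw [firstVar_Av hF hV hB]
  have hAt : (Av F V)ᵀ = V * ((Phi F V)⁻¹ • (grad F V)ᵀ) := by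
    rw [Av, transpose_smul, transpose_mul, transpose_transpose, Matrix.mul_smul]
  refine ⟨⟨?_, ?_⟩, ?_⟩
  · have := congrArg transpose (V_Av hF hV)
    rwa [transpose_mul, transpose_transpose] at this
  · have hp : proj V * V = V := by
      unfold proj
      have hu : IsUnit (Vᵀ * V).det := isUnit_iff_ne_zero.2 hV
      rw [Matrix.mul_assoc, Matrix.mul_assoc, nonsing_inv_mul _ hu, Matrix.mul_one]
    rw [hAt, ← Matrix.mul_assoc, hp]
  · intro hne
    have h1 := main_frame hF h hV hU hne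
    have e : (Av F V)ᵀ * U = V * ((Phi F V)⁻¹ • ((grad F V)ᵀ * U)) := by
      rw [hAt, Matrix.mul_assoc, smul_mul]
    rw [e, vol_mul, det_smul, Fintype.card_fin, abs_mul, abs_of_pos (pow_pos (inv_pos.2 hPV) k)]
    have e2 : F (proj V) * ((Phi F V)⁻¹ ^ k * |((grad F V)ᵀ * U).det| * vol V) =
        (Phi F V)⁻¹ ^ k * (|((grad F V)ᵀ * U).det| * Phi F V) := by
      unfold Phi
      ring
    have e3 : F (proj U) * vol U = (Phi F V)⁻¹ ^ k * (Phi F V ^ k * Phi F U) := by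
      rw [← mul_assoc, ← mul_pow, inv_mul_cancel₀ hPV.ne', one_pow, one_mul]
      unfold Phi
      ring
    rw [e2, e3]
    exact mul_lt_mul_of_pos_left h1 (pow_pos (inv_pos.2 hPV) k)

end V8H6.GK
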