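import Mathlib
import Pool.Agent.V8H6.GK.Main

namespace V8H6.GK

open Matrix

attribute [local instance] Matrix.normedAddCommGroup Matrix.normedSpace

variable {n k : ℕ} {F : Matrix (Fin n) (Fin n) ℝ → ℝ}

/-- The exposed condition. -/
def EC (k : ℕ) (F : Matrix (Fin n) (Fin n) ℝ → ℝ) : Prop :=
  convexHull ℝ (GaussImage k F) ∩ {A | A.rank ≤ k} = GaussImage k F ∧
    GaussImage k F = (convexHull ℝ (GaussImage k F)).exposedPoints ℝ

/-- The trace condition. -/
def TC (k : ℕ) (F : Matrix (Fin n) (Fin n) ℝ → ℝ) : Prop :=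
  ∀ V ∈ Frame n k, ∀ U ∈ Frame n k, proj V ≠ proj U → (Av F V * Av F U).trace < k

theorem AC_of_EC (h : EC k F) : AC k F := by
  refine ⟨h.1, ?_⟩
  apply Set.Subset.antisymm
  · conv_lhs => rw [h.2]
    exact exposedPoints_subset_extremePoints
  · exact extremePoints_convexHull_subset

/-- one step extension -/
theorem ext_step (R : Submodule ℝ (Fin n → ℝ)) (h : Module.finrank ℝ R < n) :
    ∃ W : Submodule ℝ (Fin n → ℝ), R ≤ W ∧ Module.finrank ℝ W = Module.finrank ℝ R + 1 := by
  have hne : R ≠ ⊤ := by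
    rintro rfl
    rw [finrank_top, Module.finrank_fin_fun] at h
    exact lt_irrefl _ h
  obtain ⟨x, -, hx⟩ := SetLike.exists_of_lt (lt_top_iff_ne_top.2 hne)
  have hx0 : x ≠ 0 := by
    rintro rfl
    exact hx R.zero_mem
  refine ⟨R ⊔ Submodule.span ℝ {x}, le_sup_left, ?_⟩
  have hinf : R ⊓ Submodule.span ℝ {x} = ⊥ := by
    rw [eq_bot_iff]
    rintro y ⟨hy1, hy2⟩
    obtain ⟨c, rfl⟩ := Submodule.mem_span_singleton.1 hy2
    by_cases hc : c = 0
    · rw [hc, zero_smul]
      exact Submodule.zero_mem _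
    · exfalso
      apply hx
      have := R.smul_mem c⁻¹ hy1
      rwa [smul_smul, inv_mul_cancel₀ hc, one_smul] at this
  have h1 := Submodule.finrank_sup_add_finrank_inf_eq R (Submodule.span ℝ {x})
  rw [hinf, finrank_bot, finrank_span_singleton hx0, add_zero] at h1
  exact h1

theorem ext_to (d : ℕ) : ∀ (R : Submodule ℝ (Fin n → ℝ)), Module.finrank ℝ R + d ≤ n →
    ∃ W : Submodule ℝ (Fin n → ℝ), R ≤ W ∧ Module.finrank ℝ W = Module.finrank ℝ R + d := by
  induction d with
  | zero => exact fun R _ => ⟨R, le_rfl, rfl⟩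
  | succ d ih =>
    intro R hR
    obtain ⟨W1, h1, h2⟩ := ext_step R (by omega)
    obtain ⟨W, h3, h4⟩ := ih W1 (by omega)
    exact ⟨W, h1.trans h3, by omega⟩

theorem frame_le {V : Matrix (Fin n) (Fin k) ℝ} (hV : V ∈ Frame n k) : k ≤ n := by
  have hu : IsUnit (Vᵀ * V) := (isUnit_iff_isUnit_det _).2 (isUnit_iff_ne_zero.2 hV)
  have h1 := rank_of_isUnit (Vᵀ * V) hu
  rw [Fintype.card_fin] at h1
  have h2 := rank_mul_le_right Vᵀ V
  have h3 := rank_le_height V
  omega

theorem frame_of_li {V : Matrix (Fin n) (Fin k) ℝ} (h : LinearIndependent ℝ V.col) :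
    V ∈ Frame n k := by
  have hinj : Function.Injective V.mulVec := by
    rwa [mulVec_injective_iff]
  have h1 := PosDef.conjTranspose_mul_self V hinj
  rw [conjTranspose_eq_transpose_of_trivial] at h1
  exact h1.det_pos.ne'

theorem exists_row_frame (hkn : k ≤ n) {y : Matrix (Fin n) (Fin n) ℝ} (hy : y.rank ≤ k) :
    ∃ V ∈ Frame n k, ∃ Z : Matrix (Fin n) (Fin k) ℝ, y = Z * Vᵀ := by
  rw [← rank_transpose, Matrix.rank_eq_finrank_span_cols] at hy
  set R := Submodule.span ℝ (Set.range yᵀ.col) with hR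
  obtain ⟨W, hW1, hW2⟩ := ext_to (k - Module.finrank ℝ R) R (by omega)
  have hWk : Module.finrank ℝ W = k := by omega
  let b : Module.Basis (Fin k) ℝ W := Module.finBasisOfFinrankEq ℝ W hWk
  let V : Matrix (Fin n) (Fin k) ℝ := Matrix.of fun i j => (b j : Fin n → ℝ) i
  have hcol : V.col = fun j => (b j : Fin n → ℝ) := by
    funext j i
    rfl
  have hli : LinearIndependent ℝ V.col := by
    rw [hcol]
    exact b.linearIndependent.map' W.subtype (Submodule.ker_subtype W)
  have hmem : ∀ i, yᵀ.col i ∈ W := fun i => hW1 (Submodule.subset_span ⟨i, rfl⟩)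
  refine ⟨V, frame_of_li hli, Matrix.of fun i j => b.repr ⟨yᵀ.col i, hmem i⟩ j, ?_⟩
  ext i l
  rw [Matrix.mul_apply]
  have h1 := congrArg (fun w : W => (w : Fin n → ℝ) l) (b.sum_repr ⟨yᵀ.col i, hmem i⟩)
  simp only [Submodule.coe_sum, Submodule.coe_smul, Finset.sum_apply, Pi.smul_apply,
    smul_eq_mul] at h1
  have h2 : yᵀ.col i l = y i l := rfl
  rw [h2] at h1
  rw [← h1]
  rfl

/-- The linear functional `A ↦ trace (A_V A)`. -/
noncomputable def ell (F : Matrix (Fin n) (Fin n) ℝ → ℝ) (V : Matrix (Fin n) (Fin k) ℝ) :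
    Matrix (Fin n) (Fin n) ℝ →ₗ[ℝ] ℝ where
  toFun A := (Av F V * A).trace
  map_add' A B := by rw [mul_add, trace_add]
  map_smul' c A := by rw [Matrix.mul_smul, trace_smul]; rfl

theorem ell_apply (V : Matrix (Fin n) (Fin k) ℝ) (A : Matrix (Fin n) (Fin n) ℝ) :
    ell F V A = (Av F V * A).trace := rfl

theorem trace_Av (hF : IsIntegrand k F) {V : Matrix (Fin n) (Fin k) ℝ} (hV : V ∈ Frame n k) :
    (Av F V).trace = k := by
  rw [Av, trace_smul, trace_mul_comm, euler' hF hV, trace_smul, trace_one, Fintype.card_fin,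
    smul_smul, inv_mul_cancel₀ (Phi_pos hF hV).ne', one_smul]

theorem Av_idem (hF : IsIntegrand k F) {V : Matrix (Fin n) (Fin k) ℝ} (hV : V ∈ Frame n k) :
    Av F V * Av F V = Av F V := by
  have h : Av F V * Av F V = (Phi F V)⁻¹ • (grad F V * (Vᵀ * Av F V)) := by
    rw [← Matrix.mul_assoc, ← smul_mul]
    rfl
  rw [h, V_Av hF hV]
  rfl

theorem ell_self (hF : IsIntegrand k F) {V : Matrix (Fin n) (Fin k) ℝ} (hV : V ∈ Frame n k) :
    ell F V (Av F V) = k := by
  rw [ell_apply, Av_idem hF hV, trace_Av hF hV]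

/-- frames of the same plane -/
theorem exists_of_proj_eq {V U : Matrix (Fin n) (Fin k) ℝ} (hV : V ∈ Frame n k)
    (hU : U ∈ Frame n k) (h : proj V = proj U) :
    ∃ g : Matrix (Fin k) (Fin k) ℝ, g.det ≠ 0 ∧ U = V * g := by
  have hp : proj U * U = U := by
    unfold proj
    have hu : IsUnit (Uᵀ * U).det := isUnit_iff_ne_zero.2 hU
    rw [Matrix.mul_assoc, Matrix.mul_assoc, nonsing_inv_mul _ hu, Matrix.mul_one]
  have h1 : U = V * ((Vᵀ * V)⁻¹ * Vᵀ * U) := by
    conv_lhs => rw [← hp, ← h]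
    unfold proj
    simp only [Matrix.mul_assoc]
  refine ⟨_, ?_, h1⟩
  intro h0
  have h4 : (Uᵀ * U).det ≠ 0 := hU
  rw [h1, gram_det_mul, h0] at h4
  simp at h4

theorem Av_eq_of_proj (hF : IsIntegrand k F) {V U : Matrix (Fin n) (Fin k) ℝ}
    (hV : V ∈ Frame n k) (hU : U ∈ Frame n k) (h : proj V = proj U) : Av F U = Av F V := by
  obtain ⟨g, hg, rfl⟩ := exists_of_proj_eq hV hU h
  have hB := (isFirstVar_iff hF hV _).2 rfl
  rw [← firstVar_Av hF hV hB]
  symm
  have hB' : IsFirstVar F (V * g) ((vol V)⁻¹ • (grad F V * Vᵀ)) := by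
    intro L
    have h1 := hB L
    have hc : |g.det| ≠ 0 := abs_ne_zero.2 hg
    have hev : (fun t : ℝ => F (proj ((1 + t • L) * (V * g))) *
        (vol ((1 + t • L) * (V * g)) / vol (V * g))) =
        fun t : ℝ => F (proj ((1 + t • L) * V)) * (vol ((1 + t • L) * V) / vol V) := by
      funext t
      rw [← Matrix.mul_assoc, proj_mul _ hg, vol_mul, vol_mul, mul_div_mul_left _ _ hc]
    rw [hev]
    exact h1
  have h2 := firstVar_Av hF hU hB'
  rwa [proj_mul _ hg] at h2

theorem mem_K (hF : IsIntegrand k F) (h : TC k F) {V : Matrix (Fin n) (Fin k) ℝ}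
    (hV : V ∈ Frame n k) {y : Matrix (Fin n) (Fin n) ℝ}
    (hy : y ∈ convexHull ℝ (GaussImage k F)) :
    ell F V y < k ∨ y = Av F V := by
  have hsub : GaussImage k F ⊆ {y | ell F V y < k ∨ y = Av F V} := by
    rw [gaussImage_eq hF]
    rintro A ⟨U, hU, rfl⟩
    by_cases he : proj V = proj U
    · exact Or.inr (Av_eq_of_proj hF hV hU he)
    · exact Or.inl (h V hV U hU he)
  have hself := ell_self hF hV
  have hconv : Convex ℝ {y | ell F V y < k ∨ y = Av F V} := by
    rw [convex_iff_forall_pos]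
    intro y1 h1 y2 h2 a b ha hb hab
    have h1' : ell F V y1 < k ∨ y1 = Av F V := h1
    have h2' : ell F V y2 < k ∨ y2 = Av F V := h2
    show ell F V (a • y1 + b • y2) < k ∨ a • y1 + b • y2 = Av F V
    have hk : (k : ℝ) = a * k + b * k := by rw [← add_mul, hab, one_mul]
    rcases h1' with h1' | h1'
    · left
      have h3 : ell F V y2 ≤ k := by
        rcases h2' with h2' | h2'
        · exact h2'.le
        · rw [h2', hself]
      rw [map_add, map_smul, map_smul, smul_eq_mul, smul_eq_mul]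
      have h4 := mul_lt_mul_of_pos_left h1' ha
      have h5 := mul_le_mul_of_nonneg_left h3 hb.le
      linarith
    · rcases h2' with h2' | h2'
      · left
        have h3 : ell F V y1 = k := by rw [h1', hself]
        rw [map_add, map_smul, map_smul, smul_eq_mul, smul_eq_mul, h3]
        have h4 := mul_lt_mul_of_pos_left h2' hb
        linarith
      · right
        rw [h1', h2', ← add_smul, hab, one_smul]
  exact convexHull_min hsub hconv hy

theorem trace_hull (hF : IsIntegrand k F) {y : Matrix (Fin n) (Fin n) ℝ}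
    (hy : y ∈ convexHull ℝ (GaussImage k F)) : y.trace = k := by
  have hsub : GaussImage k F ⊆ {y | y.trace = k} := by
    rw [gaussImage_eq hF]
    rintro A ⟨W, hW, rfl⟩
    exact trace_Av hF hW
  have hconv : Convex ℝ {y : Matrix (Fin n) (Fin n) ℝ | y.trace = k} := by
    intro y1 h1 y2 h2 a b ha hb hab
    have h1' : y1.trace = k := h1
    have h2' : y2.trace = k := h2
    show (a • y1 + b • y2).trace = k
    rw [trace_add, trace_smul, trace_smul, h1', h2', smul_eq_mul, smul_eq_mul, ← add_mul, hab,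
      one_mul]
  exact convexHull_min hsub hconv hy

theorem rank_k_in_hull (hF : IsIntegrand k F) (h : TC k F) {y : Matrix (Fin n) (Fin n) ℝ}
    (hy : y ∈ convexHull ℝ (GaussImage k F)) (hr : y.rank ≤ k) : y ∈ GaussImage k F := by
  have hne : (GaussImage k F).Nonempty := by
    rw [← convexHull_nonempty_iff (𝕜 := ℝ)]
    exact ⟨y, hy⟩
  obtain ⟨A0, V0, hV0, -⟩ := hne
  obtain ⟨V, hV, Z, hZ⟩ := exists_row_frame (frame_le hV0) hr
  have h1 : ell F V y = k := by
    rw [ell_apply, trace_mul_comm, hZ, Matrix.mul_assoc, V_Av hF hV, ← hZ]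
    exact trace_hull hF hy
  rcases mem_K hF h hV hy with h2 | h2
  · rw [h1] at h2
    exact absurd h2 (lt_irrefl _)
  · rw [h2]
    exact Av_mem hF hV

theorem rank_Av (V : Matrix (Fin n) (Fin k) ℝ) : (Av F V).rank ≤ k := by
  unfold Av
  rw [← smul_mul]
  exact (rank_mul_le_left _ _).trans (rank_le_width _)

theorem EC_of_TC (hF : IsIntegrand k F) (h : TC k F) : EC k F := by
  constructor
  · apply Set.Subset.antisymm
    · rintro y ⟨hy, hr⟩
      exact rank_k_in_hull hF h hy hr
    · intro y hy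
      refine ⟨subset_convexHull ℝ _ hy, ?_⟩
      rw [gaussImage_eq hF] at hy
      obtain ⟨V, hV, rfl⟩ := hy
      exact rank_Av V
  apply Set.Subset.antisymm
  · intro A hA
    have hA' := hA
    rw [gaussImage_eq hF] at hA'
    obtain ⟨V, hV, rfl⟩ := hA'
    refine ⟨subset_convexHull ℝ _ hA, LinearMap.toContinuousLinearMap (ell F V), ?_⟩
    intro y hy
    simp only [LinearMap.coe_toContinuousLinearMap']
    rw [ell_self hF hV]
    rcases mem_K hF h hV hy with h1 | h1
    · exact ⟨h1.le, fun h2 => absurd h1 (not_lt.2 h2)⟩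
    · refine ⟨?_, fun _ => h1⟩
      rw [h1, ell_self hF hV]
  · exact exposedPoints_subset_extremePoints.trans extremePoints_convexHull_subset

end V8H6.GK
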