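import Mathlib
import Pool.Agent.V8H6.GK.Trace

namespace V8H6.GK

open Matrix

attribute [local instance] Matrix.normedAddCommGroup Matrix.normedSpace

/-- Plücker coordinate. -/
def pl (V : Matrix (Fin 4) (Fin 2) ℝ) (i j : Fin 4) : ℝ := V i 0 * V j 1 - V j 0 * V i 1

/-- The anti-self-dual part of the Plücker vector of a frame in `ℝ⁴`. -/
def om (V : Matrix (Fin 4) (Fin 2) ℝ) : Fin 3 → ℝ :=
  ![pl V 0 1 - pl V 2 3, pl V 0 2 + pl V 1 3, pl V 0 3 - pl V 1 2]

/-- The self-dual part of the Plücker vector of a frame in `ℝ⁴`. -/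
def omt (V : Matrix (Fin 4) (Fin 2) ℝ) : Fin 3 → ℝ :=
  ![pl V 0 1 + pl V 2 3, pl V 0 2 - pl V 1 3, pl V 0 3 + pl V 1 2]

/-- scalar product in `ℝ³` -/
def dt (y z : Fin 3 → ℝ) : ℝ := y 0 * z 0 + y 1 * z 1 + y 2 * z 2

/-- cross term -/
def dx (c y c' z : Fin 3 → ℝ) : ℝ := dt c c' * dt y z - dt c z * dt y c'

/-- the matrix `K p`. -/
def KK (p : Fin 3 → ℝ) : Matrix (Fin 4) (Fin 4) ℝ :=
  !![0, p 0, p 1, p 2; -p 0, 0, -p 2, p 1; -p 1, p 2, 0, -p 0; -p 2, -p 1, p 0, 0]

/-- the gradient of `⟨c, om⟩`. -/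
def GG (c : Fin 3 → ℝ) (V : Matrix (Fin 4) (Fin 2) ℝ) : Matrix (Fin 4) (Fin 2) ℝ :=
  Matrix.of fun i j => if j = 0 then (KK c *ᵥ V.col 1) i else -(KK c *ᵥ V.col 0) i

theorem om_norm (V : Matrix (Fin 4) (Fin 2) ℝ) : dt (om V) (om V) = (Vᵀ * V).det := by
  simp only [dt, om, pl, det_fin_two, Matrix.mul_apply, transpose_apply, Fin.sum_univ_four,
    cons_val_zero, cons_val_one, cons_val]
  ring

theorem omt_norm (V : Matrix (Fin 4) (Fin 2) ℝ) : dt (omt V) (omt V) = (Vᵀ * V).det := by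
  simp only [dt, omt, pl, det_fin_two, Matrix.mul_apply, transpose_apply, Fin.sum_univ_four,
    cons_val_zero, cons_val_one, cons_val]
  ring

theorem om_mul (V : Matrix (Fin 4) (Fin 2) ℝ) (g : Matrix (Fin 2) (Fin 2) ℝ) :
    om (V * g) = g.det • om V := by
  ext i
  fin_cases i <;>
  · simp [om, pl, det_fin_two, Matrix.mul_apply, Fin.sum_univ_two]
    ring

theorem omt_mul (V : Matrix (Fin 4) (Fin 2) ℝ) (g : Matrix (Fin 2) (Fin 2) ℝ) :
    omt (V * g) = g.det • omt V := by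
  ext i
  fin_cases i <;>
  · simp [omt, pl, det_fin_two, Matrix.mul_apply, Fin.sum_univ_two]
    ring

theorem om_K (p : Fin 3 → ℝ) (V : Matrix (Fin 4) (Fin 2) ℝ) :
    om (KK p * V) = (2 * dt p (om V)) • p - (dt p p) • om V := by
  ext i
  fin_cases i <;>
  · simp [om, pl, dt, KK, Matrix.mul_apply, Fin.sum_univ_four]
    ring

theorem omt_K (p : Fin 3 → ℝ) (V : Matrix (Fin 4) (Fin 2) ℝ) :
    omt (KK p * V) = (dt p p) • omt V := by
  ext i
  fin_cases i <;>
  · simp [omt, pl, dt, KK, Matrix.mul_apply, Fin.sum_univ_four]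
    ring

theorem det_GG (c : Fin 3 → ℝ) (V U : Matrix (Fin 4) (Fin 2) ℝ) :
    ((GG c V)ᵀ * U).det = dt c (om V) * dt c (om U) +
      (1/2) * dt c c * (dt (omt V) (omt U) - dt (om V) (om U)) := by
  simp [GG, om, omt, pl, dt, KK, det_fin_two, Matrix.mul_apply, Matrix.mulVec, dotProduct,
    Fin.sum_univ_four]
  ring

theorem tr_GG (c c' : Fin 3 → ℝ) (V U : Matrix (Fin 4) (Fin 2) ℝ) :
    (GG c V * Vᵀ * (GG c' U * Uᵀ)).trace = dt c (om V) * dt c' (om U) -
      (dt c c' * dt (om V) (om U) - dt c (om U) * dt (om V) c') +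
      dt c c' * dt (omt V) (omt U) := by
  have h : (GG c V * Vᵀ * (GG c' U * Uᵀ)).trace = ((Vᵀ * GG c' U) * (Uᵀ * GG c V)).trace := by
    rw [Matrix.mul_assoc, trace_mul_comm]
    simp only [Matrix.mul_assoc]
  rw [h]
  simp [GG, om, omt, pl, dt, KK, Matrix.trace, Matrix.mul_apply, Matrix.mulVec, dotProduct,
    Fin.sum_univ_four, Fin.sum_univ_two]
  ring

/-- equal Plücker coordinates give equal projections -/
theorem proj_eq_of_om {V U : Matrix (Fin 4) (Fin 2) ℝ}
    (h : om V = om U) (ht : omt V = omt U) : proj V = proj U := by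
  have hd : (Vᵀ * V).det = (Uᵀ * U).det := by rw [← om_norm, ← om_norm, h]
  have hpr : ∀ W : Matrix (Fin 4) (Fin 2) ℝ, proj W = (Wᵀ * W).det⁻¹ •
      Matrix.of (fun i j => ∑ k, pl W i k * pl W j k) := by
    intro W
    unfold proj
    rw [Matrix.inv_def, Ring.inverse_eq_inv', Matrix.mul_smul, smul_mul]
    congr 1
    ext i j
    simp only [Matrix.mul_apply, adjugate_fin_two, transpose_apply, Fin.sum_univ_four,
      Fin.sum_univ_two, of_apply, pl, cons_val', cons_val_zero, cons_val_one]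
    ring
  have e0 := congrFun h 0
  have e1 := congrFun h 1
  have e2 := congrFun h 2
  have f0 := congrFun ht 0
  have f1 := congrFun ht 1
  have f2 := congrFun ht 2
  simp only [om, omt, cons_val_zero, cons_val_one, cons_val] at e0 e1 e2 f0 f1 f2
  have g01 : pl V 0 1 = pl U 0 1 := by linarith
  have g23 : pl V 2 3 = pl U 2 3 := by linarith
  have g02 : pl V 0 2 = pl U 0 2 := by linarith
  have g13 : pl V 1 3 = pl U 1 3 := by linarith
  have g03 : pl V 0 3 = pl U 0 3 := by linarith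
  have g12 : pl V 1 2 = pl U 1 2 := by linarith
  have hanti : ∀ (W : Matrix (Fin 4) (Fin 2) ℝ) i j, pl W j i = - pl W i j := by
    intro W i j
    unfold pl
    ring
  have hself : ∀ (W : Matrix (Fin 4) (Fin 2) ℝ) i, pl W i i = 0 := by
    intro W i
    unfold pl
    ring
  have hall : ∀ i j, pl V i j = pl U i j := by
    intro i j
    fin_cases i <;> fin_cases j
    · exact (hself V 0).trans (hself U 0).symm
    · exact g01
    · exact g02
    · exact g03
    · show pl V 1 0 = pl U 1 0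
      rw [hanti V 0 1, hanti U 0 1, g01]
    · exact (hself V 1).trans (hself U 1).symm
    · exact g12
    · exact g13
    · show pl V 2 0 = pl U 2 0
      rw [hanti V 0 2, hanti U 0 2, g02]
    · show pl V 2 1 = pl U 2 1
      rw [hanti V 1 2, hanti U 1 2, g12]
    · exact (hself V 2).trans (hself U 2).symm
    · exact g23
    · show pl V 3 0 = pl U 3 0
      rw [hanti V 0 3, hanti U 0 3, g03]
    · show pl V 3 1 = pl U 3 1
      rw [hanti V 1 3, hanti U 1 3, g13]
    · show pl V 3 2 = pl U 3 2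
      rw [hanti V 2 3, hanti U 2 3, g23]
    · exact (hself V 3).trans (hself U 3).symm
  rw [hpr, hpr, hd]
  simp only [hall]

end V8H6.GK
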