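import Mathlib
import Pool.Agent.V8H6.GK.Alg

namespace V8H6.GK

open Matrix

attribute [local instance] Matrix.normedAddCommGroup Matrix.normedSpace

variable {F : Matrix (Fin 4) (Fin 4) ℝ → ℝ}

/-- A frame with a given anti-self-dual part. -/
def sec (y : Fin 3 → ℝ) : Matrix (Fin 4) (Fin 2) ℝ := !![1, 0; 0, y 0; 0, y 1; 0, y 2]

theorem om_sec (y : Fin 3 → ℝ) : om (sec y) = y := by
  ext i
  fin_cases i <;> simp [om, pl, sec]

theorem dt_self_pos {y : Fin 3 → ℝ} (hy : y ≠ 0) : 0 < dt y y := by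
  have h0 : 0 ≤ dt y y := by
    unfold dt
    nlinarith [mul_self_nonneg (y 0), mul_self_nonneg (y 1), mul_self_nonneg (y 2)]
  refine lt_of_le_of_ne h0 fun h => hy ?_
  unfold dt at h
  have h00 : y 0 = 0 := by
    nlinarith [mul_self_nonneg (y 0), mul_self_nonneg (y 1), mul_self_nonneg (y 2)]
  have h01 : y 1 = 0 := by
    nlinarith [mul_self_nonneg (y 0), mul_self_nonneg (y 1), mul_self_nonneg (y 2)]
  have h02 : y 2 = 0 := by
    nlinarith [mul_self_nonneg (y 0), mul_self_nonneg (y 1), mul_self_nonneg (y 2)]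
  ext i
  fin_cases i
  · exact h00
  · exact h01
  · exact h02

theorem sec_frame {y : Fin 3 → ℝ} (hy : y ≠ 0) : sec y ∈ Frame 4 2 := by
  show ((sec y)ᵀ * sec y).det ≠ 0
  rw [← om_norm, om_sec]
  exact (dt_self_pos hy).ne'

/-- The one-homogeneous function on `ℝ³` of an integrand. -/
noncomputable def Psi (F : Matrix (Fin 4) (Fin 4) ℝ → ℝ) (y : Fin 3 → ℝ) : ℝ := Phi F (sec y)

/-- `F (T)` only depends on the anti-self-dual part of `T`. -/
def Dep (F : Matrix (Fin 4) (Fin 4) ℝ → ℝ) : Prop :=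
  ∀ V ∈ Frame 4 2, ∀ U ∈ Frame 4 2, om V = om U → F (proj V) = F (proj U)

theorem om_ne {V : Matrix (Fin 4) (Fin 2) ℝ} (hV : V ∈ Frame 4 2) : om V ≠ 0 := by
  intro h
  have h1 : (Vᵀ * V).det ≠ 0 := hV
  rw [← om_norm, h] at h1
  exact h1 (by simp [dt])

theorem frame_of_om {V : Matrix (Fin 4) (Fin 2) ℝ} (h : om V ≠ 0) : V ∈ Frame 4 2 := by
  show (Vᵀ * V).det ≠ 0
  rw [← om_norm]
  exact (dt_self_pos h).ne'

theorem Phi_eq_Psi (hd : Dep F) {V : Matrix (Fin 4) (Fin 2) ℝ} (hV : V ∈ Frame 4 2) :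
    Phi F V = Psi F (om V) := by
  have h1 := hd V hV (sec (om V)) (sec_frame (om_ne hV)) (om_sec _).symm
  have h2 : vol V = vol (sec (om V)) := by
    unfold vol
    rw [← om_norm, ← om_norm, om_sec]
  unfold Psi Phi
  rw [h1, h2]

theorem Psi_smul {t : ℝ} (ht : t ≠ 0) (y : Fin 3 → ℝ) : Psi F (t • y) = |t| * Psi F y := by
  have h1 : sec (t • y) = sec y * !![1, 0; 0, t] := by
    ext i j
    fin_cases i <;> fin_cases j <;>
      simp [sec, Matrix.mul_apply, Fin.sum_univ_two, mul_comm]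
  have h2 : (!![1, 0; 0, t] : Matrix (Fin 2) (Fin 2) ℝ).det = t := by
    simp [det_fin_two]
  unfold Psi
  rw [h1, Phi_mul _ (by rw [h2]; exact ht), h2]

theorem Psi_pos (hF : IsIntegrand 2 F) {y : Fin 3 → ℝ} (hy : y ≠ 0) : 0 < Psi F y :=
  Phi_pos hF (sec_frame hy)

theorem Psi_diff (hF : IsIntegrand 2 F) {y : Fin 3 → ℝ} (hy : y ≠ 0) :
    DifferentiableAt ℝ (Psi F) y := by
  have h1 := Phi_diffAt hF (sec_frame hy)
  have h2 : DifferentiableAt ℝ sec y := by
    refine differentiableAt_pi.2 fun i => differentiableAt_pi.2 fun j => ?_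
    fin_cases i <;> fin_cases j
    · exact differentiableAt_const (1:ℝ)
    · exact differentiableAt_const (0:ℝ)
    · exact differentiableAt_const (0:ℝ)
    · exact differentiableAt_apply 0 y
    · exact differentiableAt_const (0:ℝ)
    · exact differentiableAt_apply 1 y
    · exact differentiableAt_const (0:ℝ)
    · exact differentiableAt_apply 2 y
  exact h1.comp y h2

/-- the gradient of `Psi` -/
noncomputable def cc (F : Matrix (Fin 4) (Fin 4) ℝ → ℝ) (y : Fin 3 → ℝ) : Fin 3 → ℝ :=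
  fun l => fderiv ℝ (Psi F) y (Pi.single l 1)

theorem fderiv_Psi (y z : Fin 3 → ℝ) : fderiv ℝ (Psi F) y z = dt (cc F y) z := by
  have h : z = z 0 • Pi.single 0 1 + z 1 • Pi.single 1 1 + z 2 • Pi.single 2 1 := by
    ext i
    fin_cases i <;> simp
  conv_lhs => rw [h]
  rw [map_add, map_add, map_smul, map_smul, map_smul]
  simp only [dt, cc, smul_eq_mul]
  ring

/-- polarization -/
def pb (V W : Matrix (Fin 4) (Fin 2) ℝ) (i j : Fin 4) : ℝ :=
  V i 0 * W j 1 + W i 0 * V j 1 - V j 0 * W i 1 - W j 0 * V i 1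

/-- polarization -/
def bb (V W : Matrix (Fin 4) (Fin 2) ℝ) : Fin 3 → ℝ :=
  ![pb V W 0 1 - pb V W 2 3, pb V W 0 2 + pb V W 1 3, pb V W 0 3 - pb V W 1 2]

theorem om_line (V W : Matrix (Fin 4) (Fin 2) ℝ) (t : ℝ) :
    om (V + t • W) = om V + t • bb V W + (t * t) • om W := by
  ext i
  fin_cases i <;>
  · simp [om, bb, pl, pb]
    ring

theorem dt_bb (c : Fin 3 → ℝ) (V W : Matrix (Fin 4) (Fin 2) ℝ) :
    dt c (bb V W) = ((GG c V)ᵀ * W).trace := by
  simp [GG, bb, pb, dt, KK, Matrix.trace, Matrix.mul_apply, Matrix.mulVec, dotProduct,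
    Fin.sum_univ_four, Fin.sum_univ_two]
  ring

theorem trace_grad_eq (hF : IsIntegrand 2 F) (hd : Dep F) {V : Matrix (Fin 4) (Fin 2) ℝ}
    (hV : V ∈ Frame 4 2) (W : Matrix (Fin 4) (Fin 2) ℝ) :
    ((grad F V)ᵀ * W).trace = ((GG (cc F (om V)) V)ᵀ * W).trace := by
  have h1 := hasDerivAt_line hF hV W
  have h2 : HasDerivAt (fun t : ℝ => om (V + t • W)) (bb V W) 0 := by
    have e : (fun t : ℝ => om (V + t • W)) =
        fun t : ℝ => om V + t • bb V W + (t * t) • om W := by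
      funext t
      exact om_line V W t
    rw [e]
    have a1 : HasDerivAt (fun t : ℝ => t • bb V W) ((1:ℝ) • bb V W) 0 :=
      (hasDerivAt_id (0:ℝ)).smul_const (bb V W)
    have a2 : HasDerivAt (fun t : ℝ => (t * t) • om W) (((1:ℝ) * 0 + 0 * 1) • om W) 0 :=
      ((hasDerivAt_id (0:ℝ)).mul (hasDerivAt_id (0:ℝ))).smul_const (om W)
    have a3 := (a1.const_add (om V)).add a2
    have e2 : (1:ℝ) • bb V W + ((1:ℝ) * 0 + 0 * 1) • om W = bb V W := by simp
    rw [e2] at a3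
    exact a3
  have e0 : om (V + (0:ℝ) • W) = om V := by simp
  have h3 : HasDerivAt (fun t : ℝ => Psi F (om (V + t • W)))
      (fderiv ℝ (Psi F) (om V) (bb V W)) 0 := by
    have b1 : HasFDerivAt (Psi F) (fderiv ℝ (Psi F) (om V)) (om (V + (0:ℝ) • W)) := by
      rw [e0]
      exact (Psi_diff hF (om_ne hV)).hasFDerivAt
    exact b1.comp_hasDerivAt (0:ℝ) h2
  have h4 : (fun t : ℝ => Phi F (V + t • W)) =ᶠ[nhds 0] fun t : ℝ => Psi F (om (V + t • W)) := by
    have hc : Continuous (fun t : ℝ => V + t • W) :=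
      continuous_const.add (continuous_id.smul continuous_const)
    have h0 : (fun t : ℝ => V + t • W) 0 ∈ Frame 4 2 := by
      simpa using hV
    filter_upwards [hc.continuousAt.eventually (isOpen_frame.mem_nhds h0)] with t ht
    exact Phi_eq_Psi hd ht
  have h5 := (h3.congr_of_eventuallyEq h4).unique h1
  rw [← h5, fderiv_Psi, dt_bb]

theorem grad_eq (hF : IsIntegrand 2 F) (hd : Dep F) {V : Matrix (Fin 4) (Fin 2) ℝ}
    (hV : V ∈ Frame 4 2) : grad F V = GG (cc F (om V)) V := by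
  rw [← transpose_inj]
  ext i j
  have h0 := trace_grad_eq hF hd hV (single j i 1)
  rw [trace_mul_single, trace_mul_single] at h0
  simpa using h0

theorem dt_cc (hF : IsIntegrand 2 F) (hd : Dep F) {V : Matrix (Fin 4) (Fin 2) ℝ}
    (hV : V ∈ Frame 4 2) : dt (cc F (om V)) (om V) = Psi F (om V) := by
  have h1 := congrArg Matrix.trace (euler hF hV)
  rw [grad_eq hF hd hV, trace_smul, trace_one, Fintype.card_fin, Phi_eq_Psi hd hV,
    ← dt_bb] at h1
  have h2 : dt (cc F (om V)) (bb V V) = 2 * dt (cc F (om V)) (om V) := by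
    simp [dt, bb, pb, om, pl]
    ring
  rw [h2] at h1
  simp only [smul_eq_mul, Nat.cast_ofNat] at h1
  linarith

end V8H6.GK
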