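import Mathlib
import Pool.Agent.V8H6.GK.Asd

namespace V8H6.GK

open Matrix

attribute [local instance] Matrix.normedAddCommGroup Matrix.normedSpace

variable {F : Matrix (Fin 4) (Fin 4) ℝ → ℝ}

/-- Euclidean norm on `ℝ³`. -/
noncomputable def nrm (y : Fin 3 → ℝ) : ℝ := Real.sqrt (dt y y)

/-- The explicit inequality for the function `Psi F` on `ℝ³`. -/
def Star (F : Matrix (Fin 4) (Fin 4) ℝ → ℝ) : Prop :=
  ∀ y z : Fin 3 → ℝ, y ≠ 0 → (∀ t : ℝ, z ≠ t • y) →
    Psi F y * fderiv ℝ (Psi F) y z +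
      (1 / 2) * (∑ l, (fderiv ℝ (Psi F) y (Pi.single l 1)) ^ 2) * (nrm y * nrm z - dt y z) <
    Psi F y * Psi F z

theorem dt_self_nonneg (y : Fin 3 → ℝ) : 0 ≤ dt y y := by
  unfold dt
  nlinarith [mul_self_nonneg (y 0), mul_self_nonneg (y 1), mul_self_nonneg (y 2)]

theorem dt_cs (d u : Fin 3 → ℝ) : (dt d u) ^ 2 ≤ dt d d * dt u u := by
  unfold dt
  nlinarith [sq_nonneg (d 0 * u 1 - d 1 * u 0), sq_nonneg (d 0 * u 2 - d 2 * u 0),
    sq_nonneg (d 1 * u 2 - d 2 * u 1)]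

theorem nrm_sq (y : Fin 3 → ℝ) : nrm y * nrm y = dt y y := Real.mul_self_sqrt (dt_self_nonneg y)

theorem nrm_pos {y : Fin 3 → ℝ} (hy : y ≠ 0) : 0 < nrm y := Real.sqrt_pos.2 (dt_self_pos hy)

theorem cs_strict {y z : Fin 3 → ℝ} (hy : y ≠ 0) (hz : ∀ t : ℝ, z ≠ t • y) :
    (dt y z) ^ 2 < dt y y * dt z z := by
  have hyy := dt_self_pos hy
  obtain ⟨t, ht⟩ : ∃ t : ℝ, t * dt y y = dt y z := ⟨dt y z / dt y y, div_mul_cancel₀ _ hyy.ne'⟩
  have h1 := dt_self_pos (sub_ne_zero.2 (hz t))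
  have h2 : dt (z - t • y) (z - t • y) = dt z z - 2 * t * dt y z + t ^ 2 * dt y y := by
    simp only [dt, Pi.sub_apply, Pi.smul_apply, smul_eq_mul]
    ring
  rw [h2] at h1
  have h4 := mul_pos hyy h1
  have h5 : dt y y * (dt z z - 2 * t * dt y z + t ^ 2 * dt y y) =
      dt y y * dt z z - 2 * (t * dt y y) * dt y z + (t * dt y y) ^ 2 := by ring
  rw [h5, ht] at h4
  nlinarith

theorem cs_strict' {y z : Fin 3 → ℝ} (hy : y ≠ 0) (hz : ∀ t : ℝ, z ≠ t • y) :
    |dt y z| < nrm y * nrm z := by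
  refine abs_lt_of_sq_lt_sq ?_ (mul_nonneg (Real.sqrt_nonneg _) (Real.sqrt_nonneg _))
  have e : (nrm y * nrm z) ^ 2 = (nrm y * nrm y) * (nrm z * nrm z) := by ring
  rw [e, nrm_sq, nrm_sq]
  exact cs_strict hy hz

theorem cs_le (V U : Matrix (Fin 4) (Fin 2) ℝ) :
    |dt (omt V) (omt U)| ≤ nrm (om V) * nrm (om U) := by
  refine abs_le_of_sq_le_sq ?_ (mul_nonneg (Real.sqrt_nonneg _) (Real.sqrt_nonneg _))
  have e : (nrm (om V) * nrm (om U)) ^ 2 =
      (nrm (om V) * nrm (om V)) * (nrm (om U) * nrm (om U)) := by ring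
  rw [e, nrm_sq, nrm_sq, om_norm, om_norm, ← omt_norm, ← omt_norm]
  exact dt_cs _ _

theorem lemL (d : Fin 3 → ℝ) {y z : Fin 3 → ℝ} (hy : y ≠ 0) (hz : z ≠ 0) :
    0 ≤ dt d d * (nrm y * nrm z - dt y z) + 2 * (dt d y * dt d z) := by
  have ha := nrm_pos hy
  have hb := nrm_pos hz
  have ha2 := nrm_sq y
  have hb2 := nrm_sq z
  set a := nrm y
  set b := nrm z
  have h1 := dt_cs d (b • y - a • z)
  have e1 : dt d (b • y - a • z) = b * dt d y - a * dt d z := by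
    simp only [dt, Pi.sub_apply, Pi.smul_apply, smul_eq_mul]
    ring
  have e2 : dt (b • y - a • z) (b • y - a • z) =
      b * b * dt y y - 2 * a * b * dt y z + a * a * dt z z := by
    simp only [dt, Pi.sub_apply, Pi.smul_apply, smul_eq_mul]
    ring
  rw [e1, e2, ← ha2, ← hb2] at h1
  have h2 : 0 ≤ (2 * (a * b)) * (dt d d * (a * b - dt y z) + 2 * (dt d y * dt d z)) := by
    have e3 : (2 * (a * b)) * (dt d d * (a * b - dt y z) + 2 * (dt d y * dt d z)) =
        dt d d * (b * b * (a * a) - 2 * a * b * dt y z + a * a * (b * b)) -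
        (b * dt d y - a * dt d z) ^ 2 + (b * dt d y + a * dt d z) ^ 2 := by ring
    rw [e3]
    have := sq_nonneg (b * dt d y + a * dt d z)
    linarith
  exact nonneg_of_mul_nonneg_right h2 (by positivity)

theorem sum_cc (y : Fin 3 → ℝ) :
    ∑ l, (fderiv ℝ (Psi F) y (Pi.single l 1)) ^ 2 = dt (cc F y) (cc F y) := by
  rw [Fin.sum_univ_three]
  simp only [dt, cc]
  ring

theorem star_of_AC (hF : IsIntegrand 2 F) (hd : Dep F) (h : AC 2 F) : Star F := by
  intro y z hy hz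
  rw [sum_cc, fderiv_Psi]
  have hcs := cs_strict' hy hz
  have ha0 := nrm_pos hy
  have ha2 := nrm_sq y
  have hb2 := nrm_sq z
  obtain ⟨a, ha⟩ : ∃ a, a = nrm y := ⟨_, rfl⟩
  obtain ⟨b, hb⟩ : ∃ b, b = nrm z := ⟨_, rfl⟩
  obtain ⟨s, hs⟩ : ∃ s, s = dt y z := ⟨_, rfl⟩
  rw [← ha, ← hb, ← hs] at hcs ⊢
  rw [← ha] at ha0 ha2
  rw [← hb] at hb2
  have hpos : 0 < a * b + s := by
    have := (abs_lt.1 hcs).1
    linarith
  obtain ⟨q, hq⟩ : ∃ q : Fin 3 → ℝ, q = b • y + a • z := ⟨_, rfl⟩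
  obtain ⟨κ, hκd⟩ : ∃ κ, κ = 2 * (a * a) * (a * b + s) := ⟨_, rfl⟩
  have hκ : 0 < κ := by
    rw [hκd]
    positivity
  have hqy : dt q y = b * dt y y + a * s := by
    rw [hq, hs]
    simp only [dt, Pi.add_apply, Pi.smul_apply, smul_eq_mul]
    ring
  have hqq : dt q q = b * b * dt y y + 2 * a * b * s + a * a * dt z z := by
    rw [hq, hs]
    simp only [dt, Pi.add_apply, Pi.smul_apply, smul_eq_mul]
    ring
  have homU : om (KK q * sec y) = κ • z := by
    rw [om_K, om_sec, hqy, hqq, ← ha2, ← hb2]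
    ext i
    rw [hq, hκd]
    simp only [Pi.add_apply, Pi.sub_apply, Pi.smul_apply, smul_eq_mul]
    ring
  have homtU : omt (KK q * sec y) = (2 * (a * b) * (a * b + s)) • omt (sec y) := by
    rw [omt_K, hqq, ← ha2, ← hb2]
    congr 1
    ring
  have hz0 : z ≠ 0 := by
    intro h0
    exact hz 0 (by rw [h0, zero_smul])
  have hU : KK q * sec y ∈ Frame 4 2 := frame_of_om (by rw [homU]; exact smul_ne_zero hκ.ne' hz0)
  have hV := sec_frame hy
  have hne : proj (sec y) ≠ proj (KK q * sec y) := by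
    intro he
    obtain ⟨g, hg, hg2⟩ := exists_of_proj_eq hV hU he
    have h1 : om (KK q * sec y) = g.det • y := by rw [hg2, om_mul, om_sec]
    rw [homU] at h1
    apply hz (κ⁻¹ * g.det)
    rw [mul_smul, ← h1, smul_smul, inv_mul_cancel₀ hκ.ne', one_smul]
  have hmain := main_frame hF h hV hU hne
  rw [Phi_eq_Psi hd hV, Phi_eq_Psi hd hU, homU, om_sec, Psi_smul hκ.ne', abs_of_pos hκ,
    grad_eq hF hd hV, det_GG, homU, homtU, om_sec] at hmain
  have hP := Psi_pos hF hy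
  have hcy : dt (cc F y) y = Psi F y := by
    have := dt_cc hF hd hV
    rwa [om_sec] at this
  have e1 : dt (cc F y) (κ • z) = κ * dt (cc F y) z := by
    simp only [dt, Pi.smul_apply, smul_eq_mul]
    ring
  have e2 : dt y (κ • z) = κ * s := by
    rw [hs]
    simp only [dt, Pi.smul_apply, smul_eq_mul]
    ring
  have e3 : dt (omt (sec y)) ((2 * (a * b) * (a * b + s)) • omt (sec y)) =
      (2 * (a * b) * (a * b + s)) * (a * a) := by
    have e4 : dt (omt (sec y)) (omt (sec y)) = a * a := by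
      rw [omt_norm, ← om_norm, om_sec, ha2]
    rw [← e4]
    simp only [dt, Pi.smul_apply, smul_eq_mul]
    ring
  rw [hcy, e1, e2, e3] at hmain
  have hle := mul_le_mul_of_nonneg_right (le_abs_self (Psi F y * (κ * dt (cc F y) z) +
    1 / 2 * dt (cc F y) (cc F y) * (2 * (a * b) * (a * b + s) * (a * a) - κ * s))) hP.le
  have h1 := hle.trans_lt hmain
  have e5 : (Psi F y * (κ * dt (cc F y) z) + 1 / 2 * dt (cc F y) (cc F y) *
      (2 * (a * b) * (a * b + s) * (a * a) - κ * s)) * Psi F y =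
      (κ * Psi F y) * (Psi F y * dt (cc F y) z + 1 / 2 * dt (cc F y) (cc F y) * (a * b - s)) := by
    rw [hκd]
    ring
  have e6 : Psi F y ^ 2 * (κ * Psi F z) = (κ * Psi F y) * (Psi F y * Psi F z) := by ring
  rw [e5, e6] at h1
  exact lt_of_mul_lt_mul_left h1 (mul_pos hκ hP).le

theorem nrm_neg (y : Fin 3 → ℝ) : nrm (-y) = nrm y := by
  unfold nrm
  congr 1
  simp [dt]

theorem dt_neg_right (y z : Fin 3 → ℝ) : dt y (-z) = - dt y z := by
  simp only [dt, Pi.neg_apply]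
  ring

theorem Psi_neg (y : Fin 3 → ℝ) : Psi F (-y) = Psi F y := by
  have := Psi_smul (F := F) (t := -1) (by norm_num) y
  simpa using this

theorem dt_comm (y z : Fin 3 → ℝ) : dt y z = dt z y := by
  unfold dt
  ring

theorem trace_Av_mul (hF : IsIntegrand 2 F) (hd : Dep F) {V U : Matrix (Fin 4) (Fin 2) ℝ}
    (hV : V ∈ Frame 4 2) (hU : U ∈ Frame 4 2) :
    (Av F V * Av F U).trace = ((Psi F (om V))⁻¹ * (Psi F (om U))⁻¹) *
      (Psi F (om V) * Psi F (om U) - (dt (cc F (om V)) (cc F (om U)) * dt (om V) (om U) -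
        dt (cc F (om V)) (om U) * dt (om V) (cc F (om U))) +
        dt (cc F (om V)) (cc F (om U)) * dt (omt V) (omt U)) := by
  unfold Av
  rw [smul_mul_smul_comm, trace_smul, grad_eq hF hd hV, grad_eq hF hd hU, tr_GG,
    dt_cc hF hd hV, dt_cc hF hd hU, Phi_eq_Psi hd hV, Phi_eq_Psi hd hU, smul_eq_mul]

theorem TC_of_star (hF : IsIntegrand 2 F) (hd : Dep F) (h : Star F) : TC 2 F := by
  intro V hV U hU hne
  have hy := om_ne hV
  have hz := om_ne hU
  by_cases hp : ∃ t : ℝ, om U = t • om V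
  · obtain ⟨t, ht⟩ := hp
    have ht0 : t ≠ 0 := by
      rintro rfl
      rw [zero_smul] at ht
      exact hz ht
    have hdet : (!![t⁻¹, 0; 0, 1] : Matrix (Fin 2) (Fin 2) ℝ).det = t⁻¹ := by
      simp [det_fin_two]
    have hdet0 : (!![t⁻¹, 0; 0, 1] : Matrix (Fin 2) (Fin 2) ℝ).det ≠ 0 := by
      rw [hdet]
      exact inv_ne_zero ht0
    have hU1 := frame_mul hU hdet0
    have hpr := proj_mul U hdet0
    have hAv := Av_eq_of_proj hF hU1 hU hpr
    have hom : om (U * !![t⁻¹, 0; 0, 1]) = om V := by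
      rw [om_mul, hdet, ht, smul_smul, inv_mul_cancel₀ ht0, one_smul]
    rw [hAv, trace_Av_mul hF hd hV hU1, hom]
    have homt : omt V ≠ omt (U * !![t⁻¹, 0; 0, 1]) := by
      intro he
      exact hne ((proj_eq_of_om hom.symm he).trans hpr)
    have h1 := dt_self_pos (sub_ne_zero.2 homt)
    have h2 : dt (omt V - omt (U * !![t⁻¹, 0; 0, 1])) (omt V - omt (U * !![t⁻¹, 0; 0, 1])) =
        dt (omt V) (omt V) + dt (omt (U * !![t⁻¹, 0; 0, 1])) (omt (U * !![t⁻¹, 0; 0, 1])) -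
        2 * dt (omt V) (omt (U * !![t⁻¹, 0; 0, 1])) := by
      simp only [dt, Pi.sub_apply]
      ring
    rw [h2, omt_norm, omt_norm, ← om_norm, ← om_norm, hom] at h1
    have hP := Psi_pos hF hy
    have hcy := dt_cc hF hd hV
    have hc0 : cc F (om V) ≠ 0 := by
      intro h0
      rw [h0] at hcy
      have : dt 0 (om V) = 0 := by simp [dt]
      rw [this] at hcy
      exact hP.ne hcy
    have hcc := dt_self_pos hc0
    rw [dt_comm (om V) (cc F (om V)), hcy]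
    obtain ⟨P, hPd⟩ : ∃ P, P = Psi F (om V) := ⟨_, rfl⟩
    rw [← hPd] at hP ⊢
    have h3 := mul_pos hcc (by linarith : 0 < dt (om V) (om V) -
      dt (omt V) (omt (U * !![t⁻¹, 0; 0, 1])))
    have hPP := mul_pos hP hP
    have e : P⁻¹ * P⁻¹ = (P * P)⁻¹ := by rw [mul_inv]
    rw [e, inv_mul_lt_iff₀ hPP]
    push_cast
    nlinarith
  · push Not at hp
    have hp' : ∀ t : ℝ, om V ≠ t • om U := by
      intro t ht
      have ht0 : t ≠ 0 := by
        rintro rfl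
        rw [zero_smul] at ht
        exact hy ht
      apply hp t⁻¹
      rw [ht, smul_smul, inv_mul_cancel₀ ht0, one_smul]
    have hpn : ∀ t : ℝ, -om U ≠ t • om V := by
      intro t ht
      apply hp (-t)
      rw [neg_smul, ← ht, neg_neg]
    have hpn' : ∀ t : ℝ, -om V ≠ t • om U := by
      intro t ht
      apply hp' (-t)
      rw [neg_smul, ← ht, neg_neg]
    have s1 := h _ _ hy hp
    have s2 := h _ _ hz hp'
    have s3 := h _ _ hy hpn
    have s4 := h _ _ hz hpn'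
    have l1 := lemL (cc F (om V) - cc F (om U)) hy hz
    have l2 := lemL (cc F (om V) + cc F (om U)) hy (neg_ne_zero.2 hz)
    have hS := abs_le.1 (cs_le V U)
    have hcy := dt_cc hF hd hV
    have hcz := dt_cc hF hd hU
    have hP := Psi_pos hF hy
    have hQ := Psi_pos hF hz
    rw [trace_Av_mul hF hd hV hU]
    rw [sum_cc, fderiv_Psi] at s1 s2 s3 s4
    rw [nrm_neg, dt_neg_right, dt_neg_right, Psi_neg] at s3 s4
    rw [nrm_neg, dt_neg_right, dt_neg_right] at l2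
    rw [dt_comm (om U) (om V)] at s2 s4
    have m1 : ∀ c c' : Fin 3 → ℝ, dt (c - c') (c - c') = dt c c + dt c' c' - 2 * dt c c' := by
      intro c c'
      simp only [dt, Pi.sub_apply]
      ring
    have m2 : ∀ c c' : Fin 3 → ℝ, dt (c + c') (c + c') = dt c c + dt c' c' + 2 * dt c c' := by
      intro c c'
      simp only [dt, Pi.add_apply]
      ring
    have m3 : ∀ c c' x : Fin 3 → ℝ, dt (c - c') x = dt c x - dt c' x := by
      intro c c' x
      simp only [dt, Pi.sub_apply]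
      ring
    have m4 : ∀ c c' x : Fin 3 → ℝ, dt (c + c') x = dt c x + dt c' x := by
      intro c c' x
      simp only [dt, Pi.add_apply]
      ring
    rw [m1, m3, m3, hcy, hcz] at l1
    rw [m2, m4, m4, hcy, hcz] at l2
    rw [dt_comm (om V) (cc F (om U))]
    obtain ⟨P, hPd⟩ : ∃ P, P = Psi F (om V) := ⟨_, rfl⟩
    obtain ⟨Q, hQd⟩ : ∃ Q, Q = Psi F (om U) := ⟨_, rfl⟩
    obtain ⟨m, hmd⟩ : ∃ m, m = nrm (om V) * nrm (om U) := ⟨_, rfl⟩
    have hmd' : nrm (om U) * nrm (om V) = m := by rw [hmd, mul_comm]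
    obtain ⟨s, hsd⟩ : ∃ s, s = dt (om V) (om U) := ⟨_, rfl⟩
    obtain ⟨C, hCd⟩ : ∃ C, C = dt (cc F (om V)) (cc F (om U)) := ⟨_, rfl⟩
    obtain ⟨D, hDd⟩ : ∃ D, D = dt (cc F (om V)) (om U) := ⟨_, rfl⟩
    obtain ⟨D', hDd'⟩ : ∃ D', D' = dt (cc F (om U)) (om V) := ⟨_, rfl⟩
    obtain ⟨A, hAd⟩ : ∃ A, A = dt (cc F (om V)) (cc F (om V)) := ⟨_, rfl⟩
    obtain ⟨B, hBd⟩ : ∃ B, B = dt (cc F (om U)) (cc F (om U)) := ⟨_, rfl⟩
    obtain ⟨S, hSd⟩ : ∃ S, S = dt (omt V) (omt U) := ⟨_, rfl⟩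
    simp only [hmd', ← hPd, ← hQd, ← hmd, ← hsd, ← hCd, ← hDd, ← hDd', ← hAd, ← hBd, ← hSd]
      at s1 s2 s3 s4 l1 l2 hS hP hQ ⊢
    have hPQ := mul_pos hP hQ
    have e : P⁻¹ * Q⁻¹ = (P * Q)⁻¹ := by rw [mul_inv]
    rw [e, inv_mul_lt_iff₀ hPQ]
    push_cast
    have E1 : C * (m - s) + D * D' < P * Q := by nlinarith
    have E2 : - C * (m + s) + D * D' < P * Q := by nlinarith
    rcases le_total 0 C with hC | hC
    · have := mul_le_mul_of_nonneg_left hS.2 hC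
      nlinarith
    · have := mul_le_mul_of_nonpos_left hS.1 hC
      nlinarith

/-- **Main theorem of the class.** -/
theorem asd_main (hF : IsIntegrand 2 F) (hd : Dep F) :
    (AC 2 F ↔ EC 2 F) ∧ (AC 2 F ↔ Star F) :=
  ⟨⟨fun h => EC_of_TC hF (TC_of_star hF hd (star_of_AC hF hd h)), AC_of_EC⟩,
    ⟨star_of_AC hF hd, fun h => AC_of_EC (EC_of_TC hF (TC_of_star hF hd h))⟩⟩

end V8H6.GK
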