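import Mathlib
import Pool.Agent.V8H6.GK.Trace

namespace V8H6.GK

open Matrix

attribute [local instance] Matrix.normedAddCommGroup Matrix.normedSpace

variable {n k : ℕ} {F : Matrix (Fin n) (Fin n) ℝ → ℝ}

theorem proj_eq_of_Av (hF : IsIntegrand k F) {V U : Matrix (Fin n) (Fin k) ℝ}
    (hV : V ∈ Frame n k) (h : Av F V = Av F U) : proj V = proj U := by
  have h1 : Vᵀ = ((Phi F U)⁻¹ • (Vᵀ * grad F U)) * Uᵀ := by
    have h2 := V_Av hF hV
    rw [h, Av, Matrix.mul_smul, ← Matrix.mul_assoc] at h2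
    rw [smul_mul]
    exact h2.symm
  have h3 : V = U * ((Phi F U)⁻¹ • (Vᵀ * grad F U))ᵀ := by
    have := congrArg transpose h1
    rwa [transpose_transpose, transpose_mul, transpose_transpose] at this
  have hg : (((Phi F U)⁻¹ • (Vᵀ * grad F U))ᵀ).det ≠ 0 := by
    intro h0
    have h4 : (Vᵀ * V).det ≠ 0 := hV
    rw [h3, gram_det_mul, h0] at h4
    simp at h4
  conv_lhs => rw [h3]
  exact proj_mul U hg

/-- The scalar condition on the Gauss image. -/
theorem tc_iff (hF : IsIntegrand k F) :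
    TC k F ↔ ∀ A ∈ GaussImage k F, ∀ B ∈ GaussImage k F, A ≠ B → (A * B).trace < k := by
  rw [gaussImage_eq hF]
  constructor
  · rintro h A ⟨V, hV, rfl⟩ B ⟨U, hU, rfl⟩ hne
    refine h V hV U hU fun he => hne ?_
    exact (Av_eq_of_proj hF hV hU he).symm
  · intro h V hV U hU hne
    refine h _ ⟨V, hV, rfl⟩ _ ⟨U, hU, rfl⟩ fun he => hne ?_
    exact proj_eq_of_Av hF hV he

end V8H6.GK
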