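import Mathlib
import Pool.Agent.V8H6.GK.Trace

namespace V8H6.GK

open Matrix

attribute [local instance] Matrix.normedAddCommGroup Matrix.normedSpace

variable {N m : ℕ} {F : Matrix (Fin (N+1)) (Fin (N+1)) ℝ → ℝ}

/-- `F (T)` only depends on the angle between `T` and the first coordinate axis. -/
def Axi (m : ℕ) (F : Matrix (Fin (N+1)) (Fin (N+1)) ℝ → ℝ) : Prop :=
  ∀ V ∈ Frame (N+1) (m+1), ∀ U ∈ Frame (N+1) (m+1), proj V 0 0 = proj U 0 0 →
    F (proj V) = F (proj U)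

/-- adapted frames: orthonormal, all columns but the first orthogonal to the axis. -/
structure Adapted (V : Matrix (Fin (N+1)) (Fin (m+1)) ℝ) : Prop where
  on : Vᵀ * V = 1
  nonneg : 0 ≤ V 0 0
  zero : ∀ j, j ≠ 0 → V 0 j = 0

/-- the dual frame -/
noncomputable def dual (F : Matrix (Fin (N+1)) (Fin (N+1)) ℝ → ℝ)
    (V : Matrix (Fin (N+1)) (Fin (m+1)) ℝ) : Matrix (Fin (N+1)) (Fin (m+1)) ℝ :=
  (Phi F V)⁻¹ • grad F V

/-- reflection -/
def Rf (N : ℕ) : Matrix (Fin (N+1)) (Fin (N+1)) ℝ := diagonal fun i => if i = 0 then -1 else 1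

end V8H6.GK
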