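import Mathlib
import Pool.Agent.V8H6.GK.AxDefs

namespace V8H6.GK

open Matrix

attribute [local instance] Matrix.normedAddCommGroup Matrix.normedSpace

variable {N m : ℕ} {F : Matrix (Fin (N+1)) (Fin (N+1)) ℝ → ℝ}

/-- an orthogonal symmetric matrix carrying the row `r` to `(|r|, 0, ..., 0)` -/
theorem exists_householder (r : Fin (m+1) → ℝ) : ∃ Q : Matrix (Fin (m+1)) (Fin (m+1)) ℝ,
    Qᵀ = Q ∧ Q * Q = 1 ∧ 0 ≤ (r ᵥ* Q) 0 ∧ ∀ j, j ≠ 0 → (r ᵥ* Q) j = 0 := by
  set s : ℝ := r ⬝ᵥ r with hs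
  have hs0 : 0 ≤ s := by
    rw [hs, dotProduct]
    exact Finset.sum_nonneg fun i _ => mul_self_nonneg _
  set ρ : ℝ := Real.sqrt s with hρ
  have hρ0 : 0 ≤ ρ := Real.sqrt_nonneg _
  have hρ2 : ρ * ρ = s := Real.mul_self_sqrt hs0
  set e : Fin (m+1) → ℝ := Pi.single 0 1 with he
  set w : Fin (m+1) → ℝ := r - ρ • e with hw
  have hrw : r ⬝ᵥ w = s - ρ * r 0 := by
    rw [hw, dotProduct_sub, dotProduct_smul, he, dotProduct_single, mul_one, smul_eq_mul]
  have hew : e ⬝ᵥ w = r 0 - ρ := by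
    rw [hw, dotProduct_sub, dotProduct_smul, he, single_dotProduct, single_dotProduct, one_mul,
      one_mul, Pi.single_eq_same, smul_eq_mul, mul_one]
  have hww : w ⬝ᵥ w = 2 * (r ⬝ᵥ w) := by
    have h1 : w ⬝ᵥ w = r ⬝ᵥ w - ρ * (e ⬝ᵥ w) := by
      conv_lhs => rw [hw]
      rw [← hw, sub_dotProduct, smul_dotProduct, smul_eq_mul]
    rw [h1, hrw, hew]
    linarith [hρ2]
  by_cases hD : w ⬝ᵥ w = 0
  · have hw0 : w = 0 := dotProduct_self_eq_zero.1 hD
    have hr : r = ρ • e := by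
      have := hw0
      rw [hw, sub_eq_zero] at this
      exact this
    refine ⟨1, transpose_one, Matrix.mul_one 1, ?_, fun j hj => ?_⟩
    · rw [vecMul_one, hr, he]
      simpa using hρ0
    · rw [vecMul_one, hr, he]
      simp [hj]
  · have hvm : ∀ v : Fin (m+1) → ℝ, v ᵥ* vecMulVec w w = (v ⬝ᵥ w) • w := by
      intro v
      ext j
      simp only [vecMul, dotProduct, vecMulVec_apply, Pi.smul_apply, smul_eq_mul, Finset.sum_mul]
      exact Finset.sum_congr rfl fun i _ => by ring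
    have hVV : vecMulVec w w * vecMulVec w w = (w ⬝ᵥ w) • vecMulVec w w := by
      ext i j
      simp only [Matrix.mul_apply, vecMulVec_apply, Matrix.smul_apply, smul_eq_mul, dotProduct,
        Finset.sum_mul]
      exact Finset.sum_congr rfl fun l _ => by ring
    have hrQ : r ᵥ* (1 - (2 / (w ⬝ᵥ w)) • vecMulVec w w) = ρ • e := by
      rw [vecMul_sub, vecMul_one, vecMul_smul, hvm, smul_smul]
      have h1 : 2 / (w ⬝ᵥ w) * (r ⬝ᵥ w) = 1 := by
        have h2 : r ⬝ᵥ w = (w ⬝ᵥ w) / 2 := by linarith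
        rw [h2]
        field_simp
      rw [h1, one_smul, hw]
      abel
    refine ⟨1 - (2 / (w ⬝ᵥ w)) • vecMulVec w w, ?_, ?_, ?_, fun j hj => ?_⟩
    · rw [transpose_sub, transpose_one, transpose_smul]
      congr 2
      ext i j
      simp only [transpose_apply, vecMulVec_apply]
      ring
    · rw [sub_mul, Matrix.one_mul, mul_sub, Matrix.mul_one, smul_mul_smul_comm, hVV, smul_smul]
      have h1 : 2 / (w ⬝ᵥ w) * (2 / (w ⬝ᵥ w)) * (w ⬝ᵥ w) = 2 * (2 / (w ⬝ᵥ w)) := by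
        field_simp
      rw [h1, two_mul, add_smul]
      abel
    · rw [hrQ, he]
      simpa using hρ0
    · rw [hrQ, he]
      simp [hj]

theorem exists_adapted {V : Matrix (Fin (N+1)) (Fin (m+1)) ℝ} (hV : V ∈ Frame (N+1) (m+1)) :
    ∃ U : Matrix (Fin (N+1)) (Fin (m+1)) ℝ, Adapted U ∧ proj U = proj V := by
  obtain ⟨g, hg, hg'⟩ := exists_normalize hV
  obtain ⟨Q, h1, h2, h3, h4⟩ := exists_householder (fun j => (V * g) 0 j)
  have hQd : Q.det ≠ 0 := by
    intro h0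
    have h5 := congrArg det h2
    rw [det_mul, h0, mul_zero, det_one] at h5
    exact zero_ne_one h5
  have hrow : ∀ j, (V * g * Q) 0 j = ((fun j => (V * g) 0 j) ᵥ* Q) j := by
    intro j
    rw [Matrix.mul_apply]
    rfl
  refine ⟨V * g * Q, ⟨?_, ?_, ?_⟩, ?_⟩
  · have h5 : (V * g)ᵀ * (V * g) = 1 := hg'
    rw [gram_mul (V * g) Q, h5, Matrix.mul_one, h1, h2]
  · rw [hrow]
    exact h3
  · intro j hj
    rw [hrow]
    exact h4 j hj
  · rw [Matrix.mul_assoc]
    exact proj_mul V (by rw [det_mul]; exact mul_ne_zero hg hQd)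

end V8H6.GK
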