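import Mathlib
import Pool.Agent.V8H6.GK.AxDefs

namespace V8H6.GK

open Matrix

attribute [local instance] Matrix.normedAddCommGroup Matrix.normedSpace

variable {N m : ℕ} {F : Matrix (Fin (N+1)) (Fin (N+1)) ℝ → ℝ}

/-- An orthogonal matrix which fixes the axis does not change `Phi F`. -/
theorem Phi_orth (hA : Axi m F) {V : Matrix (Fin (N+1)) (Fin (m+1)) ℝ} (hV : V ∈ Frame (N+1) (m+1))
    (R : Matrix (Fin (N+1)) (Fin (N+1)) ℝ) (hR : Rᵀ * R = 1)
    (h0 : ∀ a, a ≠ 0 → R 0 a = 0) (h00 : R 0 0 * R 0 0 = 1) : Phi F (R * V) = Phi F V := by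
  have hg : (R * V)ᵀ * (R * V) = Vᵀ * V := by
    rw [transpose_mul, Matrix.mul_assoc, ← Matrix.mul_assoc Rᵀ R V, hR, Matrix.one_mul]
  have hRV : R * V ∈ Frame (N+1) (m+1) := by
    show ((R * V)ᵀ * (R * V)).det ≠ 0
    rw [hg]
    exact hV
  have hp : proj (R * V) = R * proj V * Rᵀ := by
    unfold proj
    rw [hg, transpose_mul]
    simp only [Matrix.mul_assoc]
  have hp0 : proj (R * V) 0 0 = proj V 0 0 := by
    rw [hp, Matrix.mul_apply, Finset.sum_eq_single 0]
    · rw [Matrix.mul_apply, Finset.sum_eq_single 0]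
      · rw [transpose_apply, mul_comm (R 0 0), mul_assoc, h00, mul_one]
      · intro b _ hb
        rw [h0 b hb, zero_mul]
      · intro h
        exact absurd (Finset.mem_univ _) h
    · intro b _ hb
      rw [transpose_apply, h0 b hb, mul_zero]
    · intro h
      exact absurd (Finset.mem_univ _) h
  unfold Phi vol
  rw [hg, hA _ hRV _ hV hp0]

/-- PART A2.  `Phi F (R t * V) = Phi F V` for the rotation `R t` in the coordinate plane `(i, j)`,
`i, j ≠ 0` (as proj (R V) = R proj V Rᵀ has the same 00 entry and `vol` is the same);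
differentiate at `t = 0` (`Phi_diffAt`, `fderiv_eq` of Basic.lean). -/
theorem grad_symm (hF : IsIntegrand (m+1) F) (hA : Axi m F)
    {V : Matrix (Fin (N+1)) (Fin (m+1)) ℝ} (hV : V ∈ Frame (N+1) (m+1)) (i j : Fin (N+1))
    (hi : i ≠ 0) (hj : j ≠ 0) : (grad F V * Vᵀ) i j = (grad F V * Vᵀ) j i := by
  by_cases hij : i = j
  · rw [hij]
  set S : Matrix (Fin (N+1)) (Fin (N+1)) ℝ := single i j 1 - single j i 1 with hS
  have hSt : Sᵀ = -S := by
    rw [hS, transpose_sub, transpose_single, transpose_single, neg_sub]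
  have hSS : S * S = -(single i i 1 + single j j 1) := by
    have hji : j ≠ i := fun h => hij h.symm
    rw [hS, Matrix.sub_mul, Matrix.mul_sub, Matrix.mul_sub, single_mul_single_same,
      single_mul_single_same, single_mul_single_of_ne (h := hji),
      single_mul_single_of_ne (h := hij)]
    simp only [mul_one, zero_sub, sub_zero, neg_add_rev]
    abel
  have hS3 : S * S * S = -S := by
    have hji : j ≠ i := fun h => hij h.symm
    rw [hSS, hS, Matrix.neg_mul, Matrix.add_mul, Matrix.mul_sub, Matrix.mul_sub,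
      single_mul_single_same, single_mul_single_same, single_mul_single_of_ne (h := hij),
      single_mul_single_of_ne (h := hji)]
    simp only [mul_one, zero_sub, sub_zero, neg_add_rev, neg_sub, neg_neg]
    abel
  have hrow : ∀ a, S 0 a = 0 := by
    intro a
    rw [hS, Matrix.sub_apply, single_apply, single_apply, if_neg (fun h => hi h.1),
      if_neg (fun h => hj h.1), sub_zero]
  have hrow2 : ∀ a, (S * S) 0 a = 0 := by
    intro a
    rw [Matrix.mul_apply]
    exact Finset.sum_eq_zero fun b _ => by rw [hrow b, zero_mul]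
  have hSSt : (S * S)ᵀ = S * S := by
    rw [transpose_mul, hSt, Matrix.neg_mul, Matrix.mul_neg, neg_neg]
  set R : ℝ → Matrix (Fin (N+1)) (Fin (N+1)) ℝ := fun t =>
    1 + Real.sin t • S + (1 - Real.cos t) • (S * S) with hRd
  have hRt : ∀ t, (R t)ᵀ = 1 - Real.sin t • S + (1 - Real.cos t) • (S * S) := by
    intro t
    rw [hRd]
    simp only [transpose_add, transpose_one, transpose_smul, hSSt, hSt, smul_neg]
    rw [← sub_eq_add_neg]
  have hRR : ∀ t, (R t)ᵀ * R t = 1 := by
    intro t
    rw [hRt t, hRd]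
    have h4 : S * S * (S * S) = -(S * S) := by
      rw [← Matrix.mul_assoc, hS3, Matrix.neg_mul]
    have h3' : S * (S * S) = -S := by rw [← Matrix.mul_assoc, hS3]
    have e : (1 - Real.sin t • S + (1 - Real.cos t) • (S * S)) *
        (1 + Real.sin t • S + (1 - Real.cos t) • (S * S)) =
        1 + (2 * (1 - Real.cos t) - (1 - Real.cos t) ^ 2 - Real.sin t ^ 2) • (S * S) := by
      simp only [Matrix.add_mul, Matrix.mul_add, Matrix.sub_mul, Matrix.one_mul, Matrix.mul_one,
        smul_mul, Matrix.mul_smul, h4, h3', hS3]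
      module
    show (1 - Real.sin t • S + (1 - Real.cos t) • (S * S)) *
        (1 + Real.sin t • S + (1 - Real.cos t) • (S * S)) = 1
    rw [e]
    have h : 2 * (1 - Real.cos t) - (1 - Real.cos t) ^ 2 - Real.sin t ^ 2 = 0 := by
      have := Real.sin_sq_add_cos_sq t
      nlinarith
    rw [h, zero_smul, add_zero]
  have hR0 : ∀ t a, R t 0 a = (1 : Matrix (Fin (N+1)) (Fin (N+1)) ℝ) 0 a := by
    intro t a
    show (1 + Real.sin t • S + (1 - Real.cos t) • (S * S)) 0 a = _
    rw [Matrix.add_apply, Matrix.add_apply, Matrix.smul_apply, Matrix.smul_apply, hrow a, hrow2 a, smul_zero, smul_zero,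
      add_zero, add_zero]
  have hconst : ∀ t, Phi F (R t * V) = Phi F V := by
    intro t
    refine Phi_orth hA hV (R t) (hRR t) ?_ ?_
    · intro a ha
      rw [hR0 t a, one_apply_ne (Ne.symm ha)]
    · rw [hR0 t 0, one_apply_eq, mul_one]
  have hpath : HasDerivAt (fun t : ℝ => V + Real.sin t • (S * V) +
      (1 - Real.cos t) • (S * S * V)) (S * V) 0 := by
    have h1 := (Real.hasDerivAt_sin 0).smul_const (S * V)
    have h2 := ((Real.hasDerivAt_cos 0).const_sub 1).smul_const (S * S * V)
    refine ((h1.const_add V).add h2).congr_deriv ?_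
    simp
  have hval : V + Real.sin 0 • (S * V) + (1 - Real.cos 0) • (S * S * V) = V := by simp
  have h1 : HasFDerivAt (fun V : Matrix (Fin (N+1)) (Fin (m+1)) ℝ => Phi F V)
      (fderiv ℝ (fun V : Matrix (Fin (N+1)) (Fin (m+1)) ℝ => Phi F V) V)
      (V + Real.sin 0 • (S * V) + (1 - Real.cos 0) • (S * S * V)) := by
    rw [hval]
    exact (Phi_diffAt hF hV).hasFDerivAt
  have h2 := h1.comp_hasDerivAt (0:ℝ) hpath
  have h3 : ((fun V : Matrix (Fin (N+1)) (Fin (m+1)) ℝ => Phi F V) ∘ fun t : ℝ =>
      V + Real.sin t • (S * V) + (1 - Real.cos t) • (S * S * V)) = fun _ => Phi F V := by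
    funext t
    show Phi F (V + Real.sin t • (S * V) + (1 - Real.cos t) • (S * S * V)) = Phi F V
    rw [← hconst t]
    congr 1
    show _ = (1 + Real.sin t • S + (1 - Real.cos t) • (S * S)) * V
    rw [Matrix.add_mul, Matrix.add_mul, Matrix.one_mul, smul_mul, smul_mul]
  rw [h3] at h2
  have h4 := h2.unique (hasDerivAt_const (0:ℝ) (Phi F V))
  have h5 := (fderiv_eq (F := F) V (S * V)).symm.trans h4
  rw [← trace_grad, hS, Matrix.mul_sub, trace_sub, trace_mul_single,
    trace_mul_single] at h5
  simp only [transpose_apply] at h5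
  simp at h5
  linarith

end V8H6.GK
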