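import Mathlib
import Pool.Agent.V8H6.GK.AxDefs

namespace V8H6.GK

open Matrix

attribute [local instance] Matrix.normedAddCommGroup Matrix.normedSpace

variable {N m : ℕ} {F : Matrix (Fin (N+1)) (Fin (N+1)) ℝ → ℝ}

theorem Rf_mul_Rf (N : ℕ) : Rf N * Rf N = 1 := by
  unfold Rf
  rw [diagonal_mul_diagonal, ← diagonal_one]
  congr 1
  funext i
  split_ifs <;> norm_num

theorem Rf_transpose (N : ℕ) : (Rf N)ᵀ = Rf N := by
  unfold Rf
  exact diagonal_transpose _

theorem gram_Rf (V : Matrix (Fin (N+1)) (Fin (m+1)) ℝ) :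
    (Rf N * V)ᵀ * (Rf N * V) = Vᵀ * V := by
  rw [transpose_mul, Rf_transpose, Matrix.mul_assoc, ← Matrix.mul_assoc (Rf N), Rf_mul_Rf,
    Matrix.one_mul]

theorem proj_Rf (V : Matrix (Fin (N+1)) (Fin (m+1)) ℝ) :
    proj (Rf N * V) = Rf N * proj V * Rf N := by
  unfold proj
  rw [gram_Rf, transpose_mul, Rf_transpose]
  simp only [Matrix.mul_assoc]

theorem proj_Rf_zero (V : Matrix (Fin (N+1)) (Fin (m+1)) ℝ) :
    proj (Rf N * V) 0 0 = proj V 0 0 := by
  rw [proj_Rf]
  unfold Rf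
  rw [mul_diagonal, diagonal_mul]
  simp

theorem frame_Rf {V : Matrix (Fin (N+1)) (Fin (m+1)) ℝ} (hV : V ∈ Frame (N+1) (m+1)) :
    Rf N * V ∈ Frame (N+1) (m+1) := by
  show ((Rf N * V)ᵀ * (Rf N * V)).det ≠ 0
  rw [gram_Rf]
  exact hV

theorem Phi_Rf (hA : Axi m F) (V : Matrix (Fin (N+1)) (Fin (m+1)) ℝ) :
    Phi F (Rf N * V) = Phi F V := by
  have hv : vol (Rf N * V) = vol V := by
    unfold vol
    rw [gram_Rf]
  by_cases hV : V ∈ Frame (N+1) (m+1)
  · unfold Phi
    rw [hv, hA (Rf N * V) (frame_Rf hV) V hV (proj_Rf_zero V)]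
  · have h0 : vol V = 0 := by
      have : (Vᵀ * V).det = 0 := by
        by_contra h
        exact hV h
      unfold vol
      rw [this, Real.sqrt_zero]
    unfold Phi
    rw [hv, h0, zero_mul, zero_mul]

/-- PART A3. -/
theorem grad_refl (hF : IsIntegrand (m+1) F) (hA : Axi m F)
    {V : Matrix (Fin (N+1)) (Fin (m+1)) ℝ} (hV : V ∈ Frame (N+1) (m+1)) :
    grad F (Rf N * V) = Rf N * grad F V := by
  have key : ∀ W : Matrix (Fin (N+1)) (Fin (m+1)) ℝ,
      ((grad F (Rf N * V))ᵀ * (Rf N * W)).trace = ((grad F V)ᵀ * W).trace := by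
    intro W
    have h1 := hasDerivAt_line hF (frame_Rf hV) (Rf N * W)
    have h2 := hasDerivAt_line hF hV W
    have e : (fun t : ℝ => Phi F (Rf N * V + t • (Rf N * W))) =
        fun t : ℝ => Phi F (V + t • W) := by
      funext t
      have : Rf N * V + t • (Rf N * W) = Rf N * (V + t • W) := by
        rw [Matrix.mul_add, Matrix.mul_smul]
      rw [this, Phi_Rf hA]
    rw [e] at h1
    exact h1.unique h2
  ext i j
  have h := key (Rf N * (single i j (1 : ℝ) : Matrix (Fin (N+1)) (Fin (m+1)) ℝ))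
  rw [← Matrix.mul_assoc (Rf N) (Rf N), Rf_mul_Rf, Matrix.one_mul,
    ← Matrix.mul_assoc (grad F V)ᵀ, trace_mul_single, trace_mul_single] at h
  have e2 : ((grad F V)ᵀ * Rf N) j i = (Rf N * grad F V) i j := by
    have : (grad F V)ᵀ * Rf N = (Rf N * grad F V)ᵀ := by
      rw [transpose_mul, Rf_transpose]
    rw [this, transpose_apply]
  rw [e2] at h
  simpa using h

end V8H6.GK
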