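import Mathlib
import Pool.Agent.V8H6.GK.AxDefs
import Pool.Agent.V8H6.GK.A2
import Pool.Agent.V8H6.GK.A3

/-!
The dual frame of an adapted frame.
-/

namespace V8H6.GK

open Matrix

attribute [local instance] Matrix.normedAddCommGroup Matrix.normedSpace

variable {N m : ℕ} {F : Matrix (Fin (N+1)) (Fin (N+1)) ℝ → ℝ}

theorem dual_spec (hF : IsIntegrand (m+1) F) (hA : Axi m F)
    {V : Matrix (Fin (N+1)) (Fin (m+1)) ℝ} (hV : Adapted V) :
    (∀ i j, j ≠ 0 → dual F V i j = V i j) ∧
    ∃ a0 μ : ℝ, dual F V 0 0 = a0 ∧ (∀ i, i ≠ 0 → dual F V i 0 = μ * V i 0) ∧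
      a0 * V 0 0 + μ * (1 - (V 0 0) ^ 2) = 1 ∧ (V 0 0 = 0 → a0 = 0) := by
  have hVF : V ∈ Frame (N+1) (m+1) := by
    show (Vᵀ * V).det ≠ 0
    rw [hV.on, det_one]
    exact one_ne_zero
  have hP := Phi_pos hF hVF
  set a := dual F V with ha
  have haG : ∀ i j, a i j = (Phi F V)⁻¹ * grad F V i j := fun i j => rfl
  have hE : ∀ j j', ∑ i, V i j * a i j' = if j = j' then 1 else 0 := by
    intro j j'
    have h1 : Vᵀ * a = 1 := by
      rw [ha, dual, Matrix.mul_smul, euler' hF hVF, smul_smul, inv_mul_cancel₀ hP.ne', one_smul]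
    have h2 := congrFun (congrFun h1 j) j'
    rw [Matrix.mul_apply, Matrix.one_apply] at h2
    exact h2
  have hO : ∀ j j', ∑ i, V i j * V i j' = if j = j' then 1 else 0 := by
    intro j j'
    have h2 := congrFun (congrFun hV.on j) j'
    rw [Matrix.mul_apply, Matrix.one_apply] at h2
    exact h2
  have hS : ∀ i i', i ≠ 0 → i' ≠ 0 → ∑ l, a i l * V i' l = ∑ l, a i' l * V i l := by
    intro i i' hi hi'
    have h1 := grad_symm hF hA hVF i i' hi hi'
    rw [Matrix.mul_apply, Matrix.mul_apply] at h1
    simp only [transpose_apply] at h1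
    simp only [haG, mul_assoc]
    rw [← Finset.mul_sum, ← Finset.mul_sum, h1]
  have hR : V 0 0 = 0 → ∀ j, a 0 j = 0 := by
    intro h0 j
    have h1 : Rf N * V = V := by
      ext i j
      rw [Rf, diagonal_mul]
      by_cases hi : i = 0
      · rw [hi, if_pos rfl]
        by_cases hj : j = 0
        · rw [hj, h0, mul_zero]
        · rw [hV.zero j hj, mul_zero]
      · rw [if_neg hi, one_mul]
    have h2 := grad_refl hF hA hVF
    rw [h1] at h2
    have h3 := congrFun (congrFun h2 0) j
    rw [Rf, diagonal_mul, if_pos rfl] at h3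
    have h4 : grad F V 0 j = 0 := by linarith
    rw [haG, h4, mul_zero]
  -- the columns `j ≠ 0`
  have hne : ∀ i j, i ≠ 0 → j ≠ 0 → a i j = V i j := by
    intro i j hi hj
    have e1 : a i j = ∑ i', (∑ l, a i l * V i' l) * V i' j := by
      simp only [Finset.sum_mul]
      rw [Finset.sum_comm]
      have : ∀ l, ∑ i', a i l * V i' l * V i' j = a i l * (if l = j then 1 else 0) := by
        intro l
        rw [← hO l j, Finset.mul_sum]
        exact Finset.sum_congr rfl fun i' _ => by ring
      simp only [this, mul_ite, mul_one, mul_zero, Finset.sum_ite_eq', Finset.mem_univ,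
        if_true]
    have e2 : V i j = ∑ i', (∑ l, a i' l * V i l) * V i' j := by
      simp only [Finset.sum_mul]
      rw [Finset.sum_comm]
      have : ∀ l, ∑ i', a i' l * V i l * V i' j = V i l * (if j = l then 1 else 0) := by
        intro l
        rw [← hE j l, Finset.mul_sum]
        exact Finset.sum_congr rfl fun i' _ => by ring
      simp only [this, mul_ite, mul_one, mul_zero, Finset.sum_ite_eq, Finset.mem_univ,
        if_true]
    rw [e1, e2]
    refine Finset.sum_congr rfl fun i' _ => ?_
    by_cases hi' : i' = 0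
    · rw [hi', hV.zero j hj, mul_zero, mul_zero]
    · rw [hS i i' hi hi']
  have hC : ∀ i j, j ≠ 0 → a i j = V i j := by
    intro i j hj
    by_cases hi : i = 0
    · subst hi
      rw [hV.zero j hj]
      by_cases h0 : V 0 0 = 0
      · exact hR h0 j
      · have h1 := hE 0 j
        rw [if_neg (Ne.symm hj), Fin.sum_univ_succ] at h1
        have h2 := hO 0 j
        rw [if_neg (Ne.symm hj), Fin.sum_univ_succ, hV.zero j hj, mul_zero, zero_add] at h2
        have h3 : ∑ i : Fin N, V i.succ 0 * a i.succ j = ∑ i : Fin N, V i.succ 0 * V i.succ j :=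
          Finset.sum_congr rfl fun i _ => by rw [hne _ _ (Fin.succ_ne_zero i) hj]
        rw [h3, h2, add_zero] at h1
        exact (mul_eq_zero.1 h1).resolve_left h0
    · exact hne i j hi hj
  refine ⟨hC, ?_⟩
  -- proportionality of the first column
  have hprop : ∀ i i', i ≠ 0 → i' ≠ 0 → a i 0 * V i' 0 = a i' 0 * V i 0 := by
    intro i i' hi hi'
    have h1 := hS i i' hi hi'
    rw [Fin.sum_univ_succ, Fin.sum_univ_succ] at h1
    have h2 : ∑ l : Fin m, a i l.succ * V i' l.succ = ∑ l : Fin m, a i' l.succ * V i l.succ :=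
      Finset.sum_congr rfl fun l _ => by
        rw [hC _ _ (Fin.succ_ne_zero l), hC _ _ (Fin.succ_ne_zero l), mul_comm]
    rw [h2] at h1
    exact add_right_cancel h1
  have hμ : ∃ μ : ℝ, ∀ i, i ≠ 0 → a i 0 = μ * V i 0 := by
    by_cases h : ∃ i', i' ≠ 0 ∧ V i' 0 ≠ 0
    · obtain ⟨i', hi', h0⟩ := h
      refine ⟨a i' 0 / V i' 0, fun i hi => ?_⟩
      have h1 := hprop i i' hi hi'
      field_simp
      linarith
    · push Not at h
      refine ⟨0, fun i hi => ?_⟩
      rw [zero_mul]
      -- `V 0 0 = 1`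
      have h1 := hO 0 0
      rw [if_pos rfl, Fin.sum_univ_succ] at h1
      have h2 : ∑ i : Fin N, V i.succ 0 * V i.succ 0 = 0 :=
        Finset.sum_eq_zero fun i _ => by rw [h _ (Fin.succ_ne_zero i), mul_zero]
      rw [h2, add_zero] at h1
      have h00 : V 0 0 ≠ 0 := by
        intro h3
        rw [h3, mul_zero] at h1
        exact zero_ne_one h1
      set g : Matrix (Fin (m+1)) (Fin (m+1)) ℝ := diagonal fun j => if j = 0 then -1 else 1 with hg
      have hgd : g.det = -1 := by
        rw [hg, det_diagonal, Fin.prod_univ_succ]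
        simp [Fin.succ_ne_zero]
      have hg0 : g.det ≠ 0 := by
        rw [hgd]
        norm_num
      have hRV : Rf N * V = V * g := by
        ext i j
        rw [Rf, diagonal_mul, hg, mul_diagonal]
        by_cases hi : i = 0
        · by_cases hj : j = 0
          · rw [hi, hj, if_pos rfl, if_pos rfl]
            ring
          · rw [hi, hV.zero j hj]
            ring
        · by_cases hj : j = 0
          · rw [hj, h i hi]
            ring
          · rw [if_neg hi, if_neg hj]
            ring
      have hfr := frame_mul hVF hg0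
      have hAv := Av_eq_of_proj hF hfr hVF (proj_mul V hg0)
      have hPh : Phi F (V * g) = Phi F V := by
        rw [Phi_mul V hg0, hgd]
        norm_num
      have hgr : grad F (V * g) = Rf N * grad F V := by
        rw [← hRV]
        exact grad_refl hF hA hVF
      have hav : ∀ W : Matrix (Fin (N+1)) (Fin (m+1)) ℝ,
          Av F W i 0 = (Phi F W)⁻¹ * ∑ l, grad F W i l * W 0 l := by
        intro W
        rw [Av, Matrix.smul_apply, smul_eq_mul, Matrix.mul_apply]
        rfl
      have h4 : Av F V i 0 = Av F (V * g) i 0 := by rw [hAv]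
      have h5 : ∀ l, (Rf N * grad F V) i l = grad F V i l := by
        intro l
        rw [Rf, diagonal_mul, if_neg hi, one_mul]
      have h6 : ∀ l, (V * g) 0 l = -V 0 l := by
        intro l
        rw [← hRV, Rf, diagonal_mul, if_pos rfl]
        ring
      rw [hav, hav, hPh, hgr] at h4
      simp only [h5, h6] at h4
      have h7 : ∑ l, grad F V i l * -V 0 l = -∑ l, grad F V i l * V 0 l := by
        rw [← Finset.sum_neg_distrib]
        exact Finset.sum_congr rfl fun l _ => by ring
      rw [h7] at h4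
      have h8 : ∑ l, grad F V i l * V 0 l = grad F V i 0 * V 0 0 := by
        rw [Fin.sum_univ_succ]
        have : ∑ l : Fin m, grad F V i l.succ * V 0 l.succ = 0 :=
          Finset.sum_eq_zero fun l _ => by rw [hV.zero _ (Fin.succ_ne_zero l), mul_zero]
        rw [this, add_zero]
      rw [h8] at h4
      have h9 : (Phi F V)⁻¹ * (grad F V i 0 * V 0 0) = 0 := by linarith
      have h10 : (Phi F V)⁻¹ * grad F V i 0 * V 0 0 = 0 := by rw [mul_assoc]; exact h9
      rw [haG]
      exact (mul_eq_zero.1 h10).resolve_right h00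
  obtain ⟨μ, hμ⟩ := hμ
  refine ⟨a 0 0, μ, rfl, hμ, ?_, fun h0 => hR h0 0⟩
  have h1 := hE 0 0
  rw [if_pos rfl, Fin.sum_univ_succ] at h1
  have h2 := hO 0 0
  rw [if_pos rfl, Fin.sum_univ_succ] at h2
  have h3 : ∑ i : Fin N, V i.succ 0 * a i.succ 0 = μ * ∑ i : Fin N, V i.succ 0 * V i.succ 0 := by
    rw [Finset.mul_sum]
    exact Finset.sum_congr rfl fun i _ => by rw [hμ _ (Fin.succ_ne_zero i)]; ring
  rw [h3] at h1
  have h4 : ∑ i : Fin N, V i.succ 0 * V i.succ 0 = 1 - V 0 0 ^ 2 := by linarith
  rw [h4] at h1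
  linarith

end V8H6.GK
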