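import Mathlib
import Pool.Agent.V8H6.GK.AxDefs

/-! part A6 (helper98) -/

namespace V8H6.GK

open Matrix

attribute [local instance] Matrix.normedAddCommGroup Matrix.normedSpace

variable {N m : ℕ} {F : Matrix (Fin (N+1)) (Fin (N+1)) ℝ → ℝ}

namespace A6

theorem proj_of_on {V : Matrix (Fin (N+1)) (Fin (m+1)) ℝ} (h : Vᵀ * V = 1) :
    proj V = V * Vᵀ := by
  unfold proj
  rw [h, inv_one, Matrix.mul_one]

theorem vol_of_on {V : Matrix (Fin (N+1)) (Fin (m+1)) ℝ} (h : Vᵀ * V = 1) : vol V = 1 := by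
  unfold vol
  rw [h, det_one, Real.sqrt_one]

theorem mul_entry (A W : Matrix (Fin (N+1)) (Fin (m+1)) ℝ) (j l : Fin (m+1)) :
    (Aᵀ * W) j l = A 0 j * W 0 l + ∑ i : Fin N, A i.succ j * W i.succ l := by
  rw [Matrix.mul_apply, Fin.sum_univ_succ]
  rfl

theorem proj_entry {V : Matrix (Fin (N+1)) (Fin (m+1)) ℝ} (h : Vᵀ * V = 1)
    (hz : ∀ j, j ≠ 0 → V 0 j = 0) (i : Fin (N+1)) : proj V i 0 = V i 0 * V 0 0 := by
  rw [proj_of_on h, Matrix.mul_apply, Finset.sum_eq_single 0]
  · rfl
  · intro j _ hj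
    rw [transpose_apply, hz j hj, mul_zero]
  · intro h
    exact absurd (Finset.mem_univ _) h

/-- the second frame -/
noncomputable def Wf (V : Matrix (Fin (N+1)) (Fin (m+1)) ℝ) (c κ : ℝ) :
    Matrix (Fin (N+1)) (Fin (m+1)) ℝ :=
  Matrix.of fun i j => if j = 0 then (if i = 0 then c else κ * V i 0) else V i j

theorem W00 (V : Matrix (Fin (N+1)) (Fin (m+1)) ℝ) (c κ : ℝ) : Wf V c κ 0 0 = c := by
  simp [Wf]

theorem Ws0 (V : Matrix (Fin (N+1)) (Fin (m+1)) ℝ) (c κ : ℝ) {i : Fin (N+1)} (hi : i ≠ 0) :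
    Wf V c κ i 0 = κ * V i 0 := by
  simp [Wf, hi]

theorem Wj (V : Matrix (Fin (N+1)) (Fin (m+1)) ℝ) (c κ : ℝ) (i : Fin (N+1)) {j : Fin (m+1)}
    (hj : j ≠ 0) : Wf V c κ i j = V i j := by
  simp [Wf, hj]

end A6

open A6

theorem planar (hF : IsIntegrand (m+1) F) (hA : Axi m F) (hAC : AC (m+1) F)
    {V U : Matrix (Fin (N+1)) (Fin (m+1)) ℝ} (hV : Adapted V) (hU : Adapted U)
    (h1 : V 0 0 < 1) (hU1 : U 0 0 ≤ 1) {ε : ℝ} (hε : ε = 1 ∨ ε = -1)
    (hne : V 0 0 ≠ U 0 0 ∨ (ε = -1 ∧ 0 < V 0 0)) {a0 μ : ℝ} (ha0 : dual F V 0 0 = a0)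
    (hμ : ∀ i, i ≠ 0 → dual F V i 0 = μ * V i 0)
    (hd : ∀ i j, j ≠ 0 → dual F V i j = V i j) :
    |a0 * U 0 0 + ε * μ * (√(1 - (V 0 0) ^ 2) * √(1 - (U 0 0) ^ 2))| * Phi F V < Phi F U := by
  set c := V 0 0 with hc
  set c' := U 0 0 with hc'
  have hc0 : 0 ≤ c := hV.nonneg
  have hc'0 : 0 ≤ c' := hU.nonneg
  have hs2 : 0 < 1 - c ^ 2 := by nlinarith
  have hs2' : 0 ≤ 1 - c' ^ 2 := by nlinarith
  set s := √(1 - c ^ 2) with hs
  set s' := √(1 - c' ^ 2) with hs'
  have hspos : 0 < s := Real.sqrt_pos.2 hs2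
  have hsq : s * s = 1 - c ^ 2 := Real.mul_self_sqrt hs2.le
  have hsq' : s' * s' = 1 - c' ^ 2 := Real.mul_self_sqrt hs2'
  have hεε : ε * ε = 1 := by rcases hε with rfl | rfl <;> norm_num
  set κ := ε * (s' / s) with hκ
  set W := Wf V c' κ with hW
  -- the entries of `Vᵀ V = 1`
  have eV : ∀ j l, V 0 j * V 0 l + ∑ i : Fin N, V i.succ j * V i.succ l =
      (1 : Matrix (Fin (m+1)) (Fin (m+1)) ℝ) j l := by
    intro j l
    rw [← mul_entry, hV.on]
  have e00 : ∑ i : Fin N, V i.succ 0 * V i.succ 0 = 1 - c ^ 2 := by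
    have := eV 0 0
    rw [one_apply_eq] at this
    rw [← hc] at this
    linarith [this, sq c]
  have ejl : ∀ j l, (j ≠ 0 ∨ l ≠ 0) → ∑ i : Fin N, V i.succ j * V i.succ l =
      (1 : Matrix (Fin (m+1)) (Fin (m+1)) ℝ) j l := by
    intro j l h
    have h2 := eV j l
    have h3 : V 0 j * V 0 l = 0 := by
      rcases h with h | h
      · rw [hV.zero j h, zero_mul]
      · rw [hV.zero l h, mul_zero]
    rw [h3, zero_add] at h2
    exact h2
  have hκs : κ * κ * (1 - c ^ 2) = 1 - c' ^ 2 := by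
    rw [hκ, ← hsq, ← hsq']
    have : s ≠ 0 := hspos.ne'
    field_simp
    nlinarith [hεε]
  have hκs2 : κ * (1 - c ^ 2) = ε * (s * s') := by
    rw [hκ, ← hsq]
    have : s ≠ 0 := hspos.ne'
    field_simp
  -- `W` is orthonormal
  have hWon : Wᵀ * W = 1 := by
    ext j l
    rw [mul_entry]
    by_cases hj : j = 0
    · subst hj
      by_cases hl : l = 0
      · subst hl
        rw [one_apply_eq, hW, W00]
        have : ∀ i : Fin N, Wf V c' κ i.succ 0 * Wf V c' κ i.succ 0 =
            κ * κ * (V i.succ 0 * V i.succ 0) := by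
          intro i
          rw [Ws0 V c' κ (Fin.succ_ne_zero i)]
          ring
        rw [Finset.sum_congr rfl (fun i _ => this i), ← Finset.mul_sum, e00, hκs]
        ring
      · rw [one_apply_ne (Ne.symm hl), hW, Wj V c' κ 0 hl, hV.zero l hl, mul_zero, zero_add]
        have : ∀ i : Fin N, Wf V c' κ i.succ 0 * Wf V c' κ i.succ l =
            κ * (V i.succ 0 * V i.succ l) := by
          intro i
          rw [Ws0 V c' κ (Fin.succ_ne_zero i), Wj V c' κ _ hl]
          ring
        rw [Finset.sum_congr rfl (fun i _ => this i), ← Finset.mul_sum, ejl 0 l (Or.inr hl),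
          one_apply_ne (Ne.symm hl), mul_zero]
    · by_cases hl : l = 0
      · subst hl
        rw [one_apply_ne hj, hW, Wj V c' κ 0 hj, hV.zero j hj, zero_mul, zero_add]
        have : ∀ i : Fin N, Wf V c' κ i.succ j * Wf V c' κ i.succ 0 =
            κ * (V i.succ j * V i.succ 0) := by
          intro i
          rw [Ws0 V c' κ (Fin.succ_ne_zero i), Wj V c' κ _ hj]
          ring
        rw [Finset.sum_congr rfl (fun i _ => this i), ← Finset.mul_sum, ejl j 0 (Or.inl hj),
          one_apply_ne hj, mul_zero]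
      · rw [hW, Wj V c' κ 0 hj, hV.zero j hj, zero_mul, zero_add]
        have : ∀ i : Fin N, Wf V c' κ i.succ j * Wf V c' κ i.succ l =
            V i.succ j * V i.succ l := by
          intro i
          rw [Wj V c' κ _ hj, Wj V c' κ _ hl]
        rw [Finset.sum_congr rfl (fun i _ => this i), ejl j l (Or.inl hj)]
  have hWz : ∀ j, j ≠ 0 → W 0 j = 0 := fun j hj => by rw [hW, Wj V c' κ 0 hj, hV.zero j hj]
  have hVF : V ∈ Frame (N+1) (m+1) := st_sub hV.on
  have hUF : U ∈ Frame (N+1) (m+1) := st_sub hU.on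
  have hWF : W ∈ Frame (N+1) (m+1) := st_sub hWon
  have hPV := Phi_pos hF hVF
  -- the planes differ
  have hproj : proj V ≠ proj W := by
    intro heq
    have h00 : c * c = c' * c' := by
      have h2 := congrFun (congrFun heq 0) 0
      rw [proj_entry hV.on hV.zero, proj_entry hWon hWz, hW, W00] at h2
      exact h2
    have hcc : c = c' := (mul_self_inj hc0 hc'0).1 h00
    rcases hne with h | ⟨h, hpos⟩
    · exact h hcc
    · have hss : s' = s := by rw [hs, hs', hcc]
      have hκ1 : κ = -1 := by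
        rw [hκ, h, hss, div_self hspos.ne']
        ring
      have hz : ∀ i : Fin N, V i.succ 0 = 0 := by
        intro i
        have h2 := congrFun (congrFun heq i.succ) 0
        rw [proj_entry hV.on hV.zero, proj_entry hWon hWz, hW,
          Ws0 V c' κ (Fin.succ_ne_zero i), W00, hκ1, ← hcc, ← hc] at h2
        have h3 : V i.succ 0 * c = 0 := by linarith
        rcases mul_eq_zero.1 h3 with h4 | h4
        · exact h4
        · exact absurd h4 hpos.ne'
      have h5 : ∑ i : Fin N, V i.succ 0 * V i.succ 0 = 0 :=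
        Finset.sum_eq_zero fun i _ => by rw [hz i, zero_mul]
      rw [e00] at h5
      exact hs2.ne' h5
  -- the product with the gradient
  have hgrad : grad F V = Phi F V • dual F V := by
    unfold dual
    rw [smul_smul, mul_inv_cancel₀ hPV.ne', one_smul]
  have hdW : (dual F V)ᵀ * W = diagonal (fun j => if j = 0 then a0 * c' + ε * μ * (s * s') else 1) := by
    ext j l
    rw [mul_entry]
    by_cases hj : j = 0
    · subst hj
      by_cases hl : l = 0
      · subst hl
        rw [diagonal_apply_eq, if_pos rfl, ha0, hW, W00]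
        have : ∀ i : Fin N, dual F V i.succ 0 * Wf V c' κ i.succ 0 =
            μ * κ * (V i.succ 0 * V i.succ 0) := by
          intro i
          rw [Ws0 V c' κ (Fin.succ_ne_zero i), hμ _ (Fin.succ_ne_zero i)]
          ring
        rw [Finset.sum_congr rfl (fun i _ => this i), ← Finset.mul_sum, e00, mul_assoc, hκs2]
        ring
      · rw [diagonal_apply_ne _ (Ne.symm hl), hW, Wj V c' κ 0 hl, hV.zero l hl, mul_zero, zero_add]
        have : ∀ i : Fin N, dual F V i.succ 0 * Wf V c' κ i.succ l =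
            μ * (V i.succ 0 * V i.succ l) := by
          intro i
          rw [hμ _ (Fin.succ_ne_zero i), Wj V c' κ _ hl]
          ring
        rw [Finset.sum_congr rfl (fun i _ => this i), ← Finset.mul_sum, ejl 0 l (Or.inr hl),
          one_apply_ne (Ne.symm hl), mul_zero]
    · by_cases hl : l = 0
      · subst hl
        rw [diagonal_apply_ne _ hj, hd 0 j hj, hV.zero j hj, zero_mul, zero_add]
        have : ∀ i : Fin N, dual F V i.succ j * W i.succ 0 =
            κ * (V i.succ j * V i.succ 0) := by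
          intro i
          rw [hW, Ws0 V c' κ (Fin.succ_ne_zero i), hd _ j hj]
          ring
        rw [Finset.sum_congr rfl (fun i _ => this i), ← Finset.mul_sum, ejl j 0 (Or.inl hj),
          one_apply_ne hj, mul_zero]
      · rw [hd 0 j hj, hV.zero j hj, zero_mul, zero_add]
        have : ∀ i : Fin N, dual F V i.succ j * W i.succ l =
            V i.succ j * V i.succ l := by
          intro i
          rw [hd _ j hj, hW, Wj V c' κ _ hl]
        rw [Finset.sum_congr rfl (fun i _ => this i), ejl j l (Or.inl hj)]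
        by_cases hjl : j = l
        · subst hjl
          rw [one_apply_eq, diagonal_apply_eq, if_neg hj]
        · rw [one_apply_ne hjl, diagonal_apply_ne _ hjl]
  have hdet : ((grad F V)ᵀ * W).det = Phi F V ^ (m+1) * (a0 * c' + ε * μ * (s * s')) := by
    rw [hgrad, transpose_smul, smul_mul, hdW, det_smul, Fintype.card_fin, det_diagonal,
      Fin.prod_univ_succ]
    congr 1
    rw [if_pos rfl, Finset.prod_eq_one (fun i _ => by rw [if_neg (Fin.succ_ne_zero i)]), mul_one]
  have hmain := main_frame hF hAC hVF hWF hproj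
  rw [hdet, abs_mul, abs_of_pos (pow_pos hPV (m+1)), mul_assoc] at hmain
  have h2 := lt_of_mul_lt_mul_left hmain (pow_pos hPV (m+1)).le
  have hPW : Phi F W = Phi F U := by
    unfold Phi
    rw [vol_of_on hWon, vol_of_on hU.on, hA W hWF U hUF]
    rw [proj_entry hWon hWz, proj_entry hU.on hU.zero, hW, W00]
  rwa [hPW] at h2

end V8H6.GK
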