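import Mathlib

namespace V8H6.GK

open Matrix

theorem bessel {M q : ℕ} {O : Matrix (Fin M) (Fin q) ℝ} (hO : Oᵀ * O = 1) {τ : Fin M → ℝ}
    (hτ : ∀ j, ∑ i, O i j * τ i = 0) (v : Fin M → ℝ) :
    (∑ i, τ i * τ i) * (∑ j, (∑ i, O i j * v i) ^ 2) + (∑ i, τ i * v i) ^ 2 ≤
      (∑ i, τ i * τ i) * (∑ i, v i * v i) := by
  set c : Fin q → ℝ := fun j => ∑ i, O i j * v i with hc
  set T := ∑ i, τ i * τ i with hT
  set s := ∑ i, τ i * v i with hs
  have hT0 : 0 ≤ T := Finset.sum_nonneg fun i _ => mul_self_nonneg _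
  -- `O c`
  have hOO : ∀ j k, ∑ i, O i j * O i k = if j = k then 1 else 0 := by
    intro j k
    have := congrFun (congrFun hO j) k
    simpa [Matrix.mul_apply, Matrix.one_apply] using this
  have h1 : ∀ w : Fin M → ℝ, ∑ i, (∑ j, O i j * c j) * w i = ∑ j, c j * ∑ i, O i j * w i := by
    intro w
    simp only [Finset.sum_mul, Finset.mul_sum]
    rw [Finset.sum_comm]
    exact Finset.sum_congr rfl fun j _ => Finset.sum_congr rfl fun i _ => by ring
  have h2 : ∀ j, ∑ i, O i j * (∑ k, O i k * c k) = c j := by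
    intro j
    simp only [Finset.mul_sum]
    rw [Finset.sum_comm]
    have : ∀ k, ∑ i, O i j * (O i k * c k) = (if j = k then 1 else 0) * c k := by
      intro k
      rw [← hOO j k, Finset.sum_mul]
      exact Finset.sum_congr rfl fun i _ => by ring
    simp [this]
  have h3 : ∑ i, (∑ j, O i j * c j) * v i = ∑ j, c j ^ 2 := by
    rw [h1]; exact Finset.sum_congr rfl fun j _ => by simp only [hc]; ring
  have h4 : ∑ i, (∑ j, O i j * c j) * τ i = 0 := by
    rw [h1]; simp [hτ]
  have h5 : ∑ i, (∑ j, O i j * c j) * (∑ j, O i j * c j) = ∑ j, c j ^ 2 := by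
    rw [h1]; exact Finset.sum_congr rfl fun j _ => by rw [h2]; ring
  rcases hT0.eq_or_lt with h0 | h0
  · have hz : ∀ i, τ i = 0 := by
      intro i
      have := (Finset.sum_eq_zero_iff_of_nonneg (fun i _ => mul_self_nonneg (τ i))).1 h0.symm i
        (Finset.mem_univ i)
      simpa using this
    have : s = 0 := by simp [hs, hz]
    rw [this, ← h0]; simp
  · have key : 0 ≤ ∑ i, (T * v i - T * (∑ j, O i j * c j) - s * τ i) ^ 2 :=
      Finset.sum_nonneg fun i _ => sq_nonneg _
    have hex : ∑ i, (T * v i - T * (∑ j, O i j * c j) - s * τ i) ^ 2 =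
        T ^ 2 * (∑ i, v i * v i) + T ^ 2 * (∑ i, (∑ j, O i j * c j) * (∑ j, O i j * c j)) +
          s ^ 2 * (∑ i, τ i * τ i) - 2 * T ^ 2 * (∑ i, (∑ j, O i j * c j) * v i) -
          2 * T * s * (∑ i, τ i * v i) + 2 * T * s * (∑ i, (∑ j, O i j * c j) * τ i) := by
      simp only [Finset.mul_sum (a := T ^ 2), Finset.mul_sum (a := s ^ 2),
        Finset.mul_sum (a := 2 * T ^ 2), Finset.mul_sum (a := 2 * T * s),
        ← Finset.sum_add_distrib, ← Finset.sum_sub_distrib]
      exact Finset.sum_congr rfl fun i _ => by ring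
    rw [hex, h3, h4, h5, ← hT, ← hs] at key
    have : 0 ≤ T * (T * (∑ i, v i * v i) - T * (∑ j, c j ^ 2) - s ^ 2) := by nlinarith [key]
    have := nonneg_of_mul_nonneg_right this h0
    linarith

end V8H6.GK
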