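import Mathlib
import Pool.Agent.V8H6.GK.AxDefs
import Pool.Agent.V8H6.GK.A5

namespace V8H6.GK

open Matrix

attribute [local instance] Matrix.normedAddCommGroup Matrix.normedSpace

variable {N m : ℕ} {F : Matrix (Fin (N+1)) (Fin (N+1)) ℝ → ℝ}

/-- `x` -/
noncomputable def gx (V U : Matrix (Fin (N+1)) (Fin (m+1)) ℝ) : ℝ :=
  ∑ i : Fin m, ((Vᵀ * U) i.succ 0) ^ 2

/-- `S` -/
noncomputable def gS (V U : Matrix (Fin (N+1)) (Fin (m+1)) ℝ) : ℝ :=
  ∑ i : Fin m, ∑ j : Fin m, ((Vᵀ * U) i.succ j.succ) ^ 2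

/-- `ρ` -/
noncomputable def gr (V U : Matrix (Fin (N+1)) (Fin (m+1)) ℝ) : ℝ :=
  (Vᵀ * U) 0 0 - V 0 0 * U 0 0

theorem gram_swap (V U : Matrix (Fin (N+1)) (Fin (m+1)) ℝ) (i j : Fin (m+1)) :
    (Uᵀ * V) j i = (Vᵀ * U) i j := by
  rw [Matrix.mul_apply, Matrix.mul_apply]
  refine Finset.sum_congr rfl fun l _ => ?_
  rw [transpose_apply, transpose_apply, mul_comm]

theorem gS_swap (V U : Matrix (Fin (N+1)) (Fin (m+1)) ℝ) : gS U V = gS V U := by
  unfold gS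
  rw [Finset.sum_comm]
  refine Finset.sum_congr rfl fun i _ => Finset.sum_congr rfl fun j _ => ?_
  rw [gram_swap]

theorem gr_swap (V U : Matrix (Fin (N+1)) (Fin (m+1)) ℝ) : gr U V = gr V U := by
  unfold gr
  rw [gram_swap V U 0 0, mul_comm (U 0 0)]

theorem gx_swap (V U : Matrix (Fin (N+1)) (Fin (m+1)) ℝ) :
    gx U V = ∑ j : Fin m, ((Vᵀ * U) 0 j.succ) ^ 2 := by
  unfold gx
  refine Finset.sum_congr rfl fun j _ => ?_
  rw [gram_swap]

/-- the tangential part of the first column -/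
def ta (U : Matrix (Fin (N+1)) (Fin (m+1)) ℝ) : Fin (N+1) → ℝ := fun l => if l = 0 then 0 else U l 0

theorem sum_ta (U : Matrix (Fin (N+1)) (Fin (m+1)) ℝ) (f : Fin (N+1) → ℝ) :
    ∑ l, ta U l * f l = ∑ l, U l 0 * f l - U 0 0 * f 0 := by
  rw [Fin.sum_univ_succ, Fin.sum_univ_succ]
  simp [ta, Fin.succ_ne_zero]

theorem col_orth {V : Matrix (Fin (N+1)) (Fin (m+1)) ℝ} (hV : Adapted V) (i j : Fin (m+1)) :
    ∑ l, V l i * V l j = if i = j then 1 else 0 := by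
  have h := congrFun (congrFun hV.on i) j
  rw [Matrix.mul_apply, one_apply] at h
  exact h

theorem ta_norm {U : Matrix (Fin (N+1)) (Fin (m+1)) ℝ} (hU : Adapted U) :
    ∑ l, ta U l * ta U l = 1 - (U 0 0) ^ 2 := by
  rw [sum_ta]
  have h1 : ∑ l, U l 0 * ta U l = ∑ l, ta U l * U l 0 :=
    Finset.sum_congr rfl fun l _ => mul_comm _ _
  rw [h1, sum_ta, col_orth hU 0 0]
  simp [ta]
  ring

theorem pack {V U : Matrix (Fin (N+1)) (Fin (m+1)) ℝ} (hV : Adapted V) (hU : Adapted U) :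
    (1 - (U 0 0) ^ 2) * gS V U + gx V U ≤ m * (1 - (U 0 0) ^ 2) ∧ gS V U ≤ m ∧
    (1 - (V 0 0) ^ 2) * gx V U + (gr V U) ^ 2 ≤ (1 - (V 0 0) ^ 2) * (1 - (U 0 0) ^ 2) ∧
    gx V U ≤ 1 - (U 0 0) ^ 2 := by
  have hO : ∀ {W : Matrix (Fin (N+1)) (Fin (m+1)) ℝ}, Adapted W →
      (W.submatrix id Fin.succ)ᵀ * (W.submatrix id Fin.succ) = 1 := by
    intro W hW
    ext i j
    rw [Matrix.mul_apply, one_apply]
    have h := col_orth hW i.succ j.succ
    simp only [Fin.succ_inj] at h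
    exact h
  have hOt : ∀ {W : Matrix (Fin (N+1)) (Fin (m+1)) ℝ}, Adapted W → ∀ j : Fin m,
      ∑ i, (W.submatrix id Fin.succ) i j * ta W i = 0 := by
    intro W hW j
    have h1 : ∑ i, (W.submatrix id Fin.succ) i j * ta W i = ∑ l, ta W l * W l j.succ :=
      Finset.sum_congr rfl fun l _ => mul_comm _ _
    rw [h1, sum_ta, col_orth hW 0 j.succ, hW.zero _ (Fin.succ_ne_zero j)]
    simp [(Fin.succ_ne_zero j).symm]
  have hOe : ∀ {W : Matrix (Fin (N+1)) (Fin (m+1)) ℝ}, Adapted W → ∀ j : Fin m,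
      ∑ i, (W.submatrix id Fin.succ) i j * (Pi.single 0 1 : Fin (N+1) → ℝ) i = 0 := by
    intro W hW j
    rw [Fin.sum_univ_succ]
    simp [hW.zero _ (Fin.succ_ne_zero j)]
  have he : ∑ i, (Pi.single 0 1 : Fin (N+1) → ℝ) i * (Pi.single 0 1 : Fin (N+1) → ℝ) i = 1 := by
    rw [Fin.sum_univ_succ]
    simp
  have hgi : ∀ i : Fin m, (1 - (U 0 0) ^ 2) * (∑ j : Fin m, ((Vᵀ * U) i.succ j.succ) ^ 2) +
      ((Vᵀ * U) i.succ 0) ^ 2 ≤ 1 - (U 0 0) ^ 2 := by
    intro i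
    have h := bessel (hO hU) (hOt hU) (fun l => V l i.succ)
    rw [ta_norm hU, sum_ta, col_orth hV i.succ i.succ, if_pos rfl,
      hV.zero _ (Fin.succ_ne_zero i), mul_zero, sub_zero, mul_one] at h
    have e1 : ∑ l, U l 0 * V l i.succ = (Vᵀ * U) i.succ 0 := by
      rw [Matrix.mul_apply]
      exact Finset.sum_congr rfl fun l _ => mul_comm _ _
    have e2 : ∀ j : Fin m, ∑ l, (U.submatrix id Fin.succ) l j * V l i.succ =
        (Vᵀ * U) i.succ j.succ := by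
      intro j
      rw [Matrix.mul_apply]
      exact Finset.sum_congr rfl fun l _ => mul_comm _ _
    simp only [e2] at h
    rw [e1] at h
    exact h
  have hgi0 : ∀ i : Fin m, ∑ j : Fin m, ((Vᵀ * U) i.succ j.succ) ^ 2 ≤ 1 := by
    intro i
    have h := bessel (hO hU) (hOe hU) (fun l => V l i.succ)
    rw [he, col_orth hV i.succ i.succ, if_pos rfl, one_mul, mul_one] at h
    have e2 : ∀ j : Fin m, ∑ l, (U.submatrix id Fin.succ) l j * V l i.succ =
        (Vᵀ * U) i.succ j.succ := by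
      intro j
      rw [Matrix.mul_apply]
      exact Finset.sum_congr rfl fun l _ => mul_comm _ _
    simp only [e2] at h
    have h3 := sq_nonneg (∑ i_1, (Pi.single 0 1 : Fin (N+1) → ℝ) i_1 * V i_1 i.succ)
    linarith
  have hv : ∀ j : Fin m, ∑ l, (V.submatrix id Fin.succ) l j * ta U l = (Vᵀ * U) j.succ 0 := by
    intro j
    have h1 : ∑ l, (V.submatrix id Fin.succ) l j * ta U l = ∑ l, ta U l * V l j.succ :=
      Finset.sum_congr rfl fun l _ => mul_comm _ _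
    rw [h1, sum_ta, hV.zero _ (Fin.succ_ne_zero j), mul_zero, sub_zero, Matrix.mul_apply]
    exact Finset.sum_congr rfl fun l _ => mul_comm _ _
  refine ⟨?_, ?_, ?_, ?_⟩
  · have h := Finset.sum_le_sum fun (i : Fin m) (_ : i ∈ Finset.univ) => hgi i
    rw [Finset.sum_add_distrib, ← Finset.mul_sum, Finset.sum_const, Finset.card_univ,
      Fintype.card_fin, nsmul_eq_mul] at h
    exact h
  · have h := Finset.sum_le_sum fun (i : Fin m) (_ : i ∈ Finset.univ) => hgi0 i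
    rw [Finset.sum_const, Finset.card_univ, Fintype.card_fin, nsmul_eq_mul, mul_one] at h
    exact h
  · have h := bessel (hO hV) (hOt hV) (ta U)
    simp only [hv] at h
    rw [ta_norm hV, ta_norm hU, sum_ta] at h
    have e1 : ∑ l, V l 0 * ta U l - V 0 0 * ta U 0 = gr V U := by
      have h1 : ∑ l, V l 0 * ta U l = ∑ l, ta U l * V l 0 :=
        Finset.sum_congr rfl fun l _ => mul_comm _ _
      rw [h1, sum_ta]
      have h2 : ∑ l, U l 0 * V l 0 = (Vᵀ * U) 0 0 := by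
        rw [Matrix.mul_apply]
        exact Finset.sum_congr rfl fun l _ => mul_comm _ _
      rw [h2]
      simp [ta, gr]
      ring
    rw [e1] at h
    exact h
  · have h := bessel (hO hV) (hOe hV) (ta U)
    simp only [hv] at h
    rw [he, ta_norm hU, one_mul, one_mul] at h
    have h3 := sq_nonneg (∑ i, (Pi.single 0 1 : Fin (N+1) → ℝ) i * ta U i)
    have h4 : gx V U = ∑ j : Fin m, ((Vᵀ * U) j.succ 0) ^ 2 := rfl
    rw [h4]
    linarith

theorem tr_formula {V U : Matrix (Fin (N+1)) (Fin (m+1)) ℝ} (hV : Adapted V) (hU : Adapted U)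
    {A B : Matrix (Fin (N+1)) (Fin (m+1)) ℝ} {a0 μ b0 ν : ℝ}
    (hA : ∀ i j, j ≠ 0 → A i j = V i j) (hA0 : A 0 0 = a0) (hA1 : ∀ i, i ≠ 0 → A i 0 = μ * V i 0)
    (hB : ∀ i j, j ≠ 0 → B i j = U i j) (hB0 : B 0 0 = b0) (hB1 : ∀ i, i ≠ 0 → B i 0 = ν * U i 0) :
    (A * Vᵀ * (B * Uᵀ)).trace = (a0 * U 0 0 + μ * gr V U) * (b0 * V 0 0 + ν * gr V U) +
      ν * gx V U + μ * gx U V + gS V U := by
  have h : (A * Vᵀ * (B * Uᵀ)).trace = ((Vᵀ * B) * (Uᵀ * A)).trace := by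
    rw [Matrix.mul_assoc, trace_mul_comm]
    simp only [Matrix.mul_assoc]
  have key : ∀ {V U A : Matrix (Fin (N+1)) (Fin (m+1)) ℝ} {a0 μ : ℝ}, Adapted U →
      (∀ i j, j ≠ 0 → A i j = V i j) → A 0 0 = a0 → (∀ i, i ≠ 0 → A i 0 = μ * V i 0) →
      ((Uᵀ * A) 0 0 = a0 * U 0 0 + μ * gr V U) ∧
      (∀ j : Fin m, (Uᵀ * A) j.succ 0 = μ * (Vᵀ * U) 0 j.succ) ∧
      (∀ j : Fin (m+1), ∀ i : Fin m, (Uᵀ * A) j i.succ = (Vᵀ * U) i.succ j) := by
    intro V U A a0 μ hU hA hA0 hA1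
    refine ⟨?_, ?_, ?_⟩
    · unfold gr
      rw [Matrix.mul_apply, Matrix.mul_apply, Fin.sum_univ_succ, Fin.sum_univ_succ]
      simp only [transpose_apply, hA0, hA1 _ (Fin.succ_ne_zero _)]
      rw [add_sub_cancel_left, Finset.mul_sum, mul_comm (U 0 0) a0]
      congr 1
      refine Finset.sum_congr rfl fun l _ => ?_
      ring
    · intro j
      rw [Matrix.mul_apply, Matrix.mul_apply, Fin.sum_univ_succ, Fin.sum_univ_succ]
      simp only [transpose_apply, hA1 _ (Fin.succ_ne_zero _), hU.zero _ (Fin.succ_ne_zero j)]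
      rw [zero_mul, mul_zero, zero_add, zero_add, Finset.mul_sum]
      refine Finset.sum_congr rfl fun l _ => ?_
      ring
    · intro j i
      rw [Matrix.mul_apply, Matrix.mul_apply]
      refine Finset.sum_congr rfl fun l _ => ?_
      rw [transpose_apply, transpose_apply, hA _ _ (Fin.succ_ne_zero i), mul_comm]
  obtain ⟨k1, k2, k3⟩ := key hU hA hA0 hA1
  obtain ⟨l1, l2, l3⟩ := key hV hB hB0 hB1
  rw [h, Matrix.trace, Fin.sum_univ_succ]
  simp only [diag_apply]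
  rw [Matrix.mul_apply, Fin.sum_univ_succ]
  have e1 : ∀ i : Fin m, ((Vᵀ * B) * (Uᵀ * A)) i.succ i.succ =
      ν * ((Vᵀ * U) i.succ 0) ^ 2 + ∑ j : Fin m, ((Vᵀ * U) i.succ j.succ) ^ 2 := by
    intro i
    rw [Matrix.mul_apply, Fin.sum_univ_succ, l2, k3, gram_swap V U]
    congr 1
    · ring
    · refine Finset.sum_congr rfl fun j _ => ?_
      rw [l3, k3, gram_swap V U]
      ring
  have e2 : ∀ j : Fin m, (Vᵀ * B) 0 j.succ * (Uᵀ * A) j.succ 0 =
      μ * ((Vᵀ * U) 0 j.succ) ^ 2 := by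
    intro j
    rw [l3, k2, gram_swap V U]
    ring
  simp only [e1, e2]
  rw [Finset.sum_add_distrib, ← Finset.mul_sum, ← Finset.mul_sum, k1, l1, gr_swap V U, gx_swap V U]
  unfold gx gS
  ring

end V8H6.GK
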