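import Mathlib
import Pool.Agent.V8H6.GK.A7
import Pool.Agent.V8H6.GK.A6

namespace V8H6.GK

open Matrix

attribute [local instance] Matrix.normedAddCommGroup Matrix.normedSpace

variable {N m : ℕ} {F : Matrix (Fin (N+1)) (Fin (N+1)) ℝ → ℝ}

theorem real_key {α α' M κ X X' S n : ℝ} (h0 : 0 ≤ α) (h1 : α ≤ 1) (h0' : 0 ≤ α') (h1' : α' ≤ 1)
    (hX : 0 ≤ X) (hX' : 0 ≤ X') (hXk : X + κ ^ 2 ≤ 1) (hXk' : X' + κ ^ 2 ≤ 1)
    (hS : S + X ≤ n) (hS' : S + X' ≤ n) :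
    α * α' + κ * M + (1 - α) * (1 - α') * κ ^ 2 + (1 - α) * X' + (1 - α') * X + S ≤
      n + κ * M + α * α' + (1 - α) * (1 - α') := by
  have hb : 0 ≤ 1 - α := by linarith
  have hb' : 0 ≤ 1 - α' := by linarith
  have hbb : 0 ≤ (1 - α) * (1 - α') := mul_nonneg hb hb'
  have haa : 0 ≤ α * α' := mul_nonneg h0 h0'
  rcases le_total X X' with h | h
  · have a1 : (1 - α') * X ≤ (1 - α') * X' := mul_le_mul_of_nonneg_left h hb'
    have a2 : 0 ≤ α * α' * X' := mul_nonneg haa hX'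
    have a3 : (1 - α) * (1 - α') * X' ≤ (1 - α) * (1 - α') * (1 - κ ^ 2) :=
      mul_le_mul_of_nonneg_left (by linarith) hbb
    nlinarith
  · have a1 : (1 - α) * X' ≤ (1 - α) * X := mul_le_mul_of_nonneg_left h hb
    have a2 : 0 ≤ α * α' * X := mul_nonneg haa hX
    have a3 : (1 - α) * (1 - α') * X ≤ (1 - α) * (1 - α') * (1 - κ ^ 2) :=
      mul_le_mul_of_nonneg_left (by linarith) hbb
    nlinarith

theorem proj_adapted {V : Matrix (Fin (N+1)) (Fin (m+1)) ℝ} (hV : Adapted V) :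
    proj V = V * Vᵀ := by
  unfold proj
  rw [hV.on, inv_one, Matrix.mul_one]

theorem adapted_frame {V : Matrix (Fin (N+1)) (Fin (m+1)) ℝ} (hV : Adapted V) :
    V ∈ Frame (N+1) (m+1) := st_sub hV.on

/-- distance between projections -/
theorem tr_proj_lt {V U : Matrix (Fin (N+1)) (Fin (m+1)) ℝ} (hV : Adapted V) (hU : Adapted U)
    (hne : proj V ≠ proj U) :
    ((Vᵀ * U) 0 0) ^ 2 + gx V U + gx U V + gS V U < m + 1 := by
  rw [proj_adapted hV, proj_adapted hU] at hne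
  set D := V * Vᵀ - U * Uᵀ with hD
  have hD0 : D ≠ 0 := sub_ne_zero.2 hne
  have hpos : 0 < (Dᵀ * D).trace := by
    have h1 : (Dᵀ * D).trace = ∑ j, ∑ i, D i j ^ 2 := by
      simp only [trace, diag_apply, Matrix.mul_apply, transpose_apply, sq]
    rw [h1]
    obtain ⟨i, j, hij⟩ : ∃ i j, D i j ≠ 0 := by
      by_contra hcon
      push Not at hcon
      exact hD0 (by ext i j; exact hcon i j)
    refine Finset.sum_pos' (fun j _ => Finset.sum_nonneg fun i _ => sq_nonneg _)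
      ⟨j, Finset.mem_univ _, ?_⟩
    exact Finset.sum_pos' (fun i _ => sq_nonneg _) ⟨i, Finset.mem_univ _, by positivity⟩
  have hexp : (Dᵀ * D).trace = 2 * ((m : ℝ) + 1) - 2 * (V * Vᵀ * (U * Uᵀ)).trace := by
    have hDt : Dᵀ = D := by
      rw [hD, transpose_sub, transpose_mul, transpose_mul, transpose_transpose,
        transpose_transpose]
    have hVV : V * Vᵀ * (V * Vᵀ) = V * Vᵀ := by
      rw [Matrix.mul_assoc, ← Matrix.mul_assoc Vᵀ, hV.on, Matrix.one_mul]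
    have hUU : U * Uᵀ * (U * Uᵀ) = U * Uᵀ := by
      rw [Matrix.mul_assoc, ← Matrix.mul_assoc Uᵀ, hU.on, Matrix.one_mul]
    have t1 : (V * Vᵀ).trace = (m : ℝ) + 1 := by
      rw [trace_mul_comm, hV.on, trace_one, Fintype.card_fin]
      push_cast
      ring
    have t2 : (U * Uᵀ).trace = (m : ℝ) + 1 := by
      rw [trace_mul_comm, hU.on, trace_one, Fintype.card_fin]
      push_cast
      ring
    rw [hDt, hD, sub_mul, mul_sub, mul_sub, hVV, hUU, trace_sub, trace_sub, trace_sub, t1, t2,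
      trace_mul_comm (U * Uᵀ) (V * Vᵀ)]
    ring
  have htr : (V * Vᵀ * (U * Uᵀ)).trace =
      ((Vᵀ * U) 0 0) ^ 2 + gx V U + gx U V + gS V U := by
    rw [tr_formula hV hU (A := V) (B := U) (a0 := V 0 0) (b0 := U 0 0) (μ := 1) (ν := 1)
      (fun _ _ _ => rfl) rfl (fun _ _ => (one_mul _).symm) (fun _ _ _ => rfl) rfl
      (fun _ _ => (one_mul _).symm)]
    unfold gr
    ring
  rw [hexp, htr] at hpos
  linarith

theorem Av_dual (V : Matrix (Fin (N+1)) (Fin (m+1)) ℝ) : Av F V = dual F V * Vᵀ := by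
  unfold Av dual
  rw [smul_mul]

theorem le_one_of_adapted {V : Matrix (Fin (N+1)) (Fin (m+1)) ℝ} (hV : Adapted V) :
    V 0 0 ≤ 1 := by
  have h := ta_norm hV
  have h2 : 0 ≤ ∑ l, ta V l * ta V l := Finset.sum_nonneg fun l _ => mul_self_nonneg _
  rw [h] at h2
  have h0 := hV.nonneg
  nlinarith

/-- the number `α` -/
theorem alpha_mem (hF : IsIntegrand (m+1) F) (hA : Axi m F) (hAC : AC (m+1) F)
    {V : Matrix (Fin (N+1)) (Fin (m+1)) ℝ} (hV : Adapted V) {a0 μ : ℝ}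
    (hd : ∀ i j, j ≠ 0 → dual F V i j = V i j) (ha0 : dual F V 0 0 = a0)
    (hμ : ∀ i, i ≠ 0 → dual F V i 0 = μ * V i 0)
    (h1 : a0 * V 0 0 + μ * (1 - (V 0 0) ^ 2) = 1) (h2 : V 0 0 = 0 → a0 = 0) :
    0 ≤ a0 * V 0 0 ∧ a0 * V 0 0 ≤ 1 ∧ (0 < V 0 0 → V 0 0 < 1 →
      0 < a0 * V 0 0 ∧ a0 * V 0 0 < 1) := by
  have key : 0 < V 0 0 → V 0 0 < 1 → 0 < a0 * V 0 0 ∧ a0 * V 0 0 < 1 := by
    intro hc hc1
    have hs : 0 < 1 - (V 0 0) ^ 2 := by nlinarith
    have h3 := planar hF hA hAC hV hV hc1 hc1.le (ε := -1) (Or.inr rfl) (Or.inr ⟨rfl, hc⟩)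
      ha0 hμ hd
    rw [Real.mul_self_sqrt hs.le] at h3
    have hP := Phi_pos hF (adapted_frame hV)
    have h4 : |a0 * V 0 0 + -1 * μ * (1 - (V 0 0) ^ 2)| < 1 := by
      by_contra hcon
      push Not at hcon
      have := mul_le_mul_of_nonneg_right hcon hP.le
      linarith
    have h5 := abs_lt.1 h4
    constructor
    · nlinarith [h5.1]
    · nlinarith [h5.2]
  rcases hV.nonneg.lt_or_eq with hc | hc
  · rcases (le_one_of_adapted hV).lt_or_eq with hc1 | hc1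
    · have h3 := key hc hc1
      exact ⟨h3.1.le, h3.2.le, key⟩
    · have h3 : a0 * V 0 0 = 1 := by
        rw [hc1] at h1 ⊢
        linarith
      exact ⟨by rw [h3]; norm_num, h3.le, key⟩
  · have h3 : a0 * V 0 0 = 0 := by rw [← hc, mul_zero]
    exact ⟨h3.ge, by rw [h3]; norm_num, key⟩

end V8H6.GK
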