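import Mathlib
import Pool.Agent.V8H6.GK.A8

namespace V8H6.GK

/-- degenerate case -/
theorem final_deg {c c' a0 μ b0 ν r x y S n : ℝ}
    (hc : c = 0 ∨ c = 1) (hc0' : 0 ≤ c') (hc1' : c' ≤ 1)
    (h1 : a0 * c + μ * (1 - c ^ 2) = 1) (h1' : b0 * c' + ν * (1 - c' ^ 2) = 1)
    (h2 : c = 0 → a0 = 0) (h2' : c' = 0 → b0 = 0)
    (be0 : 0 ≤ b0 * c') (be1 : b0 * c' ≤ 1)
    (be : 0 < c' → c' < 1 → 0 < b0 * c' ∧ b0 * c' < 1)
    (x0 : 0 ≤ x) (y0 : 0 ≤ y)
    (pa1 : (1 - c' ^ 2) * S + x ≤ n * (1 - c' ^ 2)) (pa2 : S ≤ n)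
    (pa3 : (1 - c ^ 2) * x + r ^ 2 ≤ (1 - c ^ 2) * (1 - c' ^ 2)) (pa4 : x ≤ 1 - c' ^ 2)
    (pb1 : (1 - c ^ 2) * S + y ≤ n * (1 - c ^ 2)) (pb4 : y ≤ 1 - c ^ 2)
    (htp : (r + c * c') ^ 2 + x + y + S < n + 1) :
    (a0 * c' + μ * r) * (b0 * c + ν * r) + ν * x + μ * y + S < n + 1 := by
  rcases hc with rfl | rfl
  · have ha0 := h2 rfl
    subst ha0
    have hμ : μ = 1 := by linarith
    subst hμ
    rcases hc0'.lt_or_eq with hp | hp
    · have hβ : ν * (r ^ 2 + x) < 1 := by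
        rcases hc1'.lt_or_eq with hq | hq
        · have hs : 0 < 1 - c' ^ 2 := by nlinarith
          have hν : 0 ≤ ν := by
            have : 0 ≤ ν * (1 - c' ^ 2) := by linarith
            exact nonneg_of_mul_nonneg_left this hs
          have h3 : ν * (r ^ 2 + x) ≤ ν * (1 - c' ^ 2) :=
            mul_le_mul_of_nonneg_left (by linarith) hν
          have h4 := (be hp hq).1
          linarith
        · subst hq
          have hx : x = 0 := by linarith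
          have hr : r ^ 2 = 0 := by
            have := sq_nonneg r
            nlinarith
          rw [hx, hr]
          norm_num
      nlinarith
    · subst hp
      have hb0 := h2' rfl
      subst hb0
      have hν : ν = 1 := by linarith
      subst hν
      nlinarith
  · have ha0 : a0 = 1 := by linarith
    subst ha0
    have hy : y = 0 := by linarith
    subst hy
    have hr2 : r ^ 2 = 0 := by
      have := sq_nonneg r
      nlinarith
    have hr : r = 0 := by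
      exact pow_eq_zero_iff (two_ne_zero) |>.1 hr2
    subst hr
    rcases hc1'.lt_or_eq with hq | hq
    · rcases hc0'.lt_or_eq with hp | hp
      · have hs : 0 < 1 - c' ^ 2 := by nlinarith
        have hb := be hp hq
        obtain ⟨X, hX⟩ : ∃ X, x = (1 - c' ^ 2) * X := ⟨x / (1 - c' ^ 2), by field_simp⟩
        subst hX
        have hX0 : 0 ≤ X := nonneg_of_mul_nonneg_right x0 hs
        have hX1 : S + X ≤ n := by
          have h5 : (1 - c' ^ 2) * (S + X) ≤ (1 - c' ^ 2) * n := by linarith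
          exact le_of_mul_le_mul_left h5 hs
        have h60 : ν * (1 - c' ^ 2) = 1 - b0 * c' := by linarith
        have h6 : ν * ((1 - c' ^ 2) * X) = (1 - b0 * c') * X := by
          rw [← h60]
          ring
        nlinarith
      · subst hp
        have hb0 := h2' rfl
        subst hb0
        have hν : ν = 1 := by linarith
        subst hν
        nlinarith
    · subst hq
      have hx : x = 0 := by linarith
      subst hx
      have hb0 : b0 = 1 := by linarith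
      subst hb0
      nlinarith

theorem final_real {c c' a0 μ b0 ν r x y S n : ℝ}
    (hc0 : 0 ≤ c) (hc1 : c ≤ 1) (hc0' : 0 ≤ c') (hc1' : c' ≤ 1)
    (h1 : a0 * c + μ * (1 - c ^ 2) = 1) (h1' : b0 * c' + ν * (1 - c' ^ 2) = 1)
    (h2 : c = 0 → a0 = 0) (h2' : c' = 0 → b0 = 0)
    (al0 : 0 ≤ a0 * c) (al1 : a0 * c ≤ 1)
    (al : 0 < c → c < 1 → 0 < a0 * c ∧ a0 * c < 1)
    (be0 : 0 ≤ b0 * c') (be1 : b0 * c' ≤ 1)
    (be : 0 < c' → c' < 1 → 0 < b0 * c' ∧ b0 * c' < 1)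
    (x0 : 0 ≤ x) (y0 : 0 ≤ y)
    (pa1 : (1 - c' ^ 2) * S + x ≤ n * (1 - c' ^ 2)) (pa2 : S ≤ n)
    (pa3 : (1 - c ^ 2) * x + r ^ 2 ≤ (1 - c ^ 2) * (1 - c' ^ 2)) (pa4 : x ≤ 1 - c' ^ 2)
    (pb1 : (1 - c ^ 2) * S + y ≤ n * (1 - c ^ 2))
    (pb3 : (1 - c' ^ 2) * y + r ^ 2 ≤ (1 - c' ^ 2) * (1 - c ^ 2)) (pb4 : y ≤ 1 - c ^ 2)
    (htp : (r + c * c') ^ 2 + x + y + S < n + 1)
    (hpl : 0 < c → c < 1 → 0 < c' → c' < 1 → c ≠ c' →
      a0 * c * (b0 * c') + (1 - a0 * c) * (1 - b0 * c') +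
        |√(1 - c ^ 2) * √(1 - c' ^ 2) * (a0 * c' * ν + μ * b0 * c)| < 1) :
    (a0 * c' + μ * r) * (b0 * c + ν * r) + ν * x + μ * y + S < n + 1 := by
  by_cases hdeg : c = 0 ∨ c = 1
  · exact final_deg hdeg hc0' hc1' h1 h1' h2 h2' be0 be1 be x0 y0 pa1 pa2 pa3 pa4 pb1 pb4 htp
  by_cases hdeg' : c' = 0 ∨ c' = 1
  · have h := final_deg (n := n) (S := S) (x := y) (y := x) (r := r) hdeg' hc0 hc1 h1' h1 h2' h2
      al0 al1 al y0 x0 pb1 pa2 pb3 pb4 pa1 pa4 (by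
        have e : (r + c' * c) ^ 2 + y + x + S = (r + c * c') ^ 2 + x + y + S := by ring
        rw [e]
        exact htp)
    have e : (a0 * c' + μ * r) * (b0 * c + ν * r) + ν * x + μ * y + S =
        (b0 * c + ν * r) * (a0 * c' + μ * r) + μ * y + ν * x + S := by ring
    rw [e]
    exact h
  push Not at hdeg hdeg'
  have hcp : 0 < c := lt_of_le_of_ne hc0 (Ne.symm hdeg.1)
  have hcl : c < 1 := lt_of_le_of_ne hc1 hdeg.2
  have hcp' : 0 < c' := lt_of_le_of_ne hc0' (Ne.symm hdeg'.1)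
  have hcl' : c' < 1 := lt_of_le_of_ne hc1' hdeg'.2
  have hs : 0 < 1 - c ^ 2 := by nlinarith
  have hs' : 0 < 1 - c' ^ 2 := by nlinarith
  have hd := Real.sqrt_pos.2 hs
  have hd' := Real.sqrt_pos.2 hs'
  have hdd := Real.mul_self_sqrt hs.le
  have hdd' := Real.mul_self_sqrt hs'.le
  obtain ⟨d, hdd1⟩ : ∃ d, d = √(1 - c ^ 2) := ⟨_, rfl⟩
  obtain ⟨d', hdd1'⟩ : ∃ d', d' = √(1 - c' ^ 2) := ⟨_, rfl⟩
  rw [← hdd1] at hd hdd hpl
  rw [← hdd1'] at hd' hdd' hpl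
  obtain ⟨X, hX⟩ : ∃ X, x = (1 - c' ^ 2) * X := ⟨x / (1 - c' ^ 2), by field_simp⟩
  obtain ⟨Y, hY⟩ : ∃ Y, y = (1 - c ^ 2) * Y := ⟨y / (1 - c ^ 2), by field_simp⟩
  obtain ⟨κ, hκ⟩ : ∃ κ, r = d * d' * κ := ⟨r / (d * d'), by field_simp⟩
  subst hX hY hκ
  have hX0 : 0 ≤ X := nonneg_of_mul_nonneg_right x0 hs'
  have hY0 : 0 ≤ Y := nonneg_of_mul_nonneg_right y0 hs
  have hX1 : S + X ≤ n := by
    have h5 : (1 - c' ^ 2) * (S + X) ≤ (1 - c' ^ 2) * n := by linarith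
    exact le_of_mul_le_mul_left h5 hs'
  have hY1 : S + Y ≤ n := by
    have h5 : (1 - c ^ 2) * (S + Y) ≤ (1 - c ^ 2) * n := by linarith
    exact le_of_mul_le_mul_left h5 hs
  have hss : 0 < (1 - c ^ 2) * (1 - c' ^ 2) := mul_pos hs hs'
  have hr2 : (d * d' * κ) ^ 2 = (1 - c ^ 2) * (1 - c' ^ 2) * κ ^ 2 := by
    rw [← hdd, ← hdd']
    ring
  have hX2 : X + κ ^ 2 ≤ 1 := by
    have h5 : (1 - c ^ 2) * (1 - c' ^ 2) * (X + κ ^ 2) ≤ (1 - c ^ 2) * (1 - c' ^ 2) * 1 := by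
      rw [hr2] at pa3
      linarith
    exact le_of_mul_le_mul_left h5 hss
  have hY2 : Y + κ ^ 2 ≤ 1 := by
    have h5 : (1 - c ^ 2) * (1 - c' ^ 2) * (Y + κ ^ 2) ≤ (1 - c ^ 2) * (1 - c' ^ 2) * 1 := by
      rw [hr2] at pb3
      linarith
    exact le_of_mul_le_mul_left h5 hss
  obtain ⟨M, hM⟩ : ∃ M, M = d * d' * (a0 * c' * ν + μ * b0 * c) := ⟨_, rfl⟩
  have hkey := real_key (M := M) al0 al1 be0 be1 hX0 hY0 hX2 hY2 hX1 hY1
  have hμ1 : μ * (1 - c ^ 2) = 1 - a0 * c := by linarith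
  have hν1 : ν * (1 - c' ^ 2) = 1 - b0 * c' := by linarith
  have hE : (a0 * c' + μ * (d * d' * κ)) * (b0 * c + ν * (d * d' * κ)) +
      ν * ((1 - c' ^ 2) * X) + μ * ((1 - c ^ 2) * Y) + S =
      a0 * c * (b0 * c') + κ * M + (1 - a0 * c) * (1 - b0 * c') * κ ^ 2 + (1 - a0 * c) * Y +
      (1 - b0 * c') * X + S := by
    rw [hM, ← hμ1, ← hν1]
    have e : (a0 * c' + μ * (d * d' * κ)) * (b0 * c + ν * (d * d' * κ)) =
        a0 * c' * (b0 * c) + κ * (d * d' * (a0 * c' * ν + μ * b0 * c)) +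
        μ * ν * (d * d' * κ) ^ 2 := by ring
    rw [e, hr2]
    ring
  rw [hE]
  have hκ1 : κ ^ 2 ≤ 1 := by linarith
  by_cases hcc : c = c'
  · subst hcc
    have hdeq : d' = d := by rw [hdd1, hdd1']
    subst hdeq
    have hMv : M = a0 * c * (1 - b0 * c) + (1 - a0 * c) * (b0 * c) := by
      rw [hM, hdd, ← hμ1, ← hν1]
      ring
    have hM0 : 0 < M := by
      have q1 := al hcp hcl
      have q2 := be hcp hcl
      have q3 := mul_pos q1.1 (sub_pos.2 q2.2)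
      have q4 := mul_pos (sub_pos.2 q1.2) q2.1
      linarith
    have e3 : a0 * c * (b0 * c) + (1 - a0 * c) * (1 - b0 * c) + M = 1 := by
      rw [hMv]
      ring
    rcases lt_or_ge κ 1 with hk | hk
    · have h7 : κ * M < 1 * M := mul_lt_mul_of_pos_right hk hM0
      linarith
    · have hk2 : |κ| ≤ 1 := by
        have : κ ^ 2 ≤ 1 ^ 2 := by simpa using hκ1
        exact abs_le_of_sq_le_sq this (by norm_num)
      have hk1 : κ = 1 := le_antisymm (abs_le.1 hk2).2 hk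
      have hX00 : X = 0 := by
        rw [hk1] at hX2
        linarith
      have hY00 : Y = 0 := by
        rw [hk1] at hY2
        linarith
      rw [hk1, hX00, hY00] at htp ⊢
      have e : (d' * d' * 1 + c * c) ^ 2 = 1 := by
        rw [hdd]
        ring
      rw [e] at htp
      have e4 : a0 * c * (b0 * c) + 1 * M + (1 - a0 * c) * (1 - b0 * c) * 1 ^ 2 +
          (1 - a0 * c) * 0 + (1 - b0 * c) * 0 + S =
          (a0 * c * (b0 * c) + (1 - a0 * c) * (1 - b0 * c) + M) + S := by ring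
      rw [e4, e3]
      linarith
  · have h8 := hpl hcp hcl hcp' hcl' hcc
    rw [← hM] at h8
    have hk : |κ| ≤ 1 := by
      have : κ ^ 2 ≤ 1 ^ 2 := by simpa using hκ1
      exact abs_le_of_sq_le_sq this (by norm_num)
    have h9 : κ * M ≤ |M| := by
      calc κ * M ≤ |κ * M| := le_abs_self _
        _ = |κ| * |M| := abs_mul _ _
        _ ≤ 1 * |M| := mul_le_mul_of_nonneg_right hk (abs_nonneg _)
        _ = |M| := one_mul _
    linarith

end V8H6.GK
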