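import Mathlib
import Pool.Agent.V8H6.GK.A1
import Pool.Agent.V8H6.GK.A4
import Pool.Agent.V8H6.GK.A6
import Pool.Agent.V8H6.GK.A8
import Pool.Agent.V8H6.GK.A9

namespace V8H6.GK

open Matrix

attribute [local instance] Matrix.normedAddCommGroup Matrix.normedSpace

variable {N m : ℕ} {F : Matrix (Fin (N+1)) (Fin (N+1)) ℝ → ℝ}

/-- planar inequality, both base points -/
theorem planar_pair (hF : IsIntegrand (m+1) F) (hA : Axi m F) (hAC : AC (m+1) F)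
    {V U : Matrix (Fin (N+1)) (Fin (m+1)) ℝ} (hV : Adapted V) (hU : Adapted U)
    {a0 μ b0 ν : ℝ} (hd : ∀ i j, j ≠ 0 → dual F V i j = V i j) (ha0 : dual F V 0 0 = a0)
    (hμ : ∀ i, i ≠ 0 → dual F V i 0 = μ * V i 0)
    (hd' : ∀ i j, j ≠ 0 → dual F U i j = U i j) (hb0 : dual F U 0 0 = b0)
    (hν : ∀ i, i ≠ 0 → dual F U i 0 = ν * U i 0)
    (h1 : a0 * V 0 0 + μ * (1 - (V 0 0) ^ 2) = 1)
    (h1' : b0 * U 0 0 + ν * (1 - (U 0 0) ^ 2) = 1)
    (hc : V 0 0 < 1) (hc' : U 0 0 < 1) (hcc : V 0 0 ≠ U 0 0) :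
    a0 * V 0 0 * (b0 * U 0 0) + (1 - a0 * V 0 0) * (1 - b0 * U 0 0) +
        |√(1 - (V 0 0) ^ 2) * √(1 - (U 0 0) ^ 2) *
          (a0 * U 0 0 * ν + μ * b0 * V 0 0)| < 1 := by
  have hP := Phi_pos hF (adapted_frame hV)
  have hQ := Phi_pos hF (adapted_frame hU)
  have hs : 0 ≤ 1 - (V 0 0) ^ 2 := by
    have := hV.nonneg
    nlinarith
  have hs' : 0 ≤ 1 - (U 0 0) ^ 2 := by
    have := hU.nonneg
    nlinarith
  have hdd := Real.mul_self_sqrt hs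
  have hdd' := Real.mul_self_sqrt hs'
  have key : ∀ ε : ℝ, ε = 1 ∨ ε = -1 →
      a0 * V 0 0 * (b0 * U 0 0) + (1 - a0 * V 0 0) * (1 - b0 * U 0 0) +
        ε * (√(1 - (V 0 0) ^ 2) * √(1 - (U 0 0) ^ 2) *
          (a0 * U 0 0 * ν + μ * b0 * V 0 0)) < 1 := by
    intro ε hε
    have p1 := planar hF hA hAC hV hU hc hc'.le hε (Or.inl hcc) ha0 hμ hd
    have p2 := planar hF hA hAC hU hV hc' hc.le hε (Or.inl (Ne.symm hcc)) hb0 hν hd'
    have hε2 : ε * ε = 1 := by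
      rcases hε with h | h <;> rw [h] <;> norm_num
    obtain ⟨d, hdd1⟩ : ∃ d, d = √(1 - (V 0 0) ^ 2) := ⟨_, rfl⟩
    obtain ⟨d', hdd1'⟩ : ∃ d', d' = √(1 - (U 0 0) ^ 2) := ⟨_, rfl⟩
    rw [← hdd1, ← hdd1'] at p1 p2 ⊢
    rw [← hdd1] at hdd
    rw [← hdd1'] at hdd'
    have p3 := mul_lt_mul'' p1 p2 (mul_nonneg (abs_nonneg _) hP.le)
      (mul_nonneg (abs_nonneg _) hQ.le)
    have hPQ := mul_pos hP hQ
    have p4 : (|a0 * U 0 0 + ε * μ * (d * d')| * |b0 * V 0 0 + ε * ν * (d' * d)|) *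
        (Phi F V * Phi F U) < 1 * (Phi F V * Phi F U) := by
      calc _ = |a0 * U 0 0 + ε * μ * (d * d')| * Phi F V *
            (|b0 * V 0 0 + ε * ν * (d' * d)| * Phi F U) := by ring
        _ < Phi F U * Phi F V := p3
        _ = _ := by ring
    have p5 := lt_of_mul_lt_mul_right p4 hPQ.le
    rw [← abs_mul] at p5
    have p6 := lt_of_le_of_lt (le_abs_self _) p5
    have hμ1 : μ * (1 - (V 0 0) ^ 2) = 1 - a0 * V 0 0 := by linarith
    have hν1 : ν * (1 - (U 0 0) ^ 2) = 1 - b0 * U 0 0 := by linarith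
    have e : (a0 * U 0 0 + ε * μ * (d * d')) * (b0 * V 0 0 + ε * ν * (d' * d)) =
        a0 * V 0 0 * (b0 * U 0 0) + (1 - a0 * V 0 0) * (1 - b0 * U 0 0) +
        ε * (d * d' * (a0 * U 0 0 * ν + μ * b0 * V 0 0)) := by
      rw [← hμ1, ← hν1, ← hdd, ← hdd']
      have e2 : (a0 * U 0 0 + ε * μ * (d * d')) * (b0 * V 0 0 + ε * ν * (d' * d)) =
          a0 * V 0 0 * (b0 * U 0 0) + (ε * ε) * (μ * (d * d) * (ν * (d' * d'))) +
          ε * (d * d' * (a0 * U 0 0 * ν + μ * b0 * V 0 0)) := by ring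
      rw [e2, hε2]
      ring
    rw [← e]
    exact p6
  have k1 := key 1 (Or.inl rfl)
  have k2 := key (-1) (Or.inr rfl)
  rcases abs_cases (√(1 - (V 0 0) ^ 2) * √(1 - (U 0 0) ^ 2) *
    (a0 * U 0 0 * ν + μ * b0 * V 0 0)) with h | h
  · rw [h.1]
    linarith
  · rw [h.1]
    linarith

theorem key_adapted (hF : IsIntegrand (m+1) F) (hA : Axi m F) (hAC : AC (m+1) F)
    {V U : Matrix (Fin (N+1)) (Fin (m+1)) ℝ} (hV : Adapted V) (hU : Adapted U)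
    (hne : proj V ≠ proj U) : (Av F V * Av F U).trace < (m : ℝ) + 1 := by
  obtain ⟨hd, a0, μ, ha0, hμ, h1, h2⟩ := dual_spec hF hA hV
  obtain ⟨hd', b0, ν, hb0, hν, h1', h2'⟩ := dual_spec hF hA hU
  obtain ⟨al0, al1, al⟩ := alpha_mem hF hA hAC hV hd ha0 hμ h1 h2
  obtain ⟨be0, be1, be⟩ := alpha_mem hF hA hAC hU hd' hb0 hν h1' h2'
  rw [Av_dual, Av_dual, tr_formula hV hU hd ha0 hμ hd' hb0 hν]
  obtain ⟨pa1, pa2, pa3, pa4⟩ := pack hV hU
  obtain ⟨pb1, pb2, pb3, pb4⟩ := pack hU hV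
  rw [gS_swap V U] at pb1 pb2
  rw [gr_swap V U] at pb3
  have htp := tr_proj_lt hV hU hne
  have hG : (Vᵀ * U) 0 0 = gr V U + V 0 0 * U 0 0 := by
    unfold gr
    ring
  rw [hG] at htp
  exact final_real hV.nonneg (le_one_of_adapted hV) hU.nonneg (le_one_of_adapted hU) h1 h1' h2 h2'
    al0 al1 al be0 be1 be (Finset.sum_nonneg fun i _ => sq_nonneg _)
    (Finset.sum_nonneg fun i _ => sq_nonneg _) pa1 pa2 pa3 pa4 pb1 pb3 pb4 htp
    (fun _ hc _ hc' hcc => planar_pair hF hA hAC hV hU hd ha0 hμ hd' hb0 hν h1 h1' hc hc' hcc)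

theorem TC_of_axi (hF : IsIntegrand (m+1) F) (hA : Axi m F) (hAC : AC (m+1) F) :
    TC (m+1) F := by
  intro V hV U hU hne
  obtain ⟨V1, hV1, e1⟩ := exists_adapted hV
  obtain ⟨U1, hU1, e2⟩ := exists_adapted hU
  have a1 : Av F V = Av F V1 := Av_eq_of_proj hF (adapted_frame hV1) hV e1
  have a2 : Av F U = Av F U1 := Av_eq_of_proj hF (adapted_frame hU1) hU e2
  rw [a1, a2]
  push_cast
  exact key_adapted hF hA hAC hV1 hU1 (by rw [e1, e2]; exact hne)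

/-- **Main theorem.** -/
theorem axi_main (hF : IsIntegrand (m+1) F) (hA : Axi m F) : AC (m+1) F ↔ EC (m+1) F :=
  ⟨fun h => EC_of_TC hF (TC_of_axi hF hA h), AC_of_EC⟩

/-- the atomic condition is equivalent to the scalar condition -/
theorem axi_main' (hF : IsIntegrand (m+1) F) (hA : Axi m F) : AC (m+1) F ↔ TC (m+1) F :=
  ⟨fun h => TC_of_axi hF hA h, fun h => AC_of_EC (EC_of_TC hF h)⟩

end V8H6.GK
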