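import Mathlib
import Pool.Agent.V8H6.GK.Axis

namespace V8H6.GK

open Matrix

attribute [local instance] Matrix.normedAddCommGroup Matrix.normedSpace

variable {N m : ℕ} {F : Matrix (Fin (N+1)) (Fin (N+1)) ℝ → ℝ}

/-- The frame with first column `a e₀ + b e₁` and the other columns `e₂, ..., e_{m+1}`. -/
def fr (N m : ℕ) (a b : ℝ) : Matrix (Fin (N+1)) (Fin (m+1)) ℝ :=
  Matrix.of fun i j => if (j : ℕ) = 0 then (if (i : ℕ) = 0 then a else if (i : ℕ) = 1 then b else 0)
    else if (i : ℕ) = j + 1 then 1 else 0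

/-- The profile of an axially symmetric integrand:
`F (span (a e₀ + b e₁, e₂, ..., e_k)) √(a² + b²)`. -/
noncomputable def prf (m : ℕ) (F : Matrix (Fin (N+1)) (Fin (N+1)) ℝ → ℝ) (a b : ℝ) : ℝ :=
  vol (fr N m a b) * F (proj (fr N m a b))

/-- Strict convexity of the profile on `ℝ²`. -/
def SP (m : ℕ) (F : Matrix (Fin (N+1)) (Fin (N+1)) ℝ → ℝ) : Prop :=
  ∀ a b c d : ℝ, a * d - b * c ≠ 0 → prf m F (a + c) (b + d) < prf m F a b + prf m F c d

end V8H6.GK
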