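import Mathlib
import Pool.Agent.V8H6.GK.PrDefs

namespace V8H6.GK

open Matrix

attribute [local instance] Matrix.normedAddCommGroup Matrix.normedSpace

variable {N m : ℕ}

theorem b1_gram (h : m < N) (a b : ℝ) : (fr N m a b)ᵀ * fr N m a b =
    diagonal (fun j : Fin (m+1) => if j = 0 then a ^ 2 + b ^ 2 else 1) := by
  ext j l
  rw [Matrix.mul_apply]
  simp only [transpose_apply, fr, of_apply, diagonal_apply]
  have hv : ∀ j : Fin (m+1), ((j : ℕ) = 0 ↔ j = 0) := fun j => by
    rw [← Fin.val_eq_zero_iff]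
  by_cases hj : j = 0
  · by_cases hl : l = 0
    · subst hj; subst hl
      have h01 : (⟨0, by omega⟩ : Fin (N+1)) ≠ ⟨1, by omega⟩ := by
        intro h0; simp at h0
      rw [Finset.sum_eq_add (⟨0, by omega⟩ : Fin (N+1)) ⟨1, by omega⟩ h01]
      · simp; ring
      · rintro i - ⟨h1, h2⟩
        have e0 : (i : ℕ) ≠ 0 := fun h0 => h1 (Fin.ext h0)
        have e1 : (i : ℕ) ≠ 1 := fun h0 => h2 (Fin.ext h0)
        simp [e0, e1]
      · intro h0; exact absurd (Finset.mem_univ _) h0
      · intro h0; exact absurd (Finset.mem_univ _) h0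
    · have hl' : (l : ℕ) ≠ 0 := fun h0 => hl ((hv l).1 h0)
      rw [if_neg (fun h0 : j = l => hl (h0 ▸ hj))]
      refine Finset.sum_eq_zero fun i _ => ?_
      subst hj
      rw [if_neg hl']
      by_cases hi : (i : ℕ) = l + 1
      · have e0 : (i : ℕ) ≠ 0 := by omega
        have e1 : (i : ℕ) ≠ 1 := by omega
        simp [e0, e1]
      · rw [if_neg hi, mul_zero]
  · have hj' : (j : ℕ) ≠ 0 := fun h0 => hj ((hv j).1 h0)
    by_cases hjl : j = l
    · subst hjl
      rw [if_pos rfl, if_neg hj]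
      rw [Finset.sum_eq_single (⟨(j : ℕ) + 1, by omega⟩ : Fin (N+1))]
      · simp [hj']
      · intro i _ hi
        have e0 : (i : ℕ) ≠ j + 1 := fun h0 => hi (Fin.ext h0)
        rw [if_neg hj', if_neg e0, mul_zero]
      · intro h0; exact absurd (Finset.mem_univ _) h0
    · rw [if_neg hjl]
      refine Finset.sum_eq_zero fun i _ => ?_
      rw [if_neg hj']
      by_cases hi : (i : ℕ) = j + 1
      · by_cases hl : (l : ℕ) = 0
        · have e0 : (i : ℕ) ≠ 0 := by omega
          have e1 : (i : ℕ) ≠ 1 := by omega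
          rw [if_pos hl, if_neg e0, if_neg e1, mul_zero]
        · have e2 : (i : ℕ) ≠ l + 1 := by
            intro h0
            apply hjl
            apply Fin.ext
            omega
          rw [if_neg hl, if_neg e2, mul_zero]
      · rw [if_neg hi, zero_mul]

/-- PART B1.  The Gram matrix of `fr` is `diagonal (a² + b², 1, ..., 1)` (needs `m < N` for the
columns `e₂ ... e_{m+1}` to exist), so (a,b) ≠ 0 gives a frame, `vol = √(a² + b²)` and
`proj 0 0 = a² / (a² + b²)`. -/
theorem fr_props (h : m < N) {a b : ℝ} (hab : a ^ 2 + b ^ 2 ≠ 0) :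
    fr N m a b ∈ Frame (N+1) (m+1) ∧ vol (fr N m a b) = √(a ^ 2 + b ^ 2) ∧
      proj (fr N m a b) 0 0 = a ^ 2 / (a ^ 2 + b ^ 2) := by
  have hg := b1_gram h a b
  have hdet : ((fr N m a b)ᵀ * fr N m a b).det = a ^ 2 + b ^ 2 := by
    rw [hg, det_diagonal, Fin.prod_univ_succ]
    simp [Fin.succ_ne_zero]
  refine ⟨?_, ?_, ?_⟩
  · show ((fr N m a b)ᵀ * fr N m a b).det ≠ 0
    rw [hdet]; exact hab
  · unfold vol
    rw [hdet]
  · unfold proj
    have hinv : ((fr N m a b)ᵀ * fr N m a b)⁻¹ =
        diagonal (fun j : Fin (m+1) => if j = 0 then (a ^ 2 + b ^ 2)⁻¹ else 1) := by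
      apply Matrix.inv_eq_right_inv
      rw [hg, diagonal_mul_diagonal, ← diagonal_one]
      congr 1
      funext j
      by_cases hj : j = 0
      · simp [hj, hab]
      · simp [hj]
    rw [hinv, Matrix.mul_apply, Finset.sum_eq_single 0]
    · rw [mul_diagonal, transpose_apply]
      simp [fr]
      field_simp
    · intro j _ hj
      have hj' : (j : ℕ) ≠ 0 := fun h0 => hj (Fin.ext h0)
      rw [transpose_apply]
      have : fr N m a b 0 j = 0 := by
        simp [fr, hj]
      rw [this, mul_zero]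
    · intro h0; exact absurd (Finset.mem_univ _) h0

end V8H6.GK
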