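import Mathlib
import Pool.Agent.V8H6.GK.PrDefs

namespace V8H6.GK

open Matrix

attribute [local instance] Matrix.normedAddCommGroup Matrix.normedSpace

variable {N m : ℕ} {F : Matrix (Fin (N+1)) (Fin (N+1)) ℝ → ℝ}

theorem b2_fr (t a b : ℝ) : fr N m (t * a) (t * b) =
    fr N m a b * diagonal (fun j : Fin (m+1) => if (j : ℕ) = 0 then t else 1) := by
  ext i j
  rw [mul_diagonal]
  simp only [fr, of_apply]
  split_ifs <;> ring

theorem b2_det (t : ℝ) :
    (diagonal (fun j : Fin (m+1) => if (j : ℕ) = 0 then t else 1)).det = t := by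
  rw [det_diagonal, Fin.prod_univ_succ]
  simp

/-- PART B2. -/
theorem prf_smul (t : ℝ) (ht : t ≠ 0) (a b : ℝ) : prf m F (t * a) (t * b) = |t| * prf m F a b := by
  have h1 : prf m F (t * a) (t * b) = Phi F (fr N m (t * a) (t * b)) := rfl
  have h2 : prf m F a b = Phi F (fr N m a b) := rfl
  rw [h1, h2, b2_fr, Phi_mul _ (by rw [b2_det]; exact ht), b2_det]

end V8H6.GK
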