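import Mathlib
import Pool.Agent.V8H6.GK.B1

namespace V8H6.GK

open Matrix

attribute [local instance] Matrix.normedAddCommGroup Matrix.normedSpace

variable {N m : ℕ} {F : Matrix (Fin (N+1)) (Fin (N+1)) ℝ → ℝ}

theorem b3_fr_succ (a b : ℝ) (i : Fin (N+1)) (l : Fin m) :
    fr N m a b i l.succ = if (i : ℕ) = l + 2 then 1 else 0 := by
  simp [fr, add_assoc]

theorem b3_sum {n : ℕ} (f : Fin (n+1+1) → ℝ) (a b : ℝ) :
    ∑ i, f i * fr (n+1) m a b i 0 = f 0 * a + f 1 * b := by
  rw [Fin.sum_univ_succ, Fin.sum_univ_succ]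
  have h1 : ∑ i : Fin n, f i.succ.succ * fr (n+1) m a b i.succ.succ 0 = 0 :=
    Finset.sum_eq_zero fun i _ => by simp [fr]
  rw [h1]
  simp [fr]

theorem SP_of_AC (h : m < N) (hF : IsIntegrand (m+1) F) (hAC : AC (m+1) F) : SP m F := by
  obtain ⟨n, rfl⟩ : ∃ n, N = n + 1 := ⟨N - 1, by omega⟩
  intro a b c d hne
  have hpq : (a + c) ^ 2 + (b + d) ^ 2 ≠ 0 := by
    intro h0
    have h1 : a + c = 0 := by nlinarith [sq_nonneg (a + c), sq_nonneg (b + d)]
    have h2 : b + d = 0 := by nlinarith [sq_nonneg (a + c), sq_nonneg (b + d)]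
    apply hne
    have h3 : c = -a := by linarith
    have h4 : d = -b := by linarith
    rw [h3, h4]; ring
  obtain ⟨p, hp⟩ : ∃ p, p = a + c := ⟨_, rfl⟩
  obtain ⟨q, hq⟩ : ∃ q, q = b + d := ⟨_, rfl⟩
  rw [← hp, ← hq] at hpq ⊢
  have hV := (fr_props h hpq).1
  set V := fr (n+1) m p q with hVd
  have hPV := Phi_pos hF hV
  have heul := euler hF hV
  have hself : grad F V 0 0 * p + grad F V 1 0 * q = Phi F V := by
    have h1 := congrFun (congrFun heul 0) 0
    rw [Matrix.mul_apply] at h1
    simp only [transpose_apply, Matrix.smul_apply, Matrix.one_apply_eq, smul_eq_mul, mul_one] at h1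
    rw [← h1, hVd, b3_sum]
  have key : ∀ x y : ℝ, p * y - q * x ≠ 0 →
      grad F V 0 0 * x + grad F V 1 0 * y < prf m F x y := by
    intro x y hxy
    have hxy2 : x ^ 2 + y ^ 2 ≠ 0 := by
      intro h0
      have h1 : x = 0 := by nlinarith [sq_nonneg x, sq_nonneg y]
      have h2 : y = 0 := by nlinarith [sq_nonneg x, sq_nonneg y]
      apply hxy; rw [h1, h2]; ring
    have hU := (fr_props h hxy2).1
    set U := fr (n+1) m x y with hUd
    have hpr : proj V ≠ proj U := by
      intro he
      obtain ⟨g, -, hg⟩ := exists_of_proj_eq hV hU he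
      have e : ∀ i : Fin (n+1+1), (i : ℕ) < 2 → U i 0 = V i 0 * g 0 0 := by
        intro i hi
        have h1 := congrFun (congrFun hg i) 0
        rw [Matrix.mul_apply, Fin.sum_univ_succ] at h1
        rw [h1]
        have : ∑ l : Fin m, V i l.succ * g l.succ 0 = 0 :=
          Finset.sum_eq_zero fun l _ => by
            rw [hVd, b3_fr_succ, if_neg (by omega), zero_mul]
        rw [this, add_zero]
      have e0 := e 0 (by simp)
      have e1 := e 1 (by simp)
      have hU0 : U 0 0 = x := by simp [hUd, fr]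
      have hU1 : U 1 0 = y := by simp [hUd, fr]
      have hV0 : V 0 0 = p := by simp [hVd, fr]
      have hV1 : V 1 0 = q := by simp [hVd, fr]
      rw [hU0, hV0] at e0
      rw [hU1, hV1] at e1
      apply hxy
      rw [e0, e1]; ring
    have hm := main_frame hF hAC hV hU hpr
    have hcol : ∀ j : Fin (m+1), ∀ l : Fin m,
        ((grad F V)ᵀ * U) j l.succ = Phi F V * (if j = l.succ then 1 else 0) := by
      intro j l
      have h1 := congrFun (congrFun heul j) l.succ
      rw [Matrix.mul_apply] at h1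
      rw [Matrix.mul_apply]
      simp only [Matrix.smul_apply, Matrix.one_apply, smul_eq_mul] at h1
      rw [← h1]
      refine Finset.sum_congr rfl fun i _ => ?_
      rw [hUd, hVd, b3_fr_succ, b3_fr_succ]
    have h00 : ((grad F V)ᵀ * U) 0 0 = grad F V 0 0 * x + grad F V 1 0 * y := by
      rw [Matrix.mul_apply, hUd, b3_sum]
      simp only [transpose_apply]
    have hdet : ((grad F V)ᵀ * U).det =
        (grad F V 0 0 * x + grad F V 1 0 * y) * Phi F V ^ m := by
      rw [det_of_lowerTriangular, Fin.prod_univ_succ, h00]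
      · congr 1
        have : ∀ l : Fin m, ((grad F V)ᵀ * U) l.succ l.succ = Phi F V := by
          intro l; rw [hcol]; simp
        rw [Finset.prod_congr rfl fun l _ => this l]
        simp
      · intro i j hij
        have hij' : i < j := hij
        have hj : j ≠ 0 := fun h0 => by rw [h0] at hij'; exact absurd hij' (by simp)
        obtain ⟨l, rfl⟩ := Fin.exists_succ_eq.2 hj
        rw [hcol, if_neg hij'.ne, mul_zero]
    rw [hdet, abs_mul, abs_of_pos (pow_pos hPV m)] at hm
    have h2 : |grad F V 0 0 * x + grad F V 1 0 * y| * Phi F V ^ (m+1) <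
        Phi F U * Phi F V ^ (m+1) := by
      calc _ = |grad F V 0 0 * x + grad F V 1 0 * y| * Phi F V ^ m * Phi F V := by ring
        _ < _ := hm
        _ = _ := by ring
    have h3 := lt_of_mul_lt_mul_right h2 (pow_pos hPV (m+1)).le
    exact lt_of_le_of_lt (le_abs_self _) h3
  have k1 := key a b (by rw [hp, hq]; intro h0; apply hne; linarith)
  have k2 := key c d (by rw [hp, hq]; intro h0; apply hne; linarith)
  have k3 : prf m F p q = Phi F V := rfl
  rw [k3, ← hself, hp, hq]
  linarith

end V8H6.GK
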