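import Mathlib

/-! B4: a one-homogeneous strictly convex function on `ℝ²` lies strictly above its tangents -/

set_option autoImplicit false

namespace V8H6.GK

open Filter Topology Set

/-- PART B4 (pure real analysis).  A one-homogeneous strictly convex function on `ℝ²` lies strictly
above its tangent at `(a, b)` in every other direction. -/
theorem above_tangent {p : ℝ → ℝ → ℝ} (hom : ∀ t : ℝ, t ≠ 0 → ∀ a b, p (t * a) (t * b) = |t| * p a b)
    (hs : ∀ a b c d : ℝ, a * d - b * c ≠ 0 → p (a + c) (b + d) < p a b + p c d)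
    {a b c d D : ℝ} (hne : a * d - b * c ≠ 0)
    (hD : HasDerivAt (fun s : ℝ => p (a + s * c) (b + s * d)) D 0) : D < p c d := by
  have h1 : p (a + c) (b + d) - p a b < p c d := by linarith [hs a b c d hne]
  refine lt_of_le_of_lt ?_ h1
  refine le_of_tendsto hD.tendsto_slope_zero_right ?_
  filter_upwards [Ioo_mem_nhdsGT (zero_lt_one (α := ℝ))] with s hs'
  obtain ⟨h0, h1'⟩ := hs'
  have h2 : p (a + s * c) (b + s * d) < (1 - s) * p a b + s * p (a + c) (b + d) := by
    have h4 : ((1 - s) * a) * (s * (b + d)) - ((1 - s) * b) * (s * (a + c)) ≠ 0 := by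
      have h5 : ((1 - s) * a) * (s * (b + d)) - ((1 - s) * b) * (s * (a + c)) =
          (1 - s) * s * (a * d - b * c) := by ring
      rw [h5]
      exact mul_ne_zero (mul_ne_zero (by linarith) h0.ne') hne
    have h3 := hs ((1 - s) * a) ((1 - s) * b) (s * (a + c)) (s * (b + d)) h4
    rw [hom (1 - s) (by linarith), hom s h0.ne', abs_of_pos (by linarith : (0:ℝ) < 1 - s),
      abs_of_pos h0] at h3
    have e1 : (1 - s) * a + s * (a + c) = a + s * c := by ring
    have e2 : (1 - s) * b + s * (b + d) = b + s * d := by ring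
    rwa [e1, e2] at h3
  simp only [zero_add, zero_mul, add_zero, smul_eq_mul]
  rw [inv_mul_le_iff₀ h0]
  linarith

end V8H6.GK
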