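import Mathlib
import Pool.Agent.V8H6.GK.B1

/-! part B5 (helper71) -/

namespace V8H6.GK

open Matrix

attribute [local instance] Matrix.normedAddCommGroup Matrix.normedSpace

variable {N m : ℕ} {F : Matrix (Fin (N+1)) (Fin (N+1)) ℝ → ℝ}

open A6

theorem b5_gram {V : Matrix (Fin (N+1)) (Fin (m+1)) ℝ} (hV : Adapted V) (x κ : ℝ) :
    (Wf V x κ)ᵀ * Wf V x κ =
      diagonal fun j => if j = 0 then x ^ 2 + κ ^ 2 * (1 - (V 0 0) ^ 2) else 1 := by
  have eV : ∀ j l, V 0 j * V 0 l + ∑ i : Fin N, V i.succ j * V i.succ l =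
      (1 : Matrix (Fin (m+1)) (Fin (m+1)) ℝ) j l := by
    intro j l
    rw [← mul_entry, hV.on]
  have e00 : ∑ i : Fin N, V i.succ 0 * V i.succ 0 = 1 - (V 0 0) ^ 2 := by
    have := eV 0 0
    rw [one_apply_eq] at this
    linarith [this, sq (V 0 0)]
  have ejl : ∀ j l, (j ≠ 0 ∨ l ≠ 0) → ∑ i : Fin N, V i.succ j * V i.succ l =
      (1 : Matrix (Fin (m+1)) (Fin (m+1)) ℝ) j l := by
    intro j l h
    have h2 := eV j l
    have h3 : V 0 j * V 0 l = 0 := by
      rcases h with h | h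
      · rw [hV.zero j h, zero_mul]
      · rw [hV.zero l h, mul_zero]
    rw [h3, zero_add] at h2
    exact h2
  ext j l
  rw [mul_entry]
  by_cases hj : j = 0
  · subst hj
    by_cases hl : l = 0
    · subst hl
      rw [diagonal_apply_eq, if_pos rfl, W00]
      have : ∀ i : Fin N, Wf V x κ i.succ 0 * Wf V x κ i.succ 0 =
          κ * κ * (V i.succ 0 * V i.succ 0) := by
        intro i
        rw [Ws0 V x κ (Fin.succ_ne_zero i)]
        ring
      rw [Finset.sum_congr rfl (fun i _ => this i), ← Finset.mul_sum, e00]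
      ring
    · rw [diagonal_apply_ne _ (Ne.symm hl), Wj V x κ 0 hl, hV.zero l hl, mul_zero, zero_add]
      have : ∀ i : Fin N, Wf V x κ i.succ 0 * Wf V x κ i.succ l =
          κ * (V i.succ 0 * V i.succ l) := by
        intro i
        rw [Ws0 V x κ (Fin.succ_ne_zero i), Wj V x κ _ hl]
        ring
      rw [Finset.sum_congr rfl (fun i _ => this i), ← Finset.mul_sum, ejl 0 l (Or.inr hl),
        one_apply_ne (Ne.symm hl), mul_zero]
  · by_cases hl : l = 0
    · subst hl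
      rw [diagonal_apply_ne _ hj, Wj V x κ 0 hj, hV.zero j hj, zero_mul, zero_add]
      have : ∀ i : Fin N, Wf V x κ i.succ j * Wf V x κ i.succ 0 =
          κ * (V i.succ j * V i.succ 0) := by
        intro i
        rw [Ws0 V x κ (Fin.succ_ne_zero i), Wj V x κ _ hj]
        ring
      rw [Finset.sum_congr rfl (fun i _ => this i), ← Finset.mul_sum, ejl j 0 (Or.inl hj),
        one_apply_ne hj, mul_zero]
    · rw [Wj V x κ 0 hj, hV.zero j hj, zero_mul, zero_add]
      have : ∀ i : Fin N, Wf V x κ i.succ j * Wf V x κ i.succ l =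
          V i.succ j * V i.succ l := by
        intro i
        rw [Wj V x κ _ hj, Wj V x κ _ hl]
      rw [Finset.sum_congr rfl (fun i _ => this i), ejl j l (Or.inl hj)]
      by_cases hjl : j = l
      · subst hjl
        rw [one_apply_eq, diagonal_apply_eq, if_neg hj]
      · rw [one_apply_ne hjl, diagonal_apply_ne _ hjl]

theorem b5_det {V : Matrix (Fin (N+1)) (Fin (m+1)) ℝ} (hV : Adapted V) (x κ : ℝ) :
    ((Wf V x κ)ᵀ * Wf V x κ).det = x ^ 2 + κ ^ 2 * (1 - (V 0 0) ^ 2) := by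
  rw [b5_gram hV, det_diagonal, Fin.prod_univ_succ, if_pos rfl,
    Finset.prod_eq_one (fun i _ => by rw [if_neg (Fin.succ_ne_zero i)]), mul_one]

theorem b5_proj {V : Matrix (Fin (N+1)) (Fin (m+1)) ℝ} (hV : Adapted V) (x κ : ℝ)
    (hD : x ^ 2 + κ ^ 2 * (1 - (V 0 0) ^ 2) ≠ 0) :
    proj (Wf V x κ) 0 0 = x ^ 2 / (x ^ 2 + κ ^ 2 * (1 - (V 0 0) ^ 2)) := by
  have hinv : ((Wf V x κ)ᵀ * Wf V x κ)⁻¹ =
      diagonal fun j => (if j = 0 then x ^ 2 + κ ^ 2 * (1 - (V 0 0) ^ 2) else (1 : ℝ))⁻¹ := by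
    rw [b5_gram hV]
    refine Matrix.inv_eq_right_inv ?_
    rw [diagonal_mul_diagonal, ← diagonal_one]
    congr 1
    funext j
    by_cases hj : j = 0
    · rw [if_pos hj, mul_inv_cancel₀ hD]
    · rw [if_neg hj, inv_one, mul_one]
  unfold proj
  rw [hinv, Matrix.mul_apply, Finset.sum_eq_single 0]
  · rw [mul_diagonal, transpose_apply, W00, if_pos rfl, div_eq_mul_inv]
    ring
  · intro j _ hj
    rw [transpose_apply, Wj V x κ 0 hj, hV.zero j hj, mul_zero]
  · intro h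
    exact absurd (Finset.mem_univ _) h

/-- the profile as the density of an explicit frame -/
theorem b5_prf (h : m < N) (hA : Axi m F) {V : Matrix (Fin (N+1)) (Fin (m+1)) ℝ}
    (hV : Adapted V) (x y κ : ℝ) (hy : κ ^ 2 * (1 - (V 0 0) ^ 2) = y ^ 2)
    (hxy : x ^ 2 + y ^ 2 ≠ 0) : Phi F (Wf V x κ) = prf m F x y := by
  obtain ⟨h1, h2, h3⟩ := fr_props (N := N) (m := m) h hxy
  have hD : x ^ 2 + κ ^ 2 * (1 - (V 0 0) ^ 2) ≠ 0 := by rwa [hy]
  have hW : Wf V x κ ∈ Frame (N+1) (m+1) := by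
    change ((Wf V x κ)ᵀ * Wf V x κ).det ≠ 0
    rwa [b5_det hV]
  unfold Phi prf
  rw [hA _ hW _ h1 (by rw [b5_proj hV x κ hD, h3, hy])]
  congr 1
  rw [h2]
  unfold vol
  rw [b5_det hV, hy]

theorem b5_line (V : Matrix (Fin (N+1)) (Fin (m+1)) ℝ) (c e s : ℝ) :
    V + s • (Matrix.of fun i j => if j = 0 then (if i = 0 then c else e * V i 0) else 0) =
      Wf V (V 0 0 + s * c) (1 + s * e) := by
  ext i j
  rw [Matrix.add_apply, Matrix.smul_apply, of_apply]
  by_cases hj : j = 0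
  · subst hj
    by_cases hi : i = 0
    · subst hi
      rw [if_pos rfl, if_pos rfl, W00, smul_eq_mul]
    · rw [if_pos rfl, if_neg hi, Ws0 _ _ _ hi, smul_eq_mul]
      ring
  · rw [if_neg hj, Wj _ _ _ _ hj, smul_zero, add_zero]

theorem prf_deriv (h : m < N) (hF : IsIntegrand (m+1) F) (hA : Axi m F)
    {V : Matrix (Fin (N+1)) (Fin (m+1)) ℝ} (hV : Adapted V) (h1 : V 0 0 < 1) {a0 μ : ℝ}
    (ha0 : dual F V 0 0 = a0) (hμ : ∀ i, i ≠ 0 → dual F V i 0 = μ * V i 0) (c d : ℝ) :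
    HasDerivAt (fun s : ℝ => prf m F (V 0 0 + s * c) (√(1 - (V 0 0) ^ 2) + s * d))
      (Phi F V * (a0 * c + μ * √(1 - (V 0 0) ^ 2) * d)) 0 := by
  have hc0 : 0 ≤ V 0 0 := hV.nonneg
  have hs2 : 0 < 1 - (V 0 0) ^ 2 := by nlinarith
  obtain ⟨σ, hσ⟩ : ∃ σ, σ = √(1 - (V 0 0) ^ 2) := ⟨_, rfl⟩
  have hσ0 : 0 < σ := hσ ▸ Real.sqrt_pos.2 hs2
  have hσ2 : σ * σ = 1 - (V 0 0) ^ 2 := hσ ▸ Real.mul_self_sqrt hs2.le
  rw [← hσ]
  have hVF : V ∈ Frame (N+1) (m+1) := st_sub hV.on
  have hPV := Phi_pos hF hVF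
  let W : Matrix (Fin (N+1)) (Fin (m+1)) ℝ :=
    Matrix.of fun i j => if j = 0 then (if i = 0 then c else (d / σ) * V i 0) else 0
  have hline := hasDerivAt_line hF hVF W
  -- the derivative
  have hgrad : grad F V = Phi F V • dual F V := by
    unfold dual
    rw [smul_smul, mul_inv_cancel₀ hPV.ne', one_smul]
  have e00 : ∑ i : Fin N, V i.succ 0 * V i.succ 0 = 1 - (V 0 0) ^ 2 := by
    have := congrFun (congrFun hV.on 0) 0
    rw [mul_entry, one_apply_eq] at this
    linarith [this, sq (V 0 0)]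
  have htr : ((grad F V)ᵀ * W).trace = Phi F V * (a0 * c + μ * σ * d) := by
    rw [hgrad, transpose_smul, smul_mul, trace_smul, smul_eq_mul]
    congr 1
    rw [trace, Finset.sum_eq_single 0]
    · rw [diag_apply, mul_entry, ha0]
      have w0 : W 0 0 = c := by
        change (if (0 : Fin (m+1)) = 0 then (if (0 : Fin (N+1)) = 0 then c else (d / σ) * V 0 0)
          else 0) = c
        rw [if_pos rfl, if_pos rfl]
      have wi : ∀ i : Fin N, dual F V i.succ 0 * W i.succ 0 =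
          μ * (d / σ) * (V i.succ 0 * V i.succ 0) := by
        intro i
        have w : W i.succ 0 = (d / σ) * V i.succ 0 := by
          change (if (0 : Fin (m+1)) = 0 then (if i.succ = 0 then c else (d / σ) * V i.succ 0)
            else 0) = _
          rw [if_pos rfl, if_neg (Fin.succ_ne_zero i)]
        rw [hμ _ (Fin.succ_ne_zero i), w]
        ring
      rw [w0, Finset.sum_congr rfl (fun i _ => wi i), ← Finset.mul_sum, e00, ← hσ2]
      field_simp
    · intro j _ hj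
      rw [diag_apply, Matrix.mul_apply]
      refine Finset.sum_eq_zero fun i _ => ?_
      have w : W i j = 0 := by
        change (if j = 0 then (if i = 0 then c else (d / σ) * V i 0) else 0) = _
        rw [if_neg hj]
      rw [w, mul_zero]
    · intro h
      exact absurd (Finset.mem_univ _) h
  rw [htr] at hline
  refine hline.congr_of_eventuallyEq ?_
  have hcont : Continuous fun s : ℝ => (V 0 0 + s * c) ^ 2 + (σ + s * d) ^ 2 := by fun_prop
  have hne : ∀ᶠ s in nhds (0:ℝ), (V 0 0 + s * c) ^ 2 + (σ + s * d) ^ 2 ≠ 0 := by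
    refine hcont.continuousAt.eventually_ne ?_
    have : (V 0 0 + 0 * c) ^ 2 + (σ + 0 * d) ^ 2 = 1 := by
      rw [zero_mul, zero_mul, add_zero, add_zero, sq σ, hσ2]
      ring
    rw [this]
    exact one_ne_zero
  filter_upwards [hne] with s hs
  have e : V + s • W = Wf V (V 0 0 + s * c) (1 + s * (d / σ)) := b5_line V c (d / σ) s
  rw [e]
  refine (b5_prf h hA hV _ _ _ ?_ hs).symm
  rw [← hσ2]
  field_simp

end V8H6.GK
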