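import Mathlib
import Pool.Agent.V8H6.GK.PrDefs
import Pool.Agent.V8H6.GK.B1

namespace V8H6.GK

open Matrix

attribute [local instance] Matrix.normedAddCommGroup Matrix.normedSpace

variable {N m : ℕ} {F : Matrix (Fin (N+1)) (Fin (N+1)) ℝ → ℝ}

theorem Phi_adapted (h : m < N) (hA : Axi m F) {U : Matrix (Fin (N+1)) (Fin (m+1)) ℝ}
    (hU : Adapted U) (hU1 : U 0 0 ≤ 1) {ε : ℝ} (hε : ε = 1 ∨ ε = -1) :
    Phi F U = prf m F (U 0 0) (ε * √(1 - (U 0 0) ^ 2)) := by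
  have h0 := hU.nonneg
  have hsq : 0 ≤ 1 - (U 0 0) ^ 2 := by nlinarith
  have hε2 : ε ^ 2 = 1 := by
    rcases hε with rfl | rfl <;> norm_num
  have hb : (ε * √(1 - (U 0 0) ^ 2)) ^ 2 = 1 - (U 0 0) ^ 2 := by
    rw [mul_pow, hε2, one_mul, Real.sq_sqrt hsq]
  have hab : (U 0 0) ^ 2 + (ε * √(1 - (U 0 0) ^ 2)) ^ 2 = 1 := by
    rw [hb]
    ring
  obtain ⟨f1, f2, f3⟩ := fr_props (N := N) (m := m) h
    (show (U 0 0) ^ 2 + (ε * √(1 - (U 0 0) ^ 2)) ^ 2 ≠ 0 by rw [hab]; norm_num)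
  rw [hab] at f2 f3
  rw [Real.sqrt_one] at f2
  rw [div_one] at f3
  have hv : vol U = 1 := by
    unfold vol
    rw [hU.on, det_one, Real.sqrt_one]
  have hp : proj U 0 0 = (U 0 0) ^ 2 := by
    rw [proj_adapted hU, Matrix.mul_apply, Finset.sum_eq_single 0]
    · rw [transpose_apply]
      ring
    · intro j _ hj
      rw [hU.zero j hj, zero_mul]
    · intro h1
      exact absurd (Finset.mem_univ _) h1
  have key : F (proj U) = F (proj (fr N m (U 0 0) (ε * √(1 - (U 0 0) ^ 2)))) :=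
    hA U (adapted_frame hU) _ f1 (by rw [hp, f3])
  unfold prf
  rw [f2, one_mul, ← key]
  unfold Phi
  rw [hv, one_mul]

end V8H6.GK
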