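import Mathlib
import Pool.Agent.V8H6.GK.PrDefs
import Pool.Agent.V8H6.GK.B1
import Pool.Agent.V8H6.GK.B2
import Pool.Agent.V8H6.GK.B3
import Pool.Agent.V8H6.GK.B4
import Pool.Agent.V8H6.GK.B5
import Pool.Agent.V8H6.GK.B6

namespace V8H6.GK

open Matrix

attribute [local instance] Matrix.normedAddCommGroup Matrix.normedSpace

variable {N m : ℕ} {F : Matrix (Fin (N+1)) (Fin (N+1)) ℝ → ℝ}

/-- the planar inequality -/
def PlanarH (m : ℕ) (F : Matrix (Fin (N+1)) (Fin (N+1)) ℝ → ℝ) : Prop :=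
  ∀ V U : Matrix (Fin (N+1)) (Fin (m+1)) ℝ, Adapted V → Adapted U → V 0 0 < 1 → U 0 0 ≤ 1 →
    ∀ ε : ℝ, (ε = 1 ∨ ε = -1) → (V 0 0 ≠ U 0 0 ∨ (ε = -1 ∧ 0 < V 0 0)) →
    ∀ a0 μ : ℝ, dual F V 0 0 = a0 → (∀ i, i ≠ 0 → dual F V i 0 = μ * V i 0) →
    |a0 * U 0 0 + ε * μ * (√(1 - (V 0 0) ^ 2) * √(1 - (U 0 0) ^ 2))| * Phi F V < Phi F U

theorem alpha_mem' (hF : IsIntegrand (m+1) F) (hPl : PlanarH m F)
    {V : Matrix (Fin (N+1)) (Fin (m+1)) ℝ} (hV : Adapted V) {a0 μ : ℝ}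
    (ha0 : dual F V 0 0 = a0)
    (hμ : ∀ i, i ≠ 0 → dual F V i 0 = μ * V i 0)
    (h1 : a0 * V 0 0 + μ * (1 - (V 0 0) ^ 2) = 1) :
    0 ≤ a0 * V 0 0 ∧ a0 * V 0 0 ≤ 1 ∧ (0 < V 0 0 → V 0 0 < 1 →
      0 < a0 * V 0 0 ∧ a0 * V 0 0 < 1) := by
  have key : 0 < V 0 0 → V 0 0 < 1 → 0 < a0 * V 0 0 ∧ a0 * V 0 0 < 1 := by
    intro hc hc1
    have hs : 0 < 1 - (V 0 0) ^ 2 := by nlinarith
    have h3 := hPl V V hV hV hc1 hc1.le (-1) (Or.inr rfl) (Or.inr ⟨rfl, hc⟩) a0 μ ha0 hμ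
    rw [Real.mul_self_sqrt hs.le] at h3
    have hP := Phi_pos hF (adapted_frame hV)
    have h4 : |a0 * V 0 0 + -1 * μ * (1 - (V 0 0) ^ 2)| < 1 := by
      by_contra hcon
      push Not at hcon
      have := mul_le_mul_of_nonneg_right hcon hP.le
      linarith
    have h5 := abs_lt.1 h4
    constructor
    · nlinarith [h5.1]
    · nlinarith [h5.2]
  rcases hV.nonneg.lt_or_eq with hc | hc
  · rcases (le_one_of_adapted hV).lt_or_eq with hc1 | hc1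
    · have h3 := key hc hc1
      exact ⟨h3.1.le, h3.2.le, key⟩
    · have h3 : a0 * V 0 0 = 1 := by
        rw [hc1] at h1 ⊢
        linarith
      exact ⟨by rw [h3]; norm_num, h3.le, key⟩
  · have h3 : a0 * V 0 0 = 0 := by rw [← hc, mul_zero]
    exact ⟨h3.ge, by rw [h3]; norm_num, key⟩

theorem planar_pair' (hF : IsIntegrand (m+1) F) (hPl : PlanarH m F)
    {V U : Matrix (Fin (N+1)) (Fin (m+1)) ℝ} (hV : Adapted V) (hU : Adapted U)
    {a0 μ b0 ν : ℝ} (ha0 : dual F V 0 0 = a0)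
    (hμ : ∀ i, i ≠ 0 → dual F V i 0 = μ * V i 0)
    (hb0 : dual F U 0 0 = b0)
    (hν : ∀ i, i ≠ 0 → dual F U i 0 = ν * U i 0)
    (h1 : a0 * V 0 0 + μ * (1 - (V 0 0) ^ 2) = 1)
    (h1' : b0 * U 0 0 + ν * (1 - (U 0 0) ^ 2) = 1)
    (hc : V 0 0 < 1) (hc' : U 0 0 < 1) (hcc : V 0 0 ≠ U 0 0) :
    a0 * V 0 0 * (b0 * U 0 0) + (1 - a0 * V 0 0) * (1 - b0 * U 0 0) +
        |√(1 - (V 0 0) ^ 2) * √(1 - (U 0 0) ^ 2) *
          (a0 * U 0 0 * ν + μ * b0 * V 0 0)| < 1 := by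
  have hP := Phi_pos hF (adapted_frame hV)
  have hQ := Phi_pos hF (adapted_frame hU)
  have hs : 0 ≤ 1 - (V 0 0) ^ 2 := by
    have := hV.nonneg
    nlinarith
  have hs' : 0 ≤ 1 - (U 0 0) ^ 2 := by
    have := hU.nonneg
    nlinarith
  have hdd := Real.mul_self_sqrt hs
  have hdd' := Real.mul_self_sqrt hs'
  have key : ∀ ε : ℝ, ε = 1 ∨ ε = -1 →
      a0 * V 0 0 * (b0 * U 0 0) + (1 - a0 * V 0 0) * (1 - b0 * U 0 0) +
        ε * (√(1 - (V 0 0) ^ 2) * √(1 - (U 0 0) ^ 2) *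
          (a0 * U 0 0 * ν + μ * b0 * V 0 0)) < 1 := by
    intro ε hε
    have p1 := hPl V U hV hU hc hc'.le ε hε (Or.inl hcc) a0 μ ha0 hμ
    have p2 := hPl U V hU hV hc' hc.le ε hε (Or.inl (Ne.symm hcc)) b0 ν hb0 hν
    have hε2 : ε * ε = 1 := by
      rcases hε with h | h <;> rw [h] <;> norm_num
    obtain ⟨d, hdd1⟩ : ∃ d, d = √(1 - (V 0 0) ^ 2) := ⟨_, rfl⟩
    obtain ⟨d', hdd1'⟩ : ∃ d', d' = √(1 - (U 0 0) ^ 2) := ⟨_, rfl⟩
    rw [← hdd1, ← hdd1'] at p1 p2 ⊢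
    rw [← hdd1] at hdd
    rw [← hdd1'] at hdd'
    have p3 := mul_lt_mul'' p1 p2 (mul_nonneg (abs_nonneg _) hP.le)
      (mul_nonneg (abs_nonneg _) hQ.le)
    have hPQ := mul_pos hP hQ
    have p4 : (|a0 * U 0 0 + ε * μ * (d * d')| * |b0 * V 0 0 + ε * ν * (d' * d)|) *
        (Phi F V * Phi F U) < 1 * (Phi F V * Phi F U) := by
      calc _ = |a0 * U 0 0 + ε * μ * (d * d')| * Phi F V *
            (|b0 * V 0 0 + ε * ν * (d' * d)| * Phi F U) := by ring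
        _ < Phi F U * Phi F V := p3
        _ = _ := by ring
    have p5 := lt_of_mul_lt_mul_right p4 hPQ.le
    rw [← abs_mul] at p5
    have p6 := lt_of_le_of_lt (le_abs_self _) p5
    have hμ1 : μ * (1 - (V 0 0) ^ 2) = 1 - a0 * V 0 0 := by linarith
    have hν1 : ν * (1 - (U 0 0) ^ 2) = 1 - b0 * U 0 0 := by linarith
    have e : (a0 * U 0 0 + ε * μ * (d * d')) * (b0 * V 0 0 + ε * ν * (d' * d)) =
        a0 * V 0 0 * (b0 * U 0 0) + (1 - a0 * V 0 0) * (1 - b0 * U 0 0) +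
        ε * (d * d' * (a0 * U 0 0 * ν + μ * b0 * V 0 0)) := by
      rw [← hμ1, ← hν1, ← hdd, ← hdd']
      have e2 : (a0 * U 0 0 + ε * μ * (d * d')) * (b0 * V 0 0 + ε * ν * (d' * d)) =
          a0 * V 0 0 * (b0 * U 0 0) + (ε * ε) * (μ * (d * d) * (ν * (d' * d'))) +
          ε * (d * d' * (a0 * U 0 0 * ν + μ * b0 * V 0 0)) := by ring
      rw [e2, hε2]
      ring
    rw [← e]
    exact p6
  have k1 := key 1 (Or.inl rfl)
  have k2 := key (-1) (Or.inr rfl)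
  rcases abs_cases (√(1 - (V 0 0) ^ 2) * √(1 - (U 0 0) ^ 2) *
    (a0 * U 0 0 * ν + μ * b0 * V 0 0)) with h | h
  · rw [h.1]
    linarith
  · rw [h.1]
    linarith

theorem key_adapted' (hF : IsIntegrand (m+1) F) (hA : Axi m F) (hPl : PlanarH m F)
    {V U : Matrix (Fin (N+1)) (Fin (m+1)) ℝ} (hV : Adapted V) (hU : Adapted U)
    (hne : proj V ≠ proj U) : (Av F V * Av F U).trace < (m : ℝ) + 1 := by
  obtain ⟨hd, a0, μ, ha0, hμ, h1, h2⟩ := dual_spec hF hA hV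
  obtain ⟨hd', b0, ν, hb0, hν, h1', h2'⟩ := dual_spec hF hA hU
  obtain ⟨al0, al1, al⟩ := alpha_mem' hF hPl hV ha0 hμ h1
  obtain ⟨be0, be1, be⟩ := alpha_mem' hF hPl hU hb0 hν h1'
  rw [Av_dual, Av_dual, tr_formula hV hU hd ha0 hμ hd' hb0 hν]
  obtain ⟨pa1, pa2, pa3, pa4⟩ := pack hV hU
  obtain ⟨pb1, pb2, pb3, pb4⟩ := pack hU hV
  rw [gS_swap V U] at pb1 pb2
  rw [gr_swap V U] at pb3
  have htp := tr_proj_lt hV hU hne
  have hG : (Vᵀ * U) 0 0 = gr V U + V 0 0 * U 0 0 := by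
    unfold gr
    ring
  rw [hG] at htp
  exact final_real hV.nonneg (le_one_of_adapted hV) hU.nonneg (le_one_of_adapted hU) h1 h1' h2 h2'
    al0 al1 al be0 be1 be (Finset.sum_nonneg fun i _ => sq_nonneg _)
    (Finset.sum_nonneg fun i _ => sq_nonneg _) pa1 pa2 pa3 pa4 pb1 pb3 pb4 htp
    (fun _ hc _ hc' hcc => planar_pair' hF hPl hV hU ha0 hμ hb0 hν h1 h1' hc hc' hcc)

theorem TC_of_planar (hF : IsIntegrand (m+1) F) (hA : Axi m F) (hPl : PlanarH m F) :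
    TC (m+1) F := by
  intro V hV U hU hne
  obtain ⟨V1, hV1, e1⟩ := exists_adapted hV
  obtain ⟨U1, hU1, e2⟩ := exists_adapted hU
  have a1 : Av F V = Av F V1 := Av_eq_of_proj hF (adapted_frame hV1) hV e1
  have a2 : Av F U = Av F U1 := Av_eq_of_proj hF (adapted_frame hU1) hU e2
  rw [a1, a2]
  push_cast
  exact key_adapted' hF hA hPl hV1 hU1 (by rw [e1, e2]; exact hne)

theorem planar_of_SP (h : m < N) (hF : IsIntegrand (m+1) F) (hA : Axi m F) (hSP : SP m F) :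
    PlanarH m F := by
  intro V U hV hU h1 hU1 ε hε hne a0 μ ha0 hμ
  have hc0 := hV.nonneg
  have hc0' := hU.nonneg
  have hs : 0 < 1 - (V 0 0) ^ 2 := by nlinarith
  have hs' : 0 ≤ 1 - (U 0 0) ^ 2 := by nlinarith
  have hdd := Real.sq_sqrt hs.le
  have hdd' := Real.sq_sqrt hs'
  have hd := Real.sqrt_pos.2 hs
  have hd' := Real.sqrt_nonneg (1 - (U 0 0) ^ 2)
  have hder := prf_deriv h hF hA hV h1 ha0 hμ
  have hPU := Phi_adapted h hA hU hU1 hε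
  have hε2 : ε ^ 2 = 1 := by
    rcases hε with h | h <;> rw [h] <;> norm_num
  generalize √(1 - (V 0 0) ^ 2) = d at *
  generalize √(1 - (U 0 0) ^ 2) = d' at *
  have hpar : V 0 0 * (ε * d') - d * U 0 0 ≠ 0 := by
    intro h0
    have h3 : V 0 0 * (ε * d') = d * U 0 0 := by linarith
    have h4 : (V 0 0) ^ 2 * (1 - (U 0 0) ^ 2) = (1 - (V 0 0) ^ 2) * (U 0 0) ^ 2 := by
      have h5 := congrArg (fun t : ℝ => t ^ 2) h3
      simp only [mul_pow, hε2, hdd, hdd', one_mul] at h5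
      exact h5
    have h6 : (V 0 0) ^ 2 = (U 0 0) ^ 2 := by linarith
    have h7 : V 0 0 = U 0 0 := by
      have := (sq_eq_sq₀ hc0 hc0').1 h6
      exact this
    rcases hne with h8 | ⟨h8, h9⟩
    · exact h8 h7
    · rw [h8] at h3
      have h10 : 0 < d * U 0 0 := by
        rw [← h7]
        exact mul_pos hd h9
      have h11 : 0 ≤ V 0 0 * d' := mul_nonneg hc0 hd'
      linarith
  have key : ∀ s : ℝ, s = 1 ∨ s = -1 →
      s * (a0 * U 0 0 + ε * μ * (d * d')) * Phi F V < Phi F U := by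
    intro s hs
    have hs0 : s ≠ 0 := by
      rcases hs with h | h <;> rw [h] <;> norm_num
    have hsa : |s| = 1 := by
      rcases hs with h | h <;> rw [h] <;> norm_num
    have h3 : V 0 0 * (s * (ε * d')) - d * (s * U 0 0) ≠ 0 := by
      have e : V 0 0 * (s * (ε * d')) - d * (s * U 0 0) =
          s * (V 0 0 * (ε * d') - d * U 0 0) := by ring
      rw [e]
      exact mul_ne_zero hs0 hpar
    have h4 := above_tangent (p := prf m F) (fun t ht a b => prf_smul t ht a b) hSP h3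
      (hder (s * U 0 0) (s * (ε * d')))
    rw [prf_smul s hs0, hsa, one_mul, ← hPU] at h4
    calc _ = Phi F V * (a0 * (s * U 0 0) + μ * d * (s * (ε * d'))) := by ring
      _ < _ := h4
  have k1 := key 1 (Or.inl rfl)
  have k2 := key (-1) (Or.inr rfl)
  rcases abs_cases (a0 * U 0 0 + ε * μ * (d * d')) with h | h
  · rw [h.1]
    linarith
  · rw [h.1]
    linarith

theorem axi_profile (h : m < N) (hF : IsIntegrand (m+1) F) (hA : Axi m F) :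
    AC (m+1) F ↔ SP m F :=
  ⟨fun hAC => SP_of_AC h hF hAC, fun hs =>
    AC_of_EC (EC_of_TC hF (TC_of_planar hF hA (planar_of_SP h hF hA hs)))⟩

end V8H6.GK
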